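import Mathlib
import Pool.Agent.H31.HS.Model
import Pool.Agent.H31.HS.RBas
import Pool.Agent.H31.HS.Blk

/-!
# Numberings given by coordinates

`nodeNum v = Nat.ofBits v`.  `setC c u v`: the node `v` with the coordinates `c i` replaced by `u i`.  `ordBlk c hc`: the classes are the sets of nodes
with the same values outside the range of `c`, numbered by the coordinates `c 0, c 1, ...` (lowest bit first).
-/

set_option autoImplicit false

namespace Pool.Agent.H22.HC

open Pool.Agent.H31.HS

theorem nodeNum_eq {d : ℕ} (v : Node d) : nodeNum v = Nat.ofBits v := by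
  induction d with
  | zero => simp [nodeNum]
  | succ d ih =>
    rw [Nat.ofBits_succ, ← ih (v ∘ Fin.succ)]
    unfold nodeNum
    rw [Fin.sum_univ_succ, Finset.mul_sum, add_comm]
    congr 1
    · refine Finset.sum_congr rfl fun i _ => ?_
      by_cases h : v i.succ = true
      · simp only [Function.comp, h, if_true, Fin.val_succ, pow_succ]
        ring
      · simp only [Function.comp, h, if_false, mul_zero, Bool.false_eq_true]
    · rcases h : v 0 with _ | _ <;> simp

theorem nodeNum_lt {d : ℕ} (v : Node d) : nodeNum v < 2 ^ d := by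
  rw [nodeNum_eq]
  exact Nat.ofBits_lt_two_pow v

theorem testBit_nodeNum {d : ℕ} (v : Node d) (i : Fin d) : (nodeNum v).testBit i = v i := by
  rw [nodeNum_eq, Nat.testBit_ofBits_lt v i i.2]

theorem nodeNum_testBit (d t : ℕ) : nodeNum (fun i : Fin d => t.testBit i) = t % 2 ^ d := by
  rw [nodeNum_eq]
  exact Nat.ofBits_testBit t d

theorem nodeNum_inj {d : ℕ} {v u : Node d} (h : nodeNum v = nodeNum u) : v = u := by
  funext i
  rw [← testBit_nodeNum v i, ← testBit_nodeNum u i, h]

variable {D : ℕ}

open Classical in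
/-- the node `v` with the coordinates `c i` replaced by `u i` -/
noncomputable def setC {y : ℕ} (c : Fin y → Fin D) (u : Node y) (v : Node D) : Node D :=
  fun x => if h : ∃ i, c i = x then u h.choose else v x

theorem setC_in {y : ℕ} {c : Fin y → Fin D} (hc : Function.Injective c) (u : Node y) (v : Node D) (i : Fin y) :
    setC c u v (c i) = u i := by
  have h : ∃ j, c j = c i := ⟨i, rfl⟩
  unfold setC
  rw [dif_pos h]
  exact congrArg u (hc h.choose_spec)

theorem setC_out {y : ℕ} {c : Fin y → Fin D} (u : Node y) (v : Node D) {x : Fin D} (hx : x ∉ Set.range c) :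
    setC c u v x = v x := by
  unfold setC
  rw [dif_neg (fun ⟨i, hi⟩ => hx ⟨i, hi⟩)]

theorem setC_eq_iff {y : ℕ} {c : Fin y → Fin D} (hc : Function.Injective c) (u : Node y) (v p : Node D) :
    setC c u v = p ↔ (∀ i, p (c i) = u i) ∧ ∀ x, x ∉ Set.range c → p x = v x := by
  constructor
  · rintro rfl
    exact ⟨fun i => setC_in hc u v i, fun x hx => setC_out u v hx⟩
  · rintro ⟨h1, h2⟩
    funext x
    by_cases hx : x ∈ Set.range c
    · obtain ⟨i, rfl⟩ := hx
      rw [setC_in hc, h1]
    · rw [setC_out u v hx, h2 x hx]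

/-- numbers given by coordinates -/
noncomputable def ordBlk {y : ℕ} (c : Fin y → Fin D) (hc : Function.Injective c) : Blk (Node D) y where
  pos v := nodeNum (fun i => v (c i))
  nd v t := setC c (fun i => t.testBit i) v
  pos_lt v := nodeNum_lt _
  pos_nd v t ht := by
    have h : (fun i => setC c (fun i : Fin y => t.testBit i) v (c i)) = fun i : Fin y => t.testBit i := by
      funext i
      rw [setC_in hc]
    rw [h, nodeNum_testBit, Nat.mod_eq_of_lt ht]
  nd_pos v := by
    rw [setC_eq_iff hc]
    exact ⟨fun i => (testBit_nodeNum (fun i => v (c i)) i).symm, fun x _ => rfl⟩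
  nd_nd v t s ht hs := by
    rw [setC_eq_iff hc]
    refine ⟨fun i => by rw [setC_in hc], fun x hx => by rw [setC_out _ _ hx, setC_out _ _ hx]⟩
  nd_mod v t := by
    congr 1
    funext i
    rw [Nat.testBit_mod_two_pow]
    simp

theorem ordBlk_pos {y : ℕ} (c : Fin y → Fin D) (hc : Function.Injective c) (v : Node D) :
    (ordBlk c hc).pos v = nodeNum (fun i => v (c i)) := rfl

theorem ordBlk_nd {y : ℕ} (c : Fin y → Fin D) (hc : Function.Injective c) (v : Node D) (t : ℕ) :
    (ordBlk c hc).nd v t = setC c (fun i => t.testBit i) v := rfl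

theorem ordBlk_cls {y : ℕ} (c : Fin y → Fin D) (hc : Function.Injective c) (v u : Node D) :
    (ordBlk c hc).cls v u ↔ ∀ x, x ∉ Set.range c → v x = u x := by
  unfold Blk.cls
  rw [ordBlk_nd, ordBlk_pos, setC_eq_iff hc]
  constructor
  · intro h x hx
    exact (h.2 x hx).symm
  · intro h
    exact ⟨fun i => (testBit_nodeNum (fun i => u (c i)) i).symm, fun x hx => (h x hx).symm⟩

/-- the coordinates `c i, ..., c (i + l - 1)` -/
def subC {y : ℕ} (c : Fin y → Fin D) (i l : ℕ) (h : i + l ≤ y) : Fin l → Fin D := fun j => c ⟨i + j, by omega⟩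

theorem subC_inj {y : ℕ} {c : Fin y → Fin D} (hc : Function.Injective c) (i l : ℕ) (h : i + l ≤ y) :
    Function.Injective (subC c i l h) := by
  intro a b hab
  have := hc hab
  rw [Fin.mk.injEq] at this
  exact Fin.ext (by omega)

theorem nodeNum_sub {y : ℕ} (u : Node y) (i l : ℕ) (h : i + l ≤ y) :
    nodeNum (fun j : Fin l => u ⟨i + j, by omega⟩) = nodeNum u / 2 ^ i % 2 ^ l := by
  refine Nat.eq_of_testBit_eq fun b => ?_
  rw [Nat.testBit_mod_two_pow, Nat.testBit_div_two_pow]
  by_cases hb : b < l
  · have h1 := testBit_nodeNum (fun j : Fin l => u ⟨i + j, by omega⟩) ⟨b, hb⟩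
    have h2 := testBit_nodeNum u ⟨i + b, by omega⟩
    simp only at h1 h2
    rw [h1, add_comm b i, h2]
    simp [hb]
  · rw [Nat.testBit_lt_two_pow]
    · simp [hb]
    · exact (nodeNum_lt _).trans_le (Nat.pow_le_pow_right (by norm_num) (by omega))

theorem testBit_rep {i l x t b : ℕ} (ht : t < 2 ^ l) :
    (Blk.rep i l x t).testBit b = if b < i then x.testBit b else if b < i + l then t.testBit (b - i) else x.testBit b := by
  by_cases h1 : b < i
  · have h2 : (Blk.rep i l x t).testBit b = (Blk.rep i l x t % 2 ^ i).testBit b := by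
      rw [Nat.testBit_mod_two_pow]
      simp [h1]
    rw [h2, Blk.rep_mod, Nat.testBit_mod_two_pow]
    simp [h1]
  · by_cases h2 : b < i + l
    · have h3 : (Blk.rep i l x t).testBit b = (Blk.rep i l x t / 2 ^ i % 2 ^ l).testBit (b - i) := by
        rw [Nat.testBit_mod_two_pow, Nat.testBit_div_two_pow]
        have h4 : b - i + i = b := by omega
        have h5 : b - i < l := by omega
        simp [h4, h5]
      rw [h3, Blk.rep_mid ht]
      simp [h1, h2]
    · have h3 : (Blk.rep i l x t).testBit b = (Blk.rep i l x t / 2 ^ (i + l)).testBit (b - (i + l)) := by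
        rw [Nat.testBit_div_two_pow]
        have h4 : b - (i + l) + (i + l) = b := by omega
        rw [h4]
      rw [h3, Blk.rep_div ht, Nat.testBit_div_two_pow]
      have h4 : b - (i + l) + (i + l) = b := by omega
      simp [h1, h2, h4]

theorem ordBlk_bits {y : ℕ} (c : Fin y → Fin D) (hc : Function.Injective c) (i l : ℕ) (h : i + l ≤ y) :
    (ordBlk c hc).bits i l h = ordBlk (subC c i l h) (subC_inj hc i l h) := by
  refine Blk.ext' ?_ ?_
  · intro v
    show nodeNum (fun i => v (c i)) / 2 ^ i % 2 ^ l = nodeNum (fun j : Fin l => v (c ⟨i + j, by omega⟩))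
    exact (nodeNum_sub (fun j => v (c j)) i l h).symm
  · intro v u hvu
    rw [ordBlk_cls]
    intro x hx
    have h1 : u = (ordBlk c hc).nd v (Blk.rep i l ((ordBlk c hc).pos v) (((ordBlk c hc).bits i l h).pos u % 2 ^ l)) := hvu.symm
    by_cases hxc : x ∈ Set.range c
    · obtain ⟨b, rfl⟩ := hxc
      rw [h1, ordBlk_nd, setC_in hc, testBit_rep (Nat.mod_lt _ (by positivity)), ordBlk_pos]
      have h2 := testBit_nodeNum (fun j => v (c j)) b
      by_cases hb1 : (b : ℕ) < i
      · rw [if_pos hb1, h2]
      · by_cases hb2 : (b : ℕ) < i + l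
        · exfalso
          refine hx ⟨⟨b - i, by omega⟩, ?_⟩
          show c ⟨i + (b - i), _⟩ = c b
          congr 1
          exact Fin.ext (by simp only; omega)
        · rw [if_neg hb1, if_neg hb2, h2]
    · rw [h1, ordBlk_nd, setC_out _ _ hxc]

theorem ordBlk_comm {a b : ℕ} (c : Fin a → Fin D) (hc : Function.Injective c) (c' : Fin b → Fin D)
    (hc' : Function.Injective c') (hd : ∀ i j, c i ≠ c' j) : Blk.Comm (ordBlk c hc) (ordBlk c' hc') := by
  refine ⟨?_, ?_, ?_⟩
  · intro v t _
    rw [ordBlk_pos, ordBlk_pos, ordBlk_nd]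
    congr 1
    funext i
    exact setC_out _ _ (fun ⟨j, hj⟩ => hd i j hj.symm)
  · intro v t _
    rw [ordBlk_pos, ordBlk_pos, ordBlk_nd]
    congr 1
    funext i
    exact setC_out _ _ (fun ⟨j, hj⟩ => hd j i hj)
  · intro v s t _ _
    rw [ordBlk_nd, ordBlk_nd, ordBlk_nd, ordBlk_nd, setC_eq_iff hc]
    refine ⟨?_, ?_⟩
    · intro i
      rw [setC_out _ _ (fun ⟨j, hj⟩ => hd i j hj.symm), setC_in hc]
    · intro x hx
      by_cases hx' : x ∈ Set.range c'
      · obtain ⟨j, rfl⟩ := hx'
        rw [setC_in hc', setC_in hc']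
      · rw [setC_out _ _ hx', setC_out _ _ hx', setC_out _ _ hx]

/-- the joined coordinates (the low ones are those of `c'`) -/
def joinC {a b : ℕ} (c : Fin a → Fin D) (c' : Fin b → Fin D) : Fin (a + b) → Fin D :=
  fun i => if h : (i : ℕ) < b then c' ⟨i, h⟩ else c ⟨i - b, by omega⟩

theorem joinC_inj {a b : ℕ} {c : Fin a → Fin D} (hc : Function.Injective c) {c' : Fin b → Fin D}
    (hc' : Function.Injective c') (hd : ∀ i j, c i ≠ c' j) : Function.Injective (joinC c c') := by
  intro i j hij
  unfold joinC at hij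
  by_cases h1 : (i : ℕ) < b
  · by_cases h2 : (j : ℕ) < b
    · rw [dif_pos h1, dif_pos h2] at hij
      have := hc' hij
      rw [Fin.mk.injEq] at this
      exact Fin.ext this
    · rw [dif_pos h1, dif_neg h2] at hij
      exact absurd hij.symm (hd _ _)
  · by_cases h2 : (j : ℕ) < b
    · rw [dif_neg h1, dif_pos h2] at hij
      exact absurd hij (hd _ _)
    · rw [dif_neg h1, dif_neg h2] at hij
      have := hc hij
      rw [Fin.mk.injEq] at this
      exact Fin.ext (by omega)

theorem ordBlk_prod {a b : ℕ} (c : Fin a → Fin D) (hc : Function.Injective c) (c' : Fin b → Fin D)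
    (hc' : Function.Injective c') (hd : ∀ i j, c i ≠ c' j) (h : Blk.Comm (ordBlk c hc) (ordBlk c' hc')) :
    Blk.prod (ordBlk c hc) (ordBlk c' hc') h = ordBlk (joinC c c') (joinC_inj hc hc' hd) := by
  refine Blk.ext' ?_ ?_
  · intro v
    show nodeNum (fun i => v (c i)) * 2 ^ b + nodeNum (fun i => v (c' i)) = nodeNum (fun i => v (joinC c c' i))
    refine Nat.eq_of_testBit_eq fun t => ?_
    rw [mul_comm, Nat.testBit_two_pow_mul_add _ (nodeNum_lt _)]
    by_cases ht : t < a + b
    · have h1 := testBit_nodeNum (fun i => v (joinC c c' i)) ⟨t, ht⟩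
      simp only at h1
      rw [h1]
      by_cases h2 : t < b
      · rw [if_pos h2]
        have h3 := testBit_nodeNum (fun i => v (c' i)) ⟨t, h2⟩
        simp only at h3
        rw [h3]
        unfold joinC
        rw [dif_pos h2]
      · rw [if_neg h2]
        have h3 := testBit_nodeNum (fun i => v (c i)) ⟨t - b, by omega⟩
        simp only at h3
        rw [h3]
        unfold joinC
        rw [dif_neg h2]
    · rw [if_neg (by omega), Nat.testBit_lt_two_pow, Nat.testBit_lt_two_pow]
      · exact (nodeNum_lt _).trans_le (Nat.pow_le_pow_right (by norm_num) (by omega))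
      · exact (nodeNum_lt _).trans_le (Nat.pow_le_pow_right (by norm_num) (by omega))
  · intro v u hvu
    rw [ordBlk_cls]
    intro x hx
    have h1 : u = (ordBlk c hc).nd ((ordBlk c' hc').nd v _) _ := hvu.symm
    have hx1 : x ∉ Set.range c := by
      rintro ⟨i, rfl⟩
      refine hx ⟨⟨b + i, by omega⟩, ?_⟩
      unfold joinC
      rw [dif_neg (by simp)]
      congr 1
      exact Fin.ext (by simp)
    have hx2 : x ∉ Set.range c' := by
      rintro ⟨i, rfl⟩
      refine hx ⟨⟨i, by omega⟩, ?_⟩
      unfold joinC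
      rw [dif_pos i.2]
    rw [h1, ordBlk_nd, ordBlk_nd, setC_out _ _ hx1, setC_out _ _ hx2]

end Pool.Agent.H22.HC
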