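import Mathlib
import Pool.Agent.H22.HC.Ord

/-!
# Local permutations of the nodes

`Loc T f`: `f` changes and reads only the coordinates in `T`.  Permutations local on disjoint sets commute; a numbering by coordinates is not changed
by the transport along a permutation which is local on a set disjoint from these coordinates.
-/

set_option autoImplicit false

namespace Pool.Agent.H22.HC

open Pool.Agent.H31.HS

variable {D : ℕ}

/-- `f` changes and reads only the coordinates in `T` -/
def Loc (T : Set (Fin D)) (f : Node D → Node D) : Prop :=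
  (∀ v x, x ∉ T → f v x = v x) ∧ ∀ v u, (∀ x ∈ T, v x = u x) → ∀ x ∈ T, f v x = f u x

theorem Loc.id (T : Set (Fin D)) : Loc T (fun v => v) := ⟨fun _ _ _ => rfl, fun _ _ h => h⟩

theorem Loc.mono {T T' : Set (Fin D)} {f : Node D → Node D} (h : Loc T f) (hT : T ⊆ T') : Loc T' f := by
  refine ⟨fun v x hx => h.1 v x (fun h' => hx (hT h')), fun v u hvu x hx => ?_⟩
  by_cases hx' : x ∈ T
  · exact h.2 v u (fun y hy => hvu y (hT hy)) x hx'
  · rw [h.1 v x hx', h.1 u x hx', hvu x hx]

theorem Loc.comp {T : Set (Fin D)} {f g : Node D → Node D} (hf : Loc T f) (hg : Loc T g) : Loc T (fun v => f (g v)) :=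
  ⟨fun v x hx => (hf.1 (g v) x hx).trans (hg.1 v x hx), fun v u hvu => hf.2 _ _ (hg.2 v u hvu)⟩

theorem Loc.symm {T : Set (Fin D)} {g : Equiv.Perm (Node D)} (h : Loc T g) : Loc T g.symm := by
  classical
  have h1 : ∀ v x, x ∉ T → g.symm v x = v x := by
    intro v x hx
    have := h.1 (g.symm v) x hx
    rw [Equiv.apply_symm_apply] at this
    exact this.symm
  refine ⟨h1, fun v u hvu x hx => ?_⟩
  let w : Node D := fun y => if y ∈ T then g.symm v y else g.symm u y
  have hw : ∀ y ∈ T, w y = g.symm v y := fun y hy => if_pos hy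
  have hw' : ∀ y, y ∉ T → w y = g.symm u y := fun y hy => if_neg hy
  have h2 : g w = u := by
    funext y
    by_cases hy : y ∈ T
    · rw [h.2 w (g.symm v) hw y hy, Equiv.apply_symm_apply, hvu y hy]
    · rw [h.1 w y hy, hw' y hy, h1 u y hy]
  rw [← hw x hx, ← h2, Equiv.symm_apply_apply]

theorem Loc.commute {S T : Set (Fin D)} {f g : Node D → Node D} (hf : Loc S f) (hg : Loc T g) (hd : Disjoint S T) (v : Node D) :
    f (g v) = g (f v) := by
  have key : ∀ {S T : Set (Fin D)} {f g : Node D → Node D}, Loc S f → Loc T g → Disjoint S T → ∀ v x, x ∈ S → f (g v) x = g (f v) x := by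
    intro S T f g hf hg hd v x hx
    rw [hg.1 (f v) x (Set.disjoint_left.1 hd hx)]
    exact hf.2 (g v) v (fun y hy => hg.1 v y (Set.disjoint_left.1 hd hy)) x hx
  funext x
  by_cases hx : x ∈ S
  · exact key hf hg hd v x hx
  · by_cases hx' : x ∈ T
    · exact (key hg hf hd.symm v x hx').symm
    · rw [hf.1 _ x hx, hg.1 _ x hx', hg.1 _ x hx', hf.1 _ x hx]

theorem conj_cls {V : Type} {m : ℕ} (B : Blk V m) (φ : Equiv.Perm V) (v u : V) :
    (B.conj φ).cls v u ↔ B.cls (φ.symm v) (φ.symm u) := by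
  show φ (B.nd (φ.symm v) (B.pos (φ.symm u))) = u ↔ B.nd (φ.symm v) (B.pos (φ.symm u)) = φ.symm u
  constructor
  · intro h
    exact ((Equiv.symm_apply_eq φ).2 h.symm).symm
  · intro h
    rw [h, Equiv.apply_symm_apply]

theorem conj_bits {V : Type} {m : ℕ} (B : Blk V m) (φ : Equiv.Perm V) (i l : ℕ) (h : i + l ≤ m) :
    (B.conj φ).bits i l h = (B.bits i l h).conj φ := rfl

theorem conj_conj {V : Type} {m : ℕ} (B : Blk V m) (φ ψ : Equiv.Perm V) : (B.conj φ).conj ψ = B.conj (ψ * φ) := rfl

theorem conj_one {V : Type} {m : ℕ} (B : Blk V m) : B.conj 1 = B := rfl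

theorem conj_conj_symm {V : Type} {m : ℕ} (B : Blk V m) (φ : Equiv.Perm V) : (B.conj φ).conj φ.symm = B := by
  rw [conj_conj]
  have : φ.symm * φ = 1 := by
    ext v
    simp
  rw [this, conj_one]

theorem ordBlk_conj {y : ℕ} (c : Fin y → Fin D) (hc : Function.Injective c) {T : Set (Fin D)} {g : Equiv.Perm (Node D)} (hg : Loc T g)
    (hd : ∀ i, c i ∉ T) : (ordBlk c hc).conj g = ordBlk c hc := by
  refine Blk.ext' ?_ ?_
  · intro v
    show nodeNum (fun i => g.symm v (c i)) = nodeNum (fun i => v (c i))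
    congr 1
    funext i
    exact hg.symm.1 v (c i) (hd i)
  · intro v u hvu
    rw [conj_cls, ordBlk_cls] at hvu
    rw [ordBlk_cls]
    intro x hx
    by_cases hxT : x ∈ T
    · have := hg.2 (g.symm v) (g.symm u) (fun z hz => hvu z (by rintro ⟨i, rfl⟩; exact hd i hz)) x hxT
      rwa [Equiv.apply_symm_apply, Equiv.apply_symm_apply] at this
    · have := hvu x hx
      rwa [hg.symm.1 v x hxT, hg.symm.1 u x hxT] at this

end Pool.Agent.H22.HC
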