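import Mathlib
import Pool.Agent.H22.HC.Loc

/-!
# Star codes on one block of coordinates

`β : Node k → Fin D` injective.  `syn β v`: the sum (in `F_2^k`) of the `a` with `v (β a) = 1`; `sp β v`: the values at the special coordinates
`β (eu j)` (`eu j` the unit vectors); `hlp β v`: the sum over the other `a`.  `phiA`: flip `β (sp v)` if `sp v` is not a unit vector;
`phiB`: add `hlp v` to the special bits.  `phi = phiB ∘ phiA`.  `ctr β v = flp (β (syn v)) v`.
-/

set_option autoImplicit false

namespace Pool.Agent.H22.HC

open Pool.Agent.H31.HS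

variable {D k : ℕ}

/-- unit vectors -/
def eu (j : Fin k) : Node k := fun i => decide (i = j)

/-- sum of two vectors -/
def ad (a b : Node k) : Node k := fun i => xor (a i) (b i)

/-- `a` is a unit vector -/
def IsU (a : Node k) : Prop := ∃ j, a = eu j

instance (a : Node k) : Decidable (IsU a) := by unfold IsU; infer_instance

/-- parity of the number of elements of `S` with `f = true`, coordinatewise -/
def syn (β : Node k → Fin D) (v : Node D) : Node k :=
  fun i => decide ((Finset.univ.filter (fun a : Node k => v (β a) = true ∧ a i = true)).card % 2 = 1)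

def hlp (β : Node k → Fin D) (v : Node D) : Node k :=
  fun i => decide ((Finset.univ.filter (fun a : Node k => ¬ IsU a ∧ v (β a) = true ∧ a i = true)).card % 2 = 1)

def sp (β : Node k → Fin D) (v : Node D) : Node k := fun j => v (β (eu j))

theorem eu_inj : Function.Injective (eu : Fin k → Node k) := by
  intro i j h
  have := congrFun h i
  simpa [eu] using this

theorem ad_comm (a b : Node k) : ad a b = ad b a := by
  funext i
  exact Bool.xor_comm _ _

theorem ad_assoc (a b c : Node k) : ad (ad a b) c = ad a (ad b c) := by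
  funext i
  exact Bool.xor_assoc _ _ _

theorem ad_self (a b : Node k) : ad (ad a b) b = a := by
  funext i
  simp [ad]

theorem ad_self' (a b : Node k) : ad b (ad b a) = a := by
  funext i
  simp [ad]

theorem flp_same (x : Fin D) (v : Node D) : flp x v x = !v x := by simp [flp]

theorem flp_ne {x y : Fin D} (h : y ≠ x) (v : Node D) : flp x v y = v y := by simp [flp, h]

theorem card_odd_flip {ι : Type} [DecidableEq ι] (S S' : Finset ι) (a : ι) (h : ∀ b, b ≠ a → (b ∈ S' ↔ b ∈ S)) (ha : a ∈ S' ↔ a ∉ S) :
    decide (S'.card % 2 = 1) = !decide (S.card % 2 = 1) := by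
  by_cases h1 : a ∈ S
  · have h2 : a ∉ S' := fun h' => (ha.1 h') h1
    have h3 : S = insert a S' := by
      ext b
      by_cases hb : b = a
      · subst hb
        simp [h1]
      · rw [Finset.mem_insert, h b hb]
        simp [hb]
    rw [h3, Finset.card_insert_of_notMem h2]
    by_cases h4 : S'.card % 2 = 1
    · simp [h4]; omega
    · simp [h4]; omega
  · have h2 : a ∈ S' := ha.2 h1
    have h3 : S' = insert a S := by
      ext b
      by_cases hb : b = a
      · subst hb
        simp [h2]
      · rw [Finset.mem_insert, h b hb]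
        simp [hb]
    rw [h3, Finset.card_insert_of_notMem h1]
    by_cases h4 : S.card % 2 = 1
    · simp [h4]; omega
    · simp [h4]; omega

theorem syn_flp {β : Node k → Fin D} (hβ : Function.Injective β) (a : Node k) (v : Node D) :
    syn β (flp (β a) v) = ad (syn β v) a := by
  funext i
  unfold syn ad
  by_cases hai : a i = true
  · rw [card_odd_flip (Finset.univ.filter (fun a : Node k => v (β a) = true ∧ a i = true)) _ a]
    · rw [hai, Bool.xor_true]
    · intro b hb
      simp only [Finset.mem_filter, Finset.mem_univ, true_and]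
      rw [flp_ne (fun h => hb (hβ h))]
    · simp only [Finset.mem_filter, Finset.mem_univ, true_and]
      rw [flp_same, hai]
      simp
  · have h : (Finset.univ.filter (fun b : Node k => flp (β a) v (β b) = true ∧ b i = true)) =
        Finset.univ.filter (fun b : Node k => v (β b) = true ∧ b i = true) := by
      refine Finset.filter_congr fun b _ => ?_
      by_cases hb : b = a
      · subst hb
        simp [hai]
      · rw [flp_ne (fun h => hb (hβ h))]
    rw [h]
    simp only [Bool.not_eq_true] at hai
    rw [hai, Bool.xor_false]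

theorem hlp_flp {β : Node k → Fin D} (hβ : Function.Injective β) {a : Node k} (ha : ¬ IsU a) (v : Node D) :
    hlp β (flp (β a) v) = ad (hlp β v) a := by
  funext i
  unfold hlp ad
  by_cases hai : a i = true
  · rw [card_odd_flip (Finset.univ.filter (fun a : Node k => ¬ IsU a ∧ v (β a) = true ∧ a i = true)) _ a]
    · rw [hai, Bool.xor_true]
    · intro b hb
      simp only [Finset.mem_filter, Finset.mem_univ, true_and]
      rw [flp_ne (fun h => hb (hβ h))]
    · simp only [Finset.mem_filter, Finset.mem_univ, true_and]
      rw [flp_same, hai]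
      simp [ha]
  · have h : (Finset.univ.filter (fun b : Node k => ¬ IsU b ∧ flp (β a) v (β b) = true ∧ b i = true)) =
        Finset.univ.filter (fun b : Node k => ¬ IsU b ∧ v (β b) = true ∧ b i = true) := by
      refine Finset.filter_congr fun b _ => ?_
      by_cases hb : b = a
      · subst hb
        simp [hai]
      · rw [flp_ne (fun h => hb (hβ h))]
    rw [h]
    simp only [Bool.not_eq_true] at hai
    rw [hai, Bool.xor_false]

theorem hlp_congr {β : Node k → Fin D} {v u : Node D} (h : ∀ a, ¬ IsU a → v (β a) = u (β a)) : hlp β v = hlp β u := by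
  funext i
  unfold hlp
  congr 3
  congr 1
  refine Finset.filter_congr fun b _ => ?_
  by_cases hb : IsU b
  · simp [hb]
  · rw [h b hb]

theorem syn_eq {β : Node k → Fin D} (v : Node D) : syn β v = ad (hlp β v) (sp β v) := by
  funext i
  unfold syn hlp ad sp
  have h1 : (Finset.univ.filter (fun a : Node k => v (β a) = true ∧ a i = true)) =
      (Finset.univ.filter (fun a : Node k => ¬ IsU a ∧ v (β a) = true ∧ a i = true)) ∪
        (if v (β (eu i)) = true then {eu i} else ∅) := by
    ext a
    simp only [Finset.mem_filter, Finset.mem_univ, true_and, Finset.mem_union]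
    by_cases ha : IsU a
    · obtain ⟨j, rfl⟩ := ha
      have hU : IsU (eu j) := ⟨j, rfl⟩
      have h2 : (eu j : Node k) i = true ↔ i = j := by simp [eu]
      rw [h2]
      by_cases hij : i = j
      · subst hij
        by_cases h3 : v (β (eu i)) = true <;> simp [h3, hU]
      · have h4 : eu j ≠ eu i := fun h => hij (eu_inj h).symm
        by_cases h3 : v (β (eu i)) = true <;> simp [h3, hij, hU, h4]
    · have h4 : a ≠ eu i := fun h => ha ⟨i, h⟩
      by_cases h3 : v (β (eu i)) = true <;> simp [h3, ha, h4]
  have h2 : Disjoint (Finset.univ.filter (fun a : Node k => ¬ IsU a ∧ v (β a) = true ∧ a i = true))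
      (if v (β (eu i)) = true then {eu i} else ∅) := by
    rw [Finset.disjoint_left]
    intro a ha ha'
    rw [Finset.mem_filter] at ha
    split_ifs at ha' with h3
    · rw [Finset.mem_singleton] at ha'
      exact ha.2.1 ⟨i, ha'⟩
    · exact absurd ha' (Finset.notMem_empty _)
  rw [h1, Finset.card_union_of_disjoint h2]
  rcases h3 : v (β (eu i)) with _ | _
  · simp
  · simp only [if_true, Finset.card_singleton, Bool.xor_true]
    by_cases h4 : (Finset.univ.filter (fun a : Node k => ¬ IsU a ∧ v (β a) = true ∧ a i = true)).card % 2 = 1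
    · simp [h4]; omega
    · simp [h4]; omega

/-! ### The permutations -/

def fA (β : Node k → Fin D) (v : Node D) : Node D := if IsU (sp β v) then v else flp (β (sp β v)) v

theorem sp_fA {β : Node k → Fin D} (hβ : Function.Injective β) (v : Node D) : sp β (fA β v) = sp β v := by
  unfold fA
  split_ifs with h
  · rfl
  · funext j
    show flp (β (sp β v)) v (β (eu j)) = v (β (eu j))
    rw [flp_ne]
    intro h'
    exact h ⟨j, (hβ h').symm⟩

theorem fA_fA {β : Node k → Fin D} (hβ : Function.Injective β) (v : Node D) : fA β (fA β v) = v := by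
  have h1 := sp_fA hβ v
  unfold fA at h1 ⊢
  rw [h1]
  split_ifs with h
  · rfl
  · exact flp_flp _ _

def phiA (β : Node k → Fin D) (hβ : Function.Injective β) : Equiv.Perm (Node D) :=
  ⟨fA β, fA β, fA_fA hβ, fA_fA hβ⟩

/-- one special bit -/
def fC (β : Node k → Fin D) (j : Fin k) (v : Node D) : Node D := if hlp β v j = true then flp (β (eu j)) v else v

theorem hlp_fC {β : Node k → Fin D} (hβ : Function.Injective β) (j : Fin k) (v : Node D) : hlp β (fC β j v) = hlp β v := by
  refine hlp_congr fun a ha => ?_
  unfold fC
  split_ifs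
  · rw [flp_ne]
    intro h'
    exact ha ⟨j, hβ h'⟩
  · rfl

theorem fC_fC {β : Node k → Fin D} (hβ : Function.Injective β) (j : Fin k) (v : Node D) : fC β j (fC β j v) = v := by
  have h1 := hlp_fC hβ j v
  unfold fC at h1 ⊢
  rw [h1]
  split_ifs with h
  · exact flp_flp _ _
  · rfl

def phiC (β : Node k → Fin D) (hβ : Function.Injective β) (j : Fin k) : Equiv.Perm (Node D) :=
  ⟨fC β j, fC β j, fC_fC hβ j, fC_fC hβ j⟩

/-- the first `n` special bits -/
def phiBn (β : Node k → Fin D) (hβ : Function.Injective β) : ℕ → Equiv.Perm (Node D)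
  | 0 => 1
  | n + 1 => (if h : n < k then phiC β hβ ⟨n, h⟩ else 1) * phiBn β hβ n

theorem hlp_phiBn {β : Node k → Fin D} (hβ : Function.Injective β) (n : ℕ) (v : Node D) : hlp β (phiBn β hβ n v) = hlp β v := by
  induction n with
  | zero => rfl
  | succ n ih =>
    show hlp β ((if h : n < k then phiC β hβ ⟨n, h⟩ else 1) (phiBn β hβ n v)) = hlp β v
    split_ifs with h
    · exact (hlp_fC hβ _ _).trans ih
    · exact ih

theorem phiBn_out {β : Node k → Fin D} (hβ : Function.Injective β) (n : ℕ) (v : Node D) (x : Fin D) (hx : ∀ j, x ≠ β (eu j)) :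
    phiBn β hβ n v x = v x := by
  induction n with
  | zero => rfl
  | succ n ih =>
    show (if h : n < k then phiC β hβ ⟨n, h⟩ else 1) (phiBn β hβ n v) x = v x
    split_ifs with h
    · refine Eq.trans ?_ ih
      show fC β ⟨n, h⟩ (phiBn β hβ n v) x = _
      unfold fC
      split_ifs
      · exact flp_ne (hx _) _
      · rfl
    · exact ih

theorem phiBn_in {β : Node k → Fin D} (hβ : Function.Injective β) (n : ℕ) (v : Node D) (j : Fin k) :
    phiBn β hβ n v (β (eu j)) = xor (v (β (eu j))) (decide ((j : ℕ) < n) && hlp β v j) := by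
  induction n with
  | zero => simp [phiBn]
  | succ n ih =>
    show (if h : n < k then phiC β hβ ⟨n, h⟩ else 1) (phiBn β hβ n v) (β (eu j)) = _
    split_ifs with h
    · show fC β ⟨n, h⟩ (phiBn β hβ n v) (β (eu j)) = _
      unfold fC
      rw [hlp_phiBn]
      by_cases hj : (j : ℕ) = n
      · have hj' : j = ⟨n, h⟩ := Fin.ext hj
        subst hj'
        split_ifs with h1
        · rw [flp_same, ih]
          simp [h1]
        · rw [ih]
          simp at h1
          simp [h1]
      · have h2 : β (eu j) ≠ β (eu ⟨n, h⟩) := by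
          intro h'
          exact hj (congrArg Fin.val (eu_inj (hβ h')))
        have h3 : decide ((j : ℕ) < n + 1) = decide ((j : ℕ) < n) := by
          by_cases h4 : (j : ℕ) < n
          · simp [h4]; omega
          · simp [h4]; omega
        rw [h3]
        split_ifs with h1
        · rw [flp_ne h2, ih]
        · exact ih
    · show phiBn β hβ n v (β (eu j)) = _
      rw [ih]
      have h3 : decide ((j : ℕ) < n + 1) = decide ((j : ℕ) < n) := by
        have := j.2
        by_cases h4 : (j : ℕ) < n
        · simp [h4]; omega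
        · simp [h4]; omega
      rw [h3]

/-- the permutation of one block -/
def phi (β : Node k → Fin D) (hβ : Function.Injective β) : Equiv.Perm (Node D) := phiBn β hβ k * phiA β hβ

theorem phiBk_sp {β : Node k → Fin D} (hβ : Function.Injective β) (v : Node D) : sp β (phiBn β hβ k v) = ad (sp β v) (hlp β v) := by
  funext j
  show phiBn β hβ k v (β (eu j)) = xor (v (β (eu j))) (hlp β v j)
  rw [phiBn_in]
  simp

/-- P1 -/
theorem syn_phi {β : Node k → Fin D} (hβ : Function.Injective β) (v : Node D) : syn β (phi β hβ v) = sp β v := by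
  have h1 : syn β (phi β hβ v) = ad (hlp β (fA β v)) (ad (sp β (fA β v)) (hlp β (fA β v))) := by
    rw [syn_eq]
    show ad (hlp β (phiBn β hβ k (fA β v))) (sp β (phiBn β hβ k (fA β v))) = _
    rw [hlp_phiBn, phiBk_sp]
  rw [h1, sp_fA hβ, ad_comm (sp β v), ad_self']

/-- the centre -/
def ctr (β : Node k → Fin D) (v : Node D) : Node D := flp (β (syn β v)) v

/-- P2: the centre does not depend on the special bits -/
theorem ctr_phi {β : Node k → Fin D} (hβ : Function.Injective β) {v u : Node D} (h : ∀ x, (∀ j, x ≠ β (eu j)) → v x = u x) :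
    ctr β (phi β hβ v) = ctr β (phi β hβ u) := by
  have key : ∀ v : Node D, ∀ x, (∀ j, x ≠ β (eu j)) → ctr β (phi β hβ v) x = v x := by
    intro v x hx
    unfold ctr
    rw [syn_phi]
    show flp (β (sp β v)) (phiBn β hβ k (fA β v)) x = v x
    unfold fA
    split_ifs with h1
    · obtain ⟨j, hj⟩ := h1
      rw [hj, flp_ne (hx j), phiBn_out hβ k v x hx]
    · by_cases hx' : x = β (sp β v)
      · subst hx'
        rw [flp_same, phiBn_out hβ k _ _ hx, flp_same, Bool.not_not]
      · rw [flp_ne hx', phiBn_out hβ k _ _ hx, flp_ne hx']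
  have key2 : ∀ v : Node D, ∀ j, ctr β (phi β hβ v) (β (eu j)) = hlp β v j := by
    intro v j
    unfold ctr
    rw [syn_phi]
    show flp (β (sp β v)) (phiBn β hβ k (fA β v)) (β (eu j)) = _
    have h2 : phiBn β hβ k (fA β v) (β (eu j)) = xor (sp β v j) (hlp β (fA β v) j) := by
      have := congrFun (phiBk_sp hβ (fA β v)) j
      rw [sp_fA hβ] at this
      exact this
    by_cases h1 : IsU (sp β v)
    · have h3 : fA β v = v := if_pos h1
      obtain ⟨j', hj'⟩ := h1
      rw [h3] at h2 ⊢
      rw [hj'] at h2 ⊢
      by_cases hjj : j = j'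
      · subst hjj
        rw [flp_same, h2]
        simp [eu]
      · have h4 : β (eu j) ≠ β (eu j') := fun h' => hjj (eu_inj (hβ h'))
        rw [flp_ne h4, h2]
        simp [eu, hjj]
    · have h4 : β (eu j) ≠ β (sp β v) := fun h' => h1 ⟨j, (hβ h').symm⟩
      rw [flp_ne h4, h2]
      have h5 : hlp β (fA β v) = ad (hlp β v) (sp β v) := by
        unfold fA
        rw [if_neg h1]
        exact hlp_flp hβ h1 v
      rw [h5]
      show xor (sp β v j) (xor (hlp β v j) (sp β v j)) = hlp β v j
      rcases sp β v j <;> rcases hlp β v j <;> rfl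
  have h0 : hlp β v = hlp β u := hlp_congr fun a ha => h _ (fun j hj => ha ⟨j, hβ hj⟩)
  funext x
  by_cases hx : ∀ j, x ≠ β (eu j)
  · rw [key v x hx, key u x hx, h x hx]
  · push Not at hx
    obtain ⟨j, rfl⟩ := hx
    rw [key2, key2, h0]

end Pool.Agent.H22.HC
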