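import Mathlib
import Pool.Agent.H22.HC.Star

/-!
# Star codes on several blocks, star numberings

`BInj β m`: the `m` blocks are injective and disjoint.  `phiN β m`: the product of the permutations of the blocks.
`starBlk c hc β m hβ = (ordBlk c hc).conj (phiN β m hβ)`.  `StarC c β m`: the special coordinates are `c (i k + j) = β i (eu j)`, the helpers
are outside the range of `c`.  `starBlk_low`: the low bits; `starBlk_digit`: the classes of a digit have a common centre.
-/

set_option autoImplicit false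

namespace Pool.Agent.H22.HC

open Pool.Agent.H31.HS

variable {D k : ℕ}

/-- disjoint injective blocks -/
def BInj (β : ℕ → Node k → Fin D) (m : ℕ) : Prop := ∀ i < m, ∀ j < m, ∀ a b, β i a = β j b → i = j ∧ a = b

theorem BInj.inj {β : ℕ → Node k → Fin D} {m : ℕ} (h : BInj β m) {i : ℕ} (hi : i < m) : Function.Injective (β i) :=
  fun a b hab => (h i hi i hi a b hab).2

theorem BInj.mono {β : ℕ → Node k → Fin D} {m m' : ℕ} (h : BInj β m) (hm : m' ≤ m) : BInj β m' :=
  fun i hi j hj => h i (by omega) j (by omega)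

theorem fA_loc {β : Node k → Fin D} (_hβ : Function.Injective β) : Loc (Set.range β) (fA β) := by
  constructor
  · intro v x hx
    unfold fA
    split_ifs
    · rfl
    · exact flp_ne (fun h => hx ⟨_, h.symm⟩) v
  · intro v u hvu x hx
    have h1 : sp β v = sp β u := funext fun j => hvu _ ⟨_, rfl⟩
    unfold fA
    rw [h1]
    split_ifs
    · exact hvu x hx
    · by_cases h2 : x = β (sp β u)
      · subst h2
        rw [flp_same, flp_same, hvu _ hx]
      · rw [flp_ne h2, flp_ne h2, hvu _ hx]

theorem fC_loc {β : Node k → Fin D} (j : Fin k) : Loc (Set.range β) (fC β j) := by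
  constructor
  · intro v x hx
    unfold fC
    split_ifs
    · exact flp_ne (fun h => hx ⟨_, h.symm⟩) v
    · rfl
  · intro v u hvu x hx
    have h1 : hlp β v = hlp β u := hlp_congr fun a _ => hvu _ ⟨_, rfl⟩
    unfold fC
    rw [h1]
    split_ifs
    · by_cases h2 : x = β (eu j)
      · subst h2
        rw [flp_same, flp_same, hvu _ hx]
      · rw [flp_ne h2, flp_ne h2, hvu _ hx]
    · exact hvu x hx

theorem phiBn_loc {β : Node k → Fin D} (hβ : Function.Injective β) (n : ℕ) : Loc (Set.range β) (phiBn β hβ n) := by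
  induction n with
  | zero => exact Loc.id _
  | succ n ih =>
    have h1 : Loc (Set.range β) ((if h : n < k then phiC β hβ ⟨n, h⟩ else 1 : Equiv.Perm (Node D)) : Node D → Node D) := by
      split_ifs with h
      · exact fC_loc _
      · exact Loc.id _
    exact h1.comp ih

theorem phi_loc {β : Node k → Fin D} (hβ : Function.Injective β) : Loc (Set.range β) (phi β hβ) :=
  (phiBn_loc hβ k).comp (fA_loc hβ)

/-- the product of the permutations of the blocks -/
def phiN (β : ℕ → Node k → Fin D) : (m : ℕ) → BInj β m → Equiv.Perm (Node D)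
  | 0, _ => 1
  | m + 1, h => phi (β m) (h.inj (Nat.lt_succ_self m)) * phiN β m (h.mono (Nat.le_succ m))

theorem phiN_loc (β : ℕ → Node k → Fin D) (m : ℕ) (h : BInj β m) : Loc {x | ∃ i < m, x ∈ Set.range (β i)} (phiN β m h) := by
  induction m with
  | zero => exact Loc.id _
  | succ m ih =>
    have h1 : Loc {x | ∃ i < m + 1, x ∈ Set.range (β i)} (phi (β m) (h.inj (Nat.lt_succ_self m))) :=
      (phi_loc _).mono fun x hx => ⟨m, Nat.lt_succ_self m, hx⟩
    have h2 : Loc {x | ∃ i < m + 1, x ∈ Set.range (β i)} (phiN β m (h.mono (Nat.le_succ m))) :=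
      (ih _).mono fun x ⟨i, hi, hx⟩ => ⟨i, by omega, hx⟩
    exact h1.comp h2

theorem phi_comm_phiN (β : ℕ → Node k → Fin D) {m m' : ℕ} (hm : m' ≤ m) (h : BInj β (m + 1)) :
    phi (β m) (h.inj (Nat.lt_succ_self m)) * phiN β m' (h.mono (by omega)) =
      phiN β m' (h.mono (by omega)) * phi (β m) (h.inj (Nat.lt_succ_self m)) := by
  refine Equiv.ext fun v => ?_
  refine Loc.commute (phi_loc _) (phiN_loc β m' _) ?_ v
  rw [Set.disjoint_left]
  rintro x ⟨a, rfl⟩ ⟨i, hi, b, hb⟩
  have := (h i (by omega) m (by omega) b a hb).1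
  omega

/-- low blocks are not changed by the high permutations -/
theorem conj_phiN_low {y : ℕ} (c : Fin y → Fin D) (hc : Function.Injective c) (β : ℕ → Node k → Fin D) {m m' : ℕ} (hm : m' ≤ m) (h : BInj β m)
    (hd : ∀ i, m' ≤ i → i < m → ∀ j a, c j ≠ β i a) :
    (ordBlk c hc).conj (phiN β m h) = (ordBlk c hc).conj (phiN β m' (h.mono hm)) := by
  induction m with
  | zero =>
    have : m' = 0 := by omega
    subst this
    rfl
  | succ m ih =>
    by_cases hmm : m' = m + 1
    · subst hmm
      rfl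
    · have h1 : phiN β (m + 1) h = phi (β m) (h.inj (Nat.lt_succ_self m)) * phiN β m (h.mono (Nat.le_succ m)) := rfl
      rw [h1, ← conj_conj, ih (by omega) _ (fun i hi hi' => hd i hi (by omega)), conj_conj, phi_comm_phiN β (by omega) h, ← conj_conj,
        ordBlk_conj c hc (phi_loc _)]
      rintro j ⟨a, ha⟩
      exact hd m (by omega) (by omega) j a ha.symm

/-- one block -/
theorem conj_phiN_block {y : ℕ} (c : Fin y → Fin D) (hc : Function.Injective c) (β : ℕ → Node k → Fin D) {m t : ℕ} (ht : t < m) (h : BInj β m)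
    (hd : ∀ i, i < m → i ≠ t → ∀ j a, c j ≠ β i a) :
    (ordBlk c hc).conj (phiN β m h) = (ordBlk c hc).conj (phi (β t) (h.inj ht)) := by
  rw [conj_phiN_low c hc β (m' := t + 1) (by omega) h (fun i hi hi' => hd i hi' (by omega))]
  have h' : BInj β (t + 1) := h.mono (by omega)
  have h1 : phiN β (t + 1) h' = phiN β t (h'.mono (by omega)) * phi (β t) (h'.inj (Nat.lt_succ_self t)) := phi_comm_phiN β (le_refl t) h'
  have h2 : (ordBlk c hc).conj (phiN β (t + 1) h') = (ordBlk c hc).conj (phi (β t) (h'.inj (Nat.lt_succ_self t)) * phiN β t (h'.mono (by omega))) := rfl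
  rw [h2, ← conj_conj, ordBlk_conj c hc (phiN_loc β t _)]
  rintro j ⟨i, hi, a, ha⟩
  exact hd i (by omega) (by omega) j a ha.symm

/-- the special coordinates are those of `c`, the helpers are outside -/
structure StarC {y : ℕ} (c : Fin y → Fin D) (β : ℕ → Node k → Fin D) (m : ℕ) : Prop where
  bi : BInj β m
  ym : y = m * k
  sp : ∀ i (hi : i < m) (j : Fin k), c ⟨i * k + j, by
    have h1 : (i + 1) * k ≤ m * k := Nat.mul_le_mul_right _ hi
    have := j.2
    rw [ym]
    nlinarith⟩ = β i (eu j)
  nu : ∀ i < m, ∀ a, ¬ IsU a → ∀ j, c j ≠ β i a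

/-- star numbering -/
noncomputable def starBlk {y : ℕ} (c : Fin y → Fin D) (hc : Function.Injective c) (β : ℕ → Node k → Fin D) (m : ℕ) (h : BInj β m) :
    Blk (Node D) y := (ordBlk c hc).conj (phiN β m h)

theorem StarC.ne {y : ℕ} {c : Fin y → Fin D} {β : ℕ → Node k → Fin D} {m : ℕ} (h : StarC c β m) (j : Fin y) (i : ℕ) (hi : i < m) (a : Node k)
    (hj : (j : ℕ) / k ≠ i) : c j ≠ β i a := by
  have hk : 0 < k := by
    rcases Nat.eq_zero_or_pos k with h0 | h0
    · exfalso
      have h1 := j.2
      have h2 := h.ym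
      rw [h0, mul_zero] at h2
      omega
    · exact h0
  have h1 : (j : ℕ) / k < m := by
    rw [Nat.div_lt_iff_lt_mul hk, ← h.ym]
    exact j.2
  intro hja
  have h2 := h.sp (j / k) h1 ⟨j % k, Nat.mod_lt _ hk⟩
  have h3 : (⟨(j : ℕ) / k * k + ((⟨j % k, Nat.mod_lt _ hk⟩ : Fin k) : ℕ), by
      simp only
      rw [Nat.div_add_mod']
      exact j.2⟩ : Fin y) = j := Fin.ext (by simp only; exact Nat.div_add_mod' _ _)
  have h4 : c j = β (j / k) (eu ⟨j % k, Nat.mod_lt _ hk⟩) := by
    rw [← h2]
    congr 1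
    exact h3.symm
  rw [h4] at hja
  exact hj (h.bi _ h1 _ hi _ _ hja).1

/-- the coordinates of the low blocks -/
theorem StarC.low {y : ℕ} {c : Fin y → Fin D} {β : ℕ → Node k → Fin D} {m m' : ℕ} (h : StarC c β m) (hm : m' ≤ m) (hy : 0 + m' * k ≤ y) :
    StarC (subC c 0 (m' * k) hy) β m' := by
  refine ⟨h.bi.mono hm, rfl, ?_, ?_⟩
  · intro i hi j
    rw [← h.sp i (by omega) j]
    show c _ = c _
    congr 1
    exact Fin.ext (by simp)
  · intro i hi a ha j
    exact h.nu i (by omega) a ha _

theorem starBlk_low {y : ℕ} {c : Fin y → Fin D} (hc : Function.Injective c) {β : ℕ → Node k → Fin D} {m m' : ℕ} (h : StarC c β m) (hm : m' ≤ m)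
    (hy : 0 + m' * k ≤ y) : (starBlk c hc β m h.bi).bits 0 (m' * k) hy =
      starBlk (subC c 0 (m' * k) hy) (subC_inj hc 0 (m' * k) hy) β m' (h.bi.mono hm) := by
  unfold starBlk
  rw [conj_bits, ordBlk_bits, conj_phiN_low _ _ β hm h.bi]
  intro i hi hi' j a
  refine h.ne _ i hi' a ?_
  have := j.2
  have hk : 0 < k := by
    rcases Nat.eq_zero_or_pos k with h0 | h0
    · subst h0
      simp at this
    · exact h0
  have h2 : (0 + (j : ℕ)) / k < m' := by
    rw [Nat.div_lt_iff_lt_mul hk]
    omega
  show (0 + (j : ℕ)) / k ≠ i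
  omega

theorem starBlk_digit {y : ℕ} {c : Fin y → Fin D} (hc : Function.Injective c) {β : ℕ → Node k → Fin D} {m t : ℕ} (h : StarC c β m) (ht : t < m)
    (hy : k * t + k ≤ y) {v u : Node D} (hvu : ((starBlk c hc β m h.bi).bits (k * t) k hy).cls v u) :
    ctr (β t) v = ctr (β t) u := by
  unfold starBlk at hvu
  rw [conj_bits, ordBlk_bits, conj_phiN_block _ _ β ht h.bi, conj_cls, ordBlk_cls] at hvu
  · have h1 := ctr_phi (h.bi.inj ht) (v := (phi (β t) (h.bi.inj ht)).symm v) (u := (phi (β t) (h.bi.inj ht)).symm u) ?_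
    · rwa [Equiv.apply_symm_apply, Equiv.apply_symm_apply] at h1
    · intro x hx
      refine hvu x ?_
      rintro ⟨j, rfl⟩
      refine hx j ?_
      rw [← h.sp t ht j]
      show c _ = c _
      congr 1
      exact Fin.ext (by simp only; ring)
  · intro i hi hit j a
    refine h.ne _ i hi a ?_
    have hj := j.2
    have hk : 0 < k := by omega
    have h2 : (k * t + (j : ℕ)) / k = t := by
      rw [Nat.mul_add_div hk, Nat.div_eq_of_lt hj, add_zero]
    show (k * t + (j : ℕ)) / k ≠ i
    rw [h2]
    exact fun h => hit h.symm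

/-- blocks exist -/
theorem exists_blocks {y m : ℕ} (hD : 0 < D) (c : Fin y → Fin D) (hc : Function.Injective c) (hy : y = m * k) (h : m * 2 ^ k ≤ D) :
    ∃ β : ℕ → Node k → Fin D, StarC c β m := by
  classical
  let I := Fin m × {a : Node k // ¬ IsU a}
  let J := {x : Fin D // x ∉ Set.range c}
  have hcard : Fintype.card I ≤ Fintype.card J := by
    have h1 : Fintype.card {a : Node k // IsU a} = k := by
      have : Fintype.card {a : Node k // IsU a} = Fintype.card (Fin k) := by
        refine Fintype.card_congr (Equiv.ofBijective (fun j : Fin k => (⟨eu j, ⟨j, rfl⟩⟩ : {a : Node k // IsU a})) ?_).symm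
        constructor
        · intro i j hij
          exact eu_inj (congrArg Subtype.val hij)
        · rintro ⟨a, j, rfl⟩
          exact ⟨j, rfl⟩
      rw [this, Fintype.card_fin]
    have h2 : Fintype.card {a : Node k // ¬ IsU a} = 2 ^ k - k := by
      rw [Fintype.card_subtype_compl, h1]
      simp [Node]
    have h3 : Fintype.card {x : Fin D // x ∈ Set.range c} = y := by
      have : Fintype.card {x : Fin D // x ∈ Set.range c} = Fintype.card (Fin y) :=
        (Fintype.card_congr (Equiv.ofInjective c hc)).symm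
      rw [this, Fintype.card_fin]
    have h4 : Fintype.card J = D - y := by
      show Fintype.card {x : Fin D // ¬ x ∈ Set.range c} = D - y
      rw [Fintype.card_subtype_compl, h3, Fintype.card_fin]
    show Fintype.card (Fin m × {a : Node k // ¬ IsU a}) ≤ Fintype.card J
    rw [Fintype.card_prod, h2, h4, Fintype.card_fin, Nat.mul_sub, hy]
    omega
  obtain ⟨f⟩ := Function.Embedding.nonempty_of_card_le hcard
  let x0 : Fin D := ⟨0, hD⟩
  have hlt : ∀ i, i < m → ∀ j : Fin k, i * k + (j : ℕ) < y := by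
    intro i hi j
    have h1 : (i + 1) * k ≤ m * k := Nat.mul_le_mul_right _ hi
    have := j.2
    rw [hy]
    nlinarith
  let β : ℕ → Node k → Fin D := fun i a => if hi : i < m then
      (if ha : IsU a then c ⟨i * k + (ha.choose : Fin k), hlt i hi _⟩ else (f (⟨i, hi⟩, ⟨a, ha⟩)).1) else x0
  have hU : ∀ i (hi : i < m) (j : Fin k), β i (eu j) = c ⟨i * k + j, hlt i hi j⟩ := by
    intro i hi j
    have ha : IsU (eu j) := ⟨j, rfl⟩
    have h1 : ha.choose = j := (eu_inj ha.choose_spec).symm
    show (if hi : i < m then (if ha : IsU (eu j) then c ⟨i * k + (ha.choose : Fin k), hlt i hi _⟩ else (f (⟨i, hi⟩, ⟨eu j, ha⟩)).1) else x0) = _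
    rw [dif_pos hi, dif_pos ha]
    congr 1
    exact Fin.ext (by simp only; rw [h1])
  have hN : ∀ i (hi : i < m) (a : Node k) (ha : ¬ IsU a), β i a = (f (⟨i, hi⟩, ⟨a, ha⟩)).1 := by
    intro i hi a ha
    show (if hi : i < m then (if ha : IsU a then c ⟨i * k + (ha.choose : Fin k), hlt i hi _⟩ else (f (⟨i, hi⟩, ⟨a, ha⟩)).1) else x0) = _
    rw [dif_pos hi, dif_neg ha]
  have hNr : ∀ i (hi : i < m) (a : Node k) (ha : ¬ IsU a) (j : Fin y), c j ≠ β i a := by
    intro i hi a ha j h'
    rw [hN i hi a ha] at h'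
    exact (f (⟨i, hi⟩, ⟨a, ha⟩)).2 ⟨j, h'⟩
  refine ⟨β, ?_, hy, ?_, ?_⟩
  · intro i hi j hj a b hab
    by_cases ha : IsU a
    · obtain ⟨p, rfl⟩ := ha
      by_cases hb : IsU b
      · obtain ⟨q, rfl⟩ := hb
        rw [hU i hi, hU j hj] at hab
        have h1 := hc hab
        rw [Fin.mk.injEq] at h1
        have hp := p.2
        have hq := q.2
        have hk : 0 < k := by omega
        have h2 : (i * k + (p : ℕ)) / k = i := by
          rw [mul_comm, Nat.mul_add_div hk, Nat.div_eq_of_lt hp, add_zero]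
        have h3 : (j * k + (q : ℕ)) / k = j := by
          rw [mul_comm, Nat.mul_add_div hk, Nat.div_eq_of_lt hq, add_zero]
        have h4 : i = j := by rw [← h2, ← h3, h1]
        subst h4
        have h5 : p = q := Fin.ext (by omega)
        subst h5
        exact ⟨rfl, rfl⟩
      · rw [hU i hi] at hab
        exact absurd hab (hNr j hj b hb _)
    · by_cases hb : IsU b
      · obtain ⟨q, rfl⟩ := hb
        rw [hU j hj] at hab
        exact absurd hab.symm (hNr i hi a ha _)
      · rw [hN i hi a ha, hN j hj b hb] at hab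
        have h1 := f.injective (Subtype.ext hab)
        rw [Prod.mk.injEq, Fin.mk.injEq, Subtype.mk.injEq] at h1
        exact h1
  · intro i hi j
    exact (hU i hi j).symm
  · intro i hi a ha j
    exact hNr i hi a ha j

end Pool.Agent.H22.HC
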