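import Mathlib
import Pool.Agent.H22.HC.StarN
import Pool.Agent.H31.HS.Lin

/-!
# Rounds in coordinate numberings and in star numberings

`rounds_one`: classes `{v, flp x v}`, one link step.  `rounds_star`: classes with a common centre `flp (x v) v`, two link steps: every node sends its
item to all neighbours, the centre determines the new items and sends them back.  `lines_ord`, `lines_star`.
-/

set_option autoImplicit false

namespace Pool.Agent.H22.HC

open Pool.Agent.H31.HS

variable {D k : ℕ} {Ω R : Type}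

/-- one step: after it the neighbour has the item too -/
theorem LinkStep.all {M : Mach (Node D) Ω R} {Lam s : ℕ} (h : LinkStep M Lam s) (P : M.Pl) {X : Type} (a : Node D → Ω → X × Option R)
    (hs : Sz Lam (fun v w => (a v w).1)) (ha : ∀ v, M.Has P v (a v)) :
    M.Do s P (fun P' => (∀ v i, M.Has P' (flp i v) (a v)) ∧ ∀ v, M.Has P' v (a v)) := by
  obtain ⟨P', h1, h2, h3⟩ := h P X (fun v _ => a v) (hs.of_range (fun p w => ⟨p.1, w, rfl⟩)) (fun v _ => ha v)
  exact ⟨P', h1, h2, h3, fun v => (ha v).mono h1⟩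

theorem rounds_one {M : Mach (Node D) Ω R} {Lam s : ℕ} (h : LinkStep M Lam s) (x : Fin D) {cls : Node D → Node D → Prop}
    (hc : ∀ v u, cls v u → u = v ∨ u = flp x v) : M.Rounds Lam cls s := by
  intro P X Y a b hX _ ha hb
  refine (LinkStep.all h P a hX ha).mono (le_refl _) ?_
  rintro P' _ ⟨h1, h2⟩ v
  refine Mach.Has.det (a := fun u : {u // cls v u} => a u) ?_ (hb v)
  rintro ⟨u, hu⟩
  rcases hc v u hu with rfl | rfl
  · exact h2 _
  · have := h1 (flp x v) x
    rwa [flp_flp] at this

theorem rounds_star {M : Mach (Node D) Ω R} {Lam s : ℕ} (h : LinkStep M Lam s) (x : Node D → Fin D) {cls : Node D → Node D → Prop}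
    (hc : ∀ v u, cls v u → flp (x v) v = flp (x u) u) : M.Rounds Lam cls (2 * s) := by
  classical
  intro P X Y a b hX hY ha hb
  have h0 := LinkStep.all h P a hX ha
  rw [two_mul]
  refine h0.bind ?_
  rintro P1 he ⟨h1, _⟩
  have hz : ∀ v, M.Has P1 (flp (x v) v) (b v) := by
    intro v
    refine Mach.Has.det (a := fun u : {u // cls v u} => a u) ?_ (hb v)
    rintro ⟨u, hu⟩
    have := h1 u (x u)
    rw [hc v u hu]
    exact this
  rcases isEmpty_or_nonempty Ω with hΩ | ⟨⟨w0⟩⟩
  · refine Mach.Do.pure fun v => ?_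
    exact ⟨fun w => (hΩ.false w).elim, fun w => (hΩ.false w).elim⟩
  · let v0 : Node D := fun _ => false
    let dm : Ω → Y × Option R := fun _ => ((b v0 w0).1, none)
    have hdm : ∀ v, M.Has P1 v dm := fun v => (Mach.Knows.const P1 v (b v0 w0).1).has
    refine (h P1 Y (fun z i => if flp (x (flp i z)) (flp i z) = z then b (flp i z) else dm) ?_ ?_).mono (le_refl _) ?_
    · refine hY.of_range ?_
      rintro ⟨z, i⟩ w
      simp only
      split_ifs
      · exact ⟨flp i z, w, rfl⟩
      · exact ⟨v0, w0, rfl⟩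
    · intro z i
      split_ifs with hzi
      · have := hz (flp i z)
        rwa [hzi] at this
      · exact hdm z
    · intro P2 _ h2 v
      have h3 := h2 (flp (x v) v) (x v)
      rw [flp_flp, if_pos rfl] at h3
      exact h3

theorem lines_ord {M : Mach (Node D) Ω R} {Lam s y : ℕ} (h : LinkStep M Lam s) (c : Fin y → Fin D) (hc : Function.Injective c) :
    Lines M Lam (ordBlk c hc) 1 y s := by
  refine ⟨(one_mul y).symm, le_refl _, ?_⟩
  intro t hy ht
  rw [ordBlk_bits]
  refine rounds_one h (c ⟨t, ht⟩) ?_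
  intro v u hvu
  rw [ordBlk_cls] at hvu
  have h1 : ∀ z, z ≠ c ⟨t, ht⟩ → v z = u z := by
    intro z hz
    refine hvu z ?_
    rintro ⟨j, rfl⟩
    refine hz ?_
    show c _ = c _
    congr 1
    have := j.2
    exact Fin.ext (by simp only; omega)
  by_cases h2 : u (c ⟨t, ht⟩) = v (c ⟨t, ht⟩)
  · left
    funext z
    by_cases hz : z = c ⟨t, ht⟩
    · rw [hz, h2]
    · exact (h1 z hz).symm
  · right
    funext z
    by_cases hz : z = c ⟨t, ht⟩
    · rw [hz, flp_same]
      rcases h3 : v (c ⟨t, ht⟩) with _ | _ <;> rcases h4 : u (c ⟨t, ht⟩) with _ | _ <;> rw [h3, h4] at h2 <;> simp at h2 ⊢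
    · rw [flp_ne hz]
      exact (h1 z hz).symm

theorem lines_star {M : Mach (Node D) Ω R} {Lam s y : ℕ} (h : LinkStep M Lam s) {c : Fin y → Fin D} (hc : Function.Injective c)
    {β : ℕ → Node k → Fin D} {m : ℕ} (hS : StarC c β m) (hk : 1 ≤ k) : Lines M Lam (starBlk c hc β m hS.bi) k m (2 * s) := by
  refine ⟨hS.ym.trans (mul_comm _ _), hk, ?_⟩
  intro t hy ht
  exact rounds_star h (fun v => β t (syn (β t) v)) (fun v u hvu => starBlk_digit hc hS ht hy hvu)

end Pool.Agent.H22.HC
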