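import Mathlib
import Pool.Agent.H22.HC.Lns
import Pool.Agent.H31.HS.Srt

/-!
# Moving the items along a permutation of the nodes, conversion of numberings

`Rt M Lam φ c`: in `c` steps the item of every `v` (labels with at most `Lam` values) is at `φ v` too.
`rt_phiN`: the permutation of `m` star blocks of size `k` and its inverse cost `m (k + 1)` link steps.
`CanS.of_conj`, `CanS.to_conj`, `CanM.of_conj`, `CanM.to_conj`: sorting in `B.conj φ` and in `B`.
-/

set_option autoImplicit false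

namespace Pool.Agent.H22.HC

open Pool.Agent.H31.HS

/-- in `c` steps the item of every `v` is at `φ v` -/
def Rt {V Ω R : Type} (M : Mach V Ω R) (Lam : ℕ) (φ : Equiv.Perm V) (c : ℕ) : Prop :=
  ∀ (P : M.Pl) (X : Type) (a : V → Ω → X × Option R), Sz Lam (fun v w => (a v w).1) → (∀ v, M.Has P v (a v)) →
    M.Do c P (fun P' => ∀ v, M.Has P' (φ v) (a v))

theorem Rt.one {V Ω R : Type} (M : Mach V Ω R) (Lam : ℕ) : Rt M Lam 1 0 := fun _ _ _ _ ha => Mach.Do.pure ha

theorem Rt.mul {V Ω R : Type} {M : Mach V Ω R} {Lam c c' : ℕ} {φ ψ : Equiv.Perm V} (hφ : Rt M Lam φ c) (hψ : Rt M Lam ψ c') :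
    Rt M Lam (ψ * φ) (c + c') := by
  intro P X a hX ha
  refine (hφ P X a hX ha).bind ?_
  intro P1 _ h1
  refine (hψ P1 X (fun u => a (φ.symm u)) (hX.of_range (fun u w => ⟨φ.symm u, w, rfl⟩)) ?_).mono (le_refl _) ?_
  · intro u
    have := h1 (φ.symm u)
    rwa [Equiv.apply_symm_apply] at this
  · intro P2 _ h2 v
    have := h2 (φ v)
    rw [Equiv.symm_apply_apply] at this
    exact this

theorem Rt.mono {V Ω R : Type} {M : Mach V Ω R} {Lam Lam' c c' : ℕ} {φ : Equiv.Perm V} (h : Rt M Lam φ c) (hc : c ≤ c') (hL : Lam' ≤ Lam) :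
    Rt M Lam' φ c' := by
  intro P X a hX ha
  exact (h P X a (hX.mono hL) ha).mono hc (fun _ _ h => h)

/-- `φ` and its inverse -/
def Rt2 {V Ω R : Type} (M : Mach V Ω R) (Lam : ℕ) (φ : Equiv.Perm V) (c : ℕ) : Prop := Rt M Lam φ c ∧ Rt M Lam φ.symm c

theorem Rt2.one {V Ω R : Type} (M : Mach V Ω R) (Lam : ℕ) : Rt2 M Lam 1 0 := ⟨Rt.one M Lam, Rt.one M Lam⟩

theorem Rt2.mul {V Ω R : Type} {M : Mach V Ω R} {Lam c c' : ℕ} {φ ψ : Equiv.Perm V} (hφ : Rt2 M Lam φ c) (hψ : Rt2 M Lam ψ c') :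
    Rt2 M Lam (ψ * φ) (c + c') := by
  refine ⟨hφ.1.mul hψ.1, ?_⟩
  rw [add_comm c c']
  have h := hψ.2.mul hφ.2
  have h1 : φ.symm * ψ.symm = (ψ * φ).symm := rfl
  rwa [h1] at h

variable {D k : ℕ} {Ω R : Type}

/-- conditional flips -/
theorem rt_flip {M : Mach (Node D) Ω R} {Lam s : ℕ} (h : LinkStep M Lam s) (φ : Equiv.Perm (Node D))
    (hφ : ∀ v, φ v = v ∨ ∃ i, φ v = flp i v) : Rt2 M Lam φ s := by
  have key : ∀ φ : Equiv.Perm (Node D), (∀ v, φ v = v ∨ ∃ i, φ v = flp i v) → Rt M Lam φ s := by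
    intro φ hφ P X a hX ha
    refine (LinkStep.all h P a hX ha).mono (le_refl _) ?_
    rintro P' _ ⟨h1, h2⟩ v
    rcases hφ v with h3 | ⟨i, h3⟩
    · rw [h3]
      exact h2 v
    · rw [h3]
      exact h1 v i
  refine ⟨key φ hφ, key φ.symm ?_⟩
  intro v
  rcases hφ (φ.symm v) with h3 | ⟨i, h3⟩
  · left
    rw [Equiv.apply_symm_apply] at h3
    exact h3.symm
  · right
    refine ⟨i, ?_⟩
    rw [Equiv.apply_symm_apply] at h3
    have := congrArg (flp i) h3
    rw [flp_flp] at this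
    exact this.symm

theorem rt_phi {M : Mach (Node D) Ω R} {Lam s : ℕ} (h : LinkStep M Lam s) (β : Node k → Fin D) (hβ : Function.Injective β) :
    Rt2 M Lam (phi β hβ) (s + k * s) := by
  have hA : Rt2 M Lam (phiA β hβ) s := by
    refine rt_flip h _ fun v => ?_
    show fA β v = v ∨ ∃ i, fA β v = flp i v
    unfold fA
    split_ifs
    · exact Or.inl rfl
    · exact Or.inr ⟨_, rfl⟩
  have hB : ∀ n, n ≤ k → Rt2 M Lam (phiBn β hβ n) (n * s) := by
    intro n
    induction n with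
    | zero =>
      intro _
      rw [zero_mul]
      exact Rt2.one M Lam
    | succ n ih =>
      intro hn
      have hn' : n < k := hn
      have h1 : phiBn β hβ (n + 1) = phiC β hβ ⟨n, hn'⟩ * phiBn β hβ n := by
        show (if h : n < k then phiC β hβ ⟨n, h⟩ else 1) * phiBn β hβ n = _
        rw [dif_pos hn']
      rw [h1, Nat.succ_mul]
      refine (ih (by omega)).mul ?_
      refine rt_flip h _ fun v => ?_
      show fC β _ v = v ∨ ∃ i, fC β _ v = flp i v
      unfold fC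
      split_ifs
      · exact Or.inr ⟨_, rfl⟩
      · exact Or.inl rfl
  exact hA.mul (hB k (le_refl k))

theorem rt_phiN {M : Mach (Node D) Ω R} {Lam s : ℕ} (h : LinkStep M Lam s) (β : ℕ → Node k → Fin D) (m : ℕ) (hβ : BInj β m) :
    Rt2 M Lam (phiN β m hβ) (m * (k + 1) * s) := by
  induction m with
  | zero =>
    rw [zero_mul, zero_mul]
    exact Rt2.one M Lam
  | succ m ih =>
    have h1 := (ih (hβ.mono (Nat.le_succ m))).mul (rt_phi h (β m) (hβ.inj (Nat.lt_succ_self m)))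
    have h2 : (m + 1) * (k + 1) * s = m * (k + 1) * s + (s + k * s) := by ring
    rw [h2]
    exact h1

/-! ### Sorting in a transported numbering -/

theorem conj_symm_cls {V : Type} {m : ℕ} (B : Blk V m) (φ : Equiv.Perm V) (v u : V) : (B.conj φ).cls (φ v) (φ u) ↔ B.cls v u := by
  rw [conj_cls, Equiv.symm_apply_apply, Equiv.symm_apply_apply]

theorem conj_pos {V : Type} {m : ℕ} (B : Blk V m) (φ : Equiv.Perm V) (v : V) : (B.conj φ).pos (φ v) = B.pos v := by
  show B.pos (φ.symm (φ v)) = B.pos v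
  rw [Equiv.symm_apply_apply]

theorem dist_conj {V R X : Type} {m : ℕ} {B : Blk V m} {φ : Equiv.Perm V} {key : X × Option R → ℕ} {a : V → Option X × Option R}
    (h : Dist B key a) : Dist (B.conj φ) key (fun v => a (φ.symm v)) := by
  intro v u hvu hv hu hk
  have := h (φ.symm v) (φ.symm u) ((conj_cls B φ v u).1 hvu) hv hu hk
  exact φ.symm.injective this

theorem runSorted_conj {V R X : Type} {m i : ℕ} {B : Blk V m} {φ : Equiv.Perm V} {key : X × Option R → ℕ} {a : V → Option X × Option R}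
    (h : RunSorted B key i a) : RunSorted (B.conj φ) key i (fun v => a (φ.symm v)) := by
  intro v u hvu hi hp hu
  exact h (φ.symm v) (φ.symm u) ((conj_cls B φ v u).1 hvu) hi hp hu

theorem sortSpec_conj {V R X : Type} {m : ℕ} {B : Blk V m} {φ : Equiv.Perm V} {key : X × Option R → ℕ} {a b : V → Option X × Option R}
    (h : SortSpec (B.conj φ) key (fun v => a (φ.symm v)) b) : SortSpec B key a (fun v => b (φ v)) := by
  obtain ⟨h1, h2, h3, h4⟩ := h
  refine ⟨?_, ?_, ?_, ?_⟩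
  · intro v hv
    obtain ⟨u, hu, hb⟩ := h1 (φ v) hv
    refine ⟨φ.symm u, ?_, hb⟩
    rw [conj_cls, Equiv.symm_apply_apply] at hu
    exact hu
  · intro u hu
    have hu' : (a (φ.symm (φ u))).1.isSome := by
      rw [Equiv.symm_apply_apply]
      exact hu
    obtain ⟨v, hv, hb⟩ := h2 (φ u) hu'
    refine ⟨φ.symm v, ?_, ?_⟩
    · rw [conj_cls, Equiv.symm_apply_apply] at hv
      exact hv
    · show b (φ (φ.symm v)) = a u
      rw [Equiv.apply_symm_apply, hb]
      show a (φ.symm (φ u)) = a u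
      rw [Equiv.symm_apply_apply]
  · intro v hv
    exact h3 (φ v) hv
  · intro v u hvu hi hp hu
    have := h4 (φ v) (φ u) ((conj_symm_cls B φ v u).2 hvu)
    rw [conj_pos, conj_pos] at this
    exact this hi hp hu

theorem occ_conj {V : Type} {m : ℕ} (B : Blk V m) (φ : Equiv.Perm V) (o : V → Bool) (v : V) (i : ℕ) :
    occ (B.conj φ) (fun u => o (φ.symm u)) v i = occ B o (φ.symm v) i := by
  unfold occ
  congr 1
  refine Finset.filter_congr fun t _ => ?_
  show o (φ.symm (φ (B.nd (φ.symm v) _))) = true ↔ _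
  rw [Equiv.symm_apply_apply]
  rfl

theorem dens_conj {V : Type} {m u Q e : ℕ} {B : Blk V m} {φ : Equiv.Perm V} {o : V → Bool} (h : Dens B u Q e o) :
    Dens (B.conj φ) u Q e (fun v => o (φ.symm v)) := by
  intro v i hi hi'
  rw [occ_conj]
  exact h (φ.symm v) i hi hi'

theorem revPat_conj {V : Type} {q c1 : ℕ} {B : Blk V q} {φ : Equiv.Perm V} {o : V → Bool} (h : RevPat B c1 o) :
    RevPat (B.conj φ) c1 (fun v => o (φ.symm v)) := by
  intro v
  obtain ⟨N, hN, h1⟩ := h (φ.symm v)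
  refine ⟨N, hN, fun t ht => ?_⟩
  rw [← h1 t ht]
  show o (φ.symm (φ (B.nd (φ.symm v) t))) = true ↔ _
  rw [Equiv.symm_apply_apply]

/-- arrays with patterns `D'` can be sorted in `B` if those with patterns `D` can be sorted in `B.conj φ` -/
theorem CanS.of_conj {V : Type} {M : Mach V Ω R} {m S Lam c c1 c2 : ℕ} {B : Blk V m} {φ : Equiv.Perm V} {Dp D' : (V → Bool) → Prop}
    (h : CanS M S (B.conj φ) Dp c) (hφ : Rt M Lam φ c1) (hφ' : Rt M Lam φ.symm c2) (hS : S + 1 ≤ Lam)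
    (hD : ∀ o, D' o → Dp (fun v => o (φ.symm v))) : CanS M S B D' (c1 + c + c2) := by
  intro X key P a hkey hSm ha hdist hpat
  rw [add_assoc]
  refine (hφ P _ a (hSm.sz.mono hS) ha).bind ?_
  intro P1 _ h1
  have hSm' : Sm S (fun v => a (φ.symm v)) := hSm.of_range (fun v w => Or.inr ⟨φ.symm v, w, rfl⟩)
  refine (h X key P1 (fun v => a (φ.symm v)) hkey hSm' ?_ (fun w => dist_conj (hdist w)) (fun w => hD _ (hpat w))).bind ?_
  · intro v
    have := h1 (φ.symm v)
    rwa [Equiv.apply_symm_apply] at this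
  · rintro P2 _ ⟨b, hb, hb'⟩
    have hSm2 : Sm S b := by
      refine hSm.of_range (fun v w => ?_)
      rcases h3 : (b v w).1 with _ | x
      · exact Or.inl rfl
      · obtain ⟨u, _, hu⟩ := (hb' w).1 v (by show (b v w).1.isSome = true; rw [h3]; rfl)
        exact Or.inr ⟨_, w, hu⟩
    refine (hφ' P2 _ b (hSm2.sz.mono hS) hb).mono (le_refl _) ?_
    intro P3 _ h3
    refine ⟨fun v => b (φ v), ?_, fun w => sortSpec_conj (a := fun v => a v w) (b := fun v => b v w) (hb' w)⟩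
    intro v
    have := h3 (φ v)
    rwa [Equiv.symm_apply_apply] at this

theorem CanM.of_conj {V : Type} {M : Mach V Ω R} {m S Lam u Q e c c1 c2 : ℕ} {B : Blk V m} {φ : Equiv.Perm V}
    (h : CanM M S (B.conj φ) u Q e c) (hφ : Rt M Lam φ c1) (hφ' : Rt M Lam φ.symm c2) (hS : S + 1 ≤ Lam) :
    CanM M S B u Q e (c1 + c + c2) := by
  intro X key P a hkey hSm ha hdist hrun hpat
  rw [add_assoc]
  refine (hφ P _ a (hSm.sz.mono hS) ha).bind ?_
  intro P1 _ h1
  have hSm' : Sm S (fun v => a (φ.symm v)) := hSm.of_range (fun v w => Or.inr ⟨φ.symm v, w, rfl⟩)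
  refine (h X key P1 (fun v => a (φ.symm v)) hkey hSm' ?_ (fun w => dist_conj (hdist w)) (fun w => runSorted_conj (hrun w))
    (fun w => dens_conj (hpat w))).bind ?_
  · intro v
    have := h1 (φ.symm v)
    rwa [Equiv.apply_symm_apply] at this
  · rintro P2 _ ⟨b, hb, hb'⟩
    have hSm2 : Sm S b := by
      refine hSm.of_range (fun v w => ?_)
      rcases h3 : (b v w).1 with _ | x
      · exact Or.inl rfl
      · obtain ⟨u, _, hu⟩ := (hb' w).1 v (by show (b v w).1.isSome = true; rw [h3]; rfl)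
        exact Or.inr ⟨_, w, hu⟩
    refine (hφ' P2 _ b (hSm2.sz.mono hS) hb).mono (le_refl _) ?_
    intro P3 _ h3
    refine ⟨fun v => b (φ v), ?_, fun w => sortSpec_conj (a := fun v => a v w) (b := fun v => b v w) (hb' w)⟩
    intro v
    have := h3 (φ v)
    rwa [Equiv.symm_apply_apply] at this

theorem CanS.to_conj {V : Type} {M : Mach V Ω R} {m S Lam c c1 c2 : ℕ} {B : Blk V m} {φ : Equiv.Perm V} {Dp D' : (V → Bool) → Prop}
    (h : CanS M S B Dp c) (hφ : Rt M Lam φ c1) (hφ' : Rt M Lam φ.symm c2) (hS : S + 1 ≤ Lam)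
    (hD : ∀ o, D' o → Dp (fun v => o (φ v))) : CanS M S (B.conj φ) D' (c2 + c + c1) := by
  refine CanS.of_conj (φ := φ.symm) (Dp := Dp) ?_ hφ' hφ hS hD
  rw [conj_conj_symm]
  exact h

theorem CanM.to_conj {V : Type} {M : Mach V Ω R} {m S Lam u Q e c c1 c2 : ℕ} {B : Blk V m} {φ : Equiv.Perm V}
    (h : CanM M S B u Q e c) (hφ : Rt M Lam φ c1) (hφ' : Rt M Lam φ.symm c2) (hS : S + 1 ≤ Lam) :
    CanM M S (B.conj φ) u Q e (c2 + c + c1) := by
  refine CanM.of_conj (φ := φ.symm) ?_ hφ' hφ hS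
  rw [conj_conj_symm]
  exact h

end Pool.Agent.H22.HC
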