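import Mathlib
import Pool.Agent.H22.HC.Rt

/-!
# Change of the regime

Sorting from runs in one star numbering of `y` coordinates gives sorting from runs in the coordinate numbering and in another star numbering, the additional
cost is at most `4 y` link steps for each of the two conversions.
-/

set_option autoImplicit false

namespace Pool.Agent.H22.HC

open Pool.Agent.H31.HS

variable {D y : ℕ} {Ω R : Type}

theorem CanM.cost_mono {V : Type} {M : Mach V Ω R} {m S u Q e c c' : ℕ} {B : Blk V m} (h : CanM M S B u Q e c) (hc : c ≤ c') :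
    CanM M S B u Q e c' := by
  intro X key P a hkey hSm ha hdist hrun hpat
  exact (h X key P a hkey hSm ha hdist hrun hpat).mono hc (fun _ _ h => h)

theorem CanS.cost_mono {V : Type} {M : Mach V Ω R} {m S c c' : ℕ} {B : Blk V m} {Dp : (V → Bool) → Prop} (h : CanS M S B Dp c) (hc : c ≤ c') :
    CanS M S B Dp c' := by
  intro X key P a hkey hSm ha hdist hpat
  exact (h X key P a hkey hSm ha hdist hpat).mono hc (fun _ _ h => h)

theorem conv_cost {y m k s : ℕ} (hk : 1 ≤ k) (hy : y = m * k) : m * (k + 1) * s ≤ 2 * y * s := by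
  refine Nat.mul_le_mul_right _ ?_
  rw [hy]
  nlinarith

/-- from a star numbering to the coordinate numbering -/
theorem canM_ord_of_star {M : Mach (Node D) Ω R} {Lam s S u Q e cc k m : ℕ} (hM : LinkStep M Lam s) (hS1 : S + 1 ≤ Lam) {c : Fin y → Fin D}
    (hc : Function.Injective c) {β : ℕ → Node k → Fin D} (hβ : BInj β m) (hk : 1 ≤ k) (hy : y = m * k)
    (h : CanM M S (starBlk c hc β m hβ) u Q e cc) : CanM M S (ordBlk c hc) u Q e (cc + 4 * y * s) := by
  have h1 := rt_phiN hM β m hβ
  refine CanM.cost_mono (CanM.of_conj h h1.1 h1.2 hS1) ?_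
  have := conv_cost (s := s) hk hy
  linarith

/-- from the coordinate numbering to a star numbering -/
theorem canM_star_of_ord {M : Mach (Node D) Ω R} {Lam s S u Q e cc k m : ℕ} (hM : LinkStep M Lam s) (hS1 : S + 1 ≤ Lam) {c : Fin y → Fin D}
    (hc : Function.Injective c) {β : ℕ → Node k → Fin D} (hβ : BInj β m) (hk : 1 ≤ k) (hy : y = m * k)
    (h : CanM M S (ordBlk c hc) u Q e cc) : CanM M S (starBlk c hc β m hβ) u Q e (cc + 4 * y * s) := by
  have h1 := rt_phiN hM β m hβ
  refine CanM.cost_mono (CanM.to_conj h h1.1 h1.2 hS1) ?_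
  have := conv_cost (s := s) hk hy
  linarith

/-- from one star numbering to another -/
theorem canM_star_of_star {M : Mach (Node D) Ω R} {Lam s S u Q e cc k m k' m' : ℕ} (hM : LinkStep M Lam s) (hS1 : S + 1 ≤ Lam) {c : Fin y → Fin D}
    (hc : Function.Injective c) {β : ℕ → Node k → Fin D} (hβ : BInj β m) (hk : 1 ≤ k) (hy : y = m * k)
    {β' : ℕ → Node k' → Fin D} (hβ' : BInj β' m') (hk' : 1 ≤ k') (hy' : y = m' * k')
    (h : CanM M S (starBlk c hc β' m' hβ') u Q e cc) : CanM M S (starBlk c hc β m hβ) u Q e (cc + 8 * y * s) := by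
  refine CanM.cost_mono (canM_star_of_ord hM hS1 hc hβ hk hy (canM_ord_of_star hM hS1 hc hβ' hk' hy' h)) ?_
  linarith

end Pool.Agent.H22.HC
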