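import Mathlib
import Pool.Agent.H22.HC.Rt

/-!
# Sorting planes of `2 Q` bits in a coordinate numbering

By the star view of size `Q / 8` (16 blocks) and columnsort with `N = 64` quarter digits.
-/

set_option autoImplicit false

namespace Pool.Agent.H22.HC

open Pool.Agent.H31.HS

/-- columnsort (statement): the low `N` quarter digits can be sorted in `c N` rounds -/
def ColS (c : ℕ → ℕ) : Prop := ∀ (V Ω R : Type) (m : ℕ) (M : Mach V Ω R) (S W Lam k n r0 N : ℕ) (B : Blk V m), 4 ∣ k → Lines M Lam B k n r0 →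
  2 ^ m < W → S * W ^ 3 ≤ Lam → ∀ h : 0 + N * (k / 4) ≤ m, CanS M S (B.bits 0 (N * (k / 4)) h) (fun _ => True) (c N * r0)

theorem bits_full {V : Type} {m l : ℕ} (B : Blk V m) (h : 0 + l ≤ m) (hl : l = m) : B.bits 0 l h = hl ▸ B := by
  subst hl
  refine Blk.ext' ?_ ?_
  · intro v
    show B.pos v / 2 ^ 0 % 2 ^ l = B.pos v
    rw [pow_zero, Nat.div_one, Nat.mod_eq_of_lt (B.pos_lt v)]
  · intro v u hvu
    have h1 : B.nd v (Blk.rep 0 l (B.pos v) ((B.pos u / 2 ^ 0 % 2 ^ l) % 2 ^ l)) = u := hvu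
    have h2 : Blk.rep 0 l (B.pos v) ((B.pos u / 2 ^ 0 % 2 ^ l) % 2 ^ l) = B.pos u := by
      unfold Blk.rep
      have h3 := B.pos_lt u
      have h4 := B.pos_lt v
      simp [Nat.mod_eq_of_lt h3, Nat.div_eq_of_lt h4, Nat.mod_one]
    rw [h2] at h1
    exact h1

theorem planes_ord {c : ℕ → ℕ} (hcs : ColS c) {D : ℕ} {Ω R : Type} {M : Mach (Node D) Ω R} {Lam s S W Q : ℕ} (hM : LinkStep M Lam s)
    (hQ : 32 ∣ Q) (hQ0 : 0 < Q) (hD : 16 * 2 ^ (Q / 8) ≤ D) (hW : 2 ^ (2 * Q) < W) (hS : S * W ^ 3 ≤ Lam) (hS1 : S + 1 ≤ Lam)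
    (c' : Fin (2 * Q) → Fin D) (hc' : Function.Injective c') :
    CanS M S (ordBlk c' hc') (fun _ => True) ((36 + 2 * c 64) * Q * s) := by
  obtain ⟨q, rfl⟩ := hQ
  have hq : 32 * q / 8 = 4 * q := by omega
  rw [hq] at hD
  have hD0 : 0 < D := by
    have : 0 < 2 ^ (4 * q) := by positivity
    omega
  obtain ⟨β, hβ⟩ := exists_blocks (k := 4 * q) (m := 16) hD0 c' hc' (by ring) hD
  have hL := lines_star hM hc' hβ (by omega)
  have h64 : 0 + 64 * (4 * q / 4) ≤ 2 * (32 * q) := by omega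
  have h1 := hcs (Node D) Ω R (2 * (32 * q)) M S W Lam (4 * q) 16 (2 * s) 64 (starBlk c' hc' β 16 hβ.bi) (Dvd.intro _ rfl) hL hW hS h64
  have h2 : 64 * (4 * q / 4) = 2 * (32 * q) := by omega
  have h3 : CanS M S (starBlk c' hc' β 16 hβ.bi) (fun _ => True) (c 64 * (2 * s)) := by
    have h4 : ∀ (l : ℕ) (hl : 0 + l ≤ 2 * (32 * q)), l = 2 * (32 * q) →
        CanS M S ((starBlk c' hc' β 16 hβ.bi).bits 0 l hl) (fun _ => True) (c 64 * (2 * s)) →
        CanS M S (starBlk c' hc' β 16 hβ.bi) (fun _ => True) (c 64 * (2 * s)) := by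
      intro l hl hl' h
      have h5 := bits_full (starBlk c' hc' β 16 hβ.bi) hl hl'
      subst hl'
      rw [h5] at h
      exact h
    exact h4 _ h64 h2 h1
  have h5 := rt_phiN hM β 16 hβ.bi
  have h6 : CanS M S (ordBlk c' hc') (fun _ => True) (16 * (4 * q + 1) * s + c 64 * (2 * s) + 16 * (4 * q + 1) * s) :=
    CanS.of_conj h3 h5.1 h5.2 hS1 (fun _ _ => trivial)
  intro X key P a hkey hSm ha hdist hpat
  refine (h6 X key P a hkey hSm ha hdist hpat).mono ?_ (fun _ _ h => h)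
  have hq1 : 1 ≤ q := by omega
  have h7 : 16 * (4 * q + 1) * s + c 64 * (2 * s) + 16 * (4 * q + 1) * s = (128 * q + 32 + 2 * c 64) * s := by ring
  rw [h7]
  refine Nat.mul_le_mul_right _ ?_
  have h8 : 128 * q + 32 ≤ 36 * (32 * q) := by omega
  have h9 : 2 * c 64 ≤ 2 * c 64 * (32 * q) := Nat.le_mul_of_pos_right _ (by omega)
  calc 128 * q + 32 + 2 * c 64 ≤ 36 * (32 * q) + 2 * c 64 * (32 * q) := by omega
    _ = (36 + 2 * c 64) * (32 * q) := by ring

end Pool.Agent.H22.HC
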