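import Mathlib

/-!
# The numerical lemma (cost of the recursion)

`T y u` is the cost of sorting `2 ^ y` places with sorted runs of `2 ^ (y - u)` places. Rule 1 (`y < 6 u`): `T y u ≤ sp y + T (y - w) (u - w) + T y w`,
`y / 24 ≤ w ≤ y / 12`. Rule 2 (`6 u ≤ y`): `T y u ≤ sp y + T y' s`, `2 y / 3 ≤ y' ≤ 7 y / 8`, `s ≤ u + 2 Q`. If `sp y ≤ y h (log y)` then
`T y y ≤ 2000000 y ∑ h j` (sum over the dyadic scales between `Y0 Q` and `y`).
-/

set_option autoImplicit false

namespace Pool.Agent.H22.HC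

/-- smoothing of `h` over the scales `a, ..., b` -/
noncomputable def smo (h : ℕ → ℝ) (a b i : ℕ) : ℝ := ∑ j ∈ Finset.Icc a b, h j * (15 / 16 : ℝ) ^ ((i - j) + (j - i))

theorem ht_nonneg {h : ℕ → ℝ} (hh : ∀ j, 0 ≤ h j) (a b i : ℕ) : 0 ≤ smo h a b i :=
  Finset.sum_nonneg fun j _ => mul_nonneg (hh j) (by positivity)

theorem ht_adj {h : ℕ → ℝ} (hh : ∀ j, 0 ≤ h j) {a b i i' : ℕ} (h1 : i ≤ i' + 1) (h2 : i' ≤ i + 1) :
    smo h a b i ≤ 16 / 15 * smo h a b i' := by
  unfold smo
  rw [Finset.mul_sum]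
  refine Finset.sum_le_sum fun j _ => ?_
  have h3 : (15 / 16 : ℝ) ^ ((i - j) + (j - i)) ≤ 16 / 15 * (15 / 16 : ℝ) ^ ((i' - j) + (j - i')) := by
    have h4 : (i' - j) + (j - i') ≤ ((i - j) + (j - i)) + 1 := by omega
    have h5 : (15 / 16 : ℝ) ^ (((i - j) + (j - i)) + 1) ≤ (15 / 16 : ℝ) ^ ((i' - j) + (j - i')) :=
      pow_le_pow_of_le_one (by norm_num) (by norm_num) h4
    rw [pow_succ] at h5
    linarith
  calc h j * (15 / 16 : ℝ) ^ ((i - j) + (j - i)) ≤ h j * (16 / 15 * (15 / 16 : ℝ) ^ ((i' - j) + (j - i'))) :=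
        mul_le_mul_of_nonneg_left h3 (hh j)
    _ = _ := by ring

theorem le_ht {h : ℕ → ℝ} (hh : ∀ j, 0 ≤ h j) {a b i : ℕ} (hi : i ∈ Finset.Icc a b) : h i ≤ smo h a b i := by
  unfold smo
  have h1 : h i = h i * (15 / 16 : ℝ) ^ ((i - i) + (i - i)) := by simp
  rw [h1]
  refine Finset.single_le_sum (f := fun j => h j * (15 / 16 : ℝ) ^ ((i - j) + (j - i))) ?_ hi
  intro j _
  exact mul_nonneg (hh j) (by positivity)

theorem geom_le (N : ℕ) : ∑ n ∈ Finset.range N, (15 / 16 : ℝ) ^ n ≤ 16 := by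
  rw [geom_sum_eq (by norm_num)]
  have : (0 : ℝ) ≤ (15 / 16) ^ N := by positivity
  rw [div_le_iff_of_neg (by norm_num)]
  linarith

theorem sum_dist_le (a b j : ℕ) : ∑ i ∈ Finset.Icc a b, (15 / 16 : ℝ) ^ ((i - j) + (j - i)) ≤ 32 := by
  have h1 : ∑ i ∈ Finset.Icc a b, (15 / 16 : ℝ) ^ ((i - j) + (j - i)) ≤
      ∑ i ∈ Finset.range (j + (b + 1)), (15 / 16 : ℝ) ^ ((i - j) + (j - i)) := by
    refine Finset.sum_le_sum_of_subset_of_nonneg ?_ (fun _ _ _ => by positivity)
    intro i hi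
    rw [Finset.mem_Icc] at hi
    rw [Finset.mem_range]
    omega
  have h2 : ∑ i ∈ Finset.range (j + (b + 1)), (15 / 16 : ℝ) ^ ((i - j) + (j - i)) =
      ∑ i ∈ Finset.range j, (15 / 16 : ℝ) ^ ((i - j) + (j - i)) +
        ∑ n ∈ Finset.range (b + 1), (15 / 16 : ℝ) ^ (((j + n) - j) + (j - (j + n))) := by
    rw [Finset.sum_range_add]
  have h3 : ∑ i ∈ Finset.range j, (15 / 16 : ℝ) ^ ((i - j) + (j - i)) ≤ 16 := by
    have h4 : ∑ i ∈ Finset.range j, (15 / 16 : ℝ) ^ ((i - j) + (j - i)) ≤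
        ∑ i ∈ Finset.range j, (15 / 16 : ℝ) ^ (j - 1 - i) := by
      refine Finset.sum_le_sum fun i hi => ?_
      rw [Finset.mem_range] at hi
      exact pow_le_pow_of_le_one (by norm_num) (by norm_num) (by omega)
    rw [Finset.sum_range_reflect (fun n => (15 / 16 : ℝ) ^ n) j] at h4
    exact h4.trans (geom_le j)
  have h5 : ∑ n ∈ Finset.range (b + 1), (15 / 16 : ℝ) ^ (((j + n) - j) + (j - (j + n))) ≤ 16 := by
    have h6 : ∑ n ∈ Finset.range (b + 1), (15 / 16 : ℝ) ^ (((j + n) - j) + (j - (j + n))) =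
        ∑ n ∈ Finset.range (b + 1), (15 / 16 : ℝ) ^ n := by
      refine Finset.sum_congr rfl fun n _ => ?_
      congr 1
      omega
    rw [h6]
    exact geom_le _
  linarith

theorem sum_ht_le {h : ℕ → ℝ} (hh : ∀ j, 0 ≤ h j) (a b c d : ℕ) :
    ∑ i ∈ Finset.Icc c d, smo h a b i ≤ 32 * ∑ j ∈ Finset.Icc a b, h j := by
  unfold smo
  rw [Finset.sum_comm, Finset.mul_sum]
  refine Finset.sum_le_sum fun j _ => ?_
  rw [← Finset.mul_sum]
  have := mul_le_mul_of_nonneg_left (sum_dist_le c d j) (hh j)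
  linarith

theorem ht_pow {h : ℕ → ℝ} (hh : ∀ j, 0 ≤ h j) (a b i d : ℕ) :
    smo h a b i ≤ (16 / 15 : ℝ) ^ d * smo h a b (i + d) := by
  induction d with
  | zero => simp
  | succ d ih =>
    have h1 : smo h a b (i + d) ≤ 16 / 15 * smo h a b (i + (d + 1)) := ht_adj hh (by omega) (by omega)
    calc smo h a b i ≤ (16 / 15 : ℝ) ^ d * smo h a b (i + d) := ih
      _ ≤ (16 / 15 : ℝ) ^ d * (16 / 15 * smo h a b (i + (d + 1))) :=
        mul_le_mul_of_nonneg_left h1 (by positivity)
      _ = _ := by rw [pow_succ]; ring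

/-- sum over dyadic blocks -/
theorem sum_block {f : ℕ → ℝ} (hf : ∀ i, 0 ≤ f i) (m y : ℕ) :
    ∑ t ∈ Finset.Ioc m y, f (Nat.log 2 t) / t ≤ ∑ i ∈ Finset.Icc (Nat.log 2 (m + 1)) (Nat.log 2 y), f i := by
  rw [← Finset.sum_fiberwise_of_maps_to (s := Finset.Ioc m y) (t := Finset.Icc (Nat.log 2 (m + 1)) (Nat.log 2 y))
    (g := fun t => Nat.log 2 t)]
  · refine Finset.sum_le_sum fun i _ => ?_
    have h1 : ∑ t ∈ Finset.Ioc m y with Nat.log 2 t = i, f (Nat.log 2 t) / t ≤
        ∑ t ∈ Finset.Ico (2 ^ i) (2 ^ (i + 1)), f i / 2 ^ i := by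
      refine (Finset.sum_le_sum (g := fun _ => f i / 2 ^ i) ?_).trans
        (Finset.sum_le_sum_of_subset_of_nonneg ?_ ?_)
      · intro t ht
        rw [Finset.mem_filter, Finset.mem_Ioc] at ht
        have ht0 : t ≠ 0 := by omega
        have h2 : 2 ^ i ≤ t := by
          rw [← ht.2]
          exact Nat.pow_log_le_self 2 ht0
        rw [ht.2]
        have h3 : (2 : ℝ) ^ i ≤ t := by exact_mod_cast h2
        exact div_le_div_of_nonneg_left (hf i) (by positivity) h3
      · intro t ht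
        rw [Finset.mem_filter, Finset.mem_Ioc] at ht
        have ht0 : t ≠ 0 := by omega
        rw [Finset.mem_Ico, ← ht.2]
        exact ⟨Nat.pow_log_le_self 2 ht0, Nat.lt_pow_succ_log_self (by norm_num) t⟩
      · intro t _ _
        exact div_nonneg (hf i) (by positivity)
    have h4 : ∑ t ∈ Finset.Ico (2 ^ i) (2 ^ (i + 1)), f i / 2 ^ i = f i := by
      rw [Finset.sum_const, Nat.card_Ico, nsmul_eq_mul]
      have : (2 ^ (i + 1) - 2 ^ i : ℕ) = 2 ^ i := by rw [pow_succ]; omega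
      rw [this]
      push_cast
      field_simp
    linarith
  · intro t ht
    rw [Finset.mem_Ioc] at ht
    rw [Finset.mem_Icc]
    exact ⟨Nat.log_mono_right (by omega), Nat.log_mono_right (by omega)⟩

theorem geo2 (a n : ℕ) : ∑ i ∈ Finset.Icc a (a + n), (16 / 15 : ℝ) ^ (a + n - i) = 16 * (16 / 15 : ℝ) ^ n - 15 := by
  induction n with
  | zero => simp; norm_num
  | succ n ih =>
    have h1 : Finset.Icc a (a + (n + 1)) = insert (a + (n + 1)) (Finset.Icc a (a + n)) := by
      ext i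
      simp only [Finset.mem_Icc, Finset.mem_insert]
      omega
    have h2 : a + (n + 1) ∉ Finset.Icc a (a + n) := by
      simp only [Finset.mem_Icc]
      omega
    rw [h1, Finset.sum_insert h2]
    have h3 : ∑ i ∈ Finset.Icc a (a + n), (16 / 15 : ℝ) ^ (a + (n + 1) - i) =
        16 / 15 * ∑ i ∈ Finset.Icc a (a + n), (16 / 15 : ℝ) ^ (a + n - i) := by
      rw [Finset.mul_sum]
      refine Finset.sum_congr rfl fun i hi => ?_
      rw [Finset.mem_Icc] at hi
      have : a + (n + 1) - i = (a + n - i) + 1 := by omega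
      rw [this, pow_succ]
      ring
    rw [h3, ih, Nat.sub_self, pow_zero, pow_succ]
    ring

theorem num_lemma {Q Y0 : ℕ} (hQ : 1 ≤ Q) (hY : 1408000 ≤ Y0) {h sp : ℕ → ℝ} (hh : ∀ i, 0 ≤ h i)
    (hsp : ∀ y, Y0 * Q < y → sp y ≤ y * h (Nat.log 2 y)) {S0 : ℝ}
    (hS0 : S0 ≤ (Y0 * Q : ℕ) / 4 * h (Nat.log 2 (Y0 * Q))) {T : ℕ → ℕ → ℝ}
    (base : ∀ y u, y ≤ Y0 * Q → u ≤ y → T y u ≤ S0)
    (r1 : ∀ y u, Y0 * Q < y → u ≤ y → y < 6 * u →
      ∃ w, y ≤ 24 * w ∧ 12 * w ≤ y ∧ T y u ≤ sp y + T (y - w) (u - w) + T y w)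
    (r2 : ∀ y u, Y0 * Q < y → 6 * u ≤ y →
      ∃ y' s, 2 * y ≤ 3 * y' ∧ 8 * y' ≤ 7 * y ∧ s ≤ u + 2 * Q ∧ T y u ≤ sp y + T y' s)
    (y : ℕ) (hy : Y0 * Q < y) :
    T y y ≤ 2000000 * y * ∑ j ∈ Finset.Icc (Nat.log 2 (Y0 * Q)) (Nat.log 2 y), h j := by
  classical
  set y1 : ℕ := Y0 * Q with hy1
  set j0 : ℕ := Nat.log 2 y1 with hj0
  set J : ℕ := Nat.log 2 y with hJ
  set g : ℕ → ℝ := fun i => smo h j0 J (max i j0) with hg
  set η : ℕ → ℝ := fun t => g (Nat.log 2 t) with hη
  set H : ℕ → ℝ := fun t => ∑ s ∈ Finset.Ioc (y1 / 2) t, η s / s with hH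
  have hQy : 1408000 * Q ≤ y1 := Nat.mul_le_mul_right Q hY
  have hy1pos : 1408000 ≤ y1 := by omega
  have hg0 : ∀ i, 0 ≤ g i := fun i => ht_nonneg hh _ _ _
  have hη0 : ∀ t, 0 ≤ η t := fun t => hg0 _
  have hj0pos : 1 ≤ j0 := by
    rw [hj0]
    exact Nat.le_log_of_pow_le (by norm_num) (by omega)
  have hj0J : j0 ≤ J := Nat.log_mono_right hy.le
  have h2j0 : 2 ^ j0 ≤ y1 := Nat.pow_log_le_self 2 (by omega)
  have h2j1 : y1 < 2 ^ (j0 + 1) := Nat.lt_pow_succ_log_self (by norm_num) y1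
  -- levels
  have hlog : ∀ t t' : ℕ, 0 < t' → t' ≤ t → t ≤ 2 * t' → Nat.log 2 t' ≤ Nat.log 2 t ∧ Nat.log 2 t ≤ Nat.log 2 t' + 1 := by
    intro t t' h0 h1 h2
    refine ⟨Nat.log_mono_right h1, ?_⟩
    have h3 : Nat.log 2 t ≤ Nat.log 2 (2 * t') := Nat.log_mono_right h2
    have h4 : Nat.log 2 (2 * t') = Nat.log 2 t' + 1 := by
      rw [mul_comm]
      exact Nat.log_mul_base (by norm_num) (by omega)
    omega
  have hηle : ∀ t t' : ℕ, 0 < t' → t' ≤ t → t ≤ 2 * t' → η t' ≤ 16 / 15 * η t := by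
    intro t t' h0 h1 h2
    have := hlog t t' h0 h1 h2
    exact ht_adj hh (by omega) (by omega)
  have hηge : ∀ t t' : ℕ, 0 < t' → t' ≤ t → t ≤ 2 * t' → η t ≤ 16 / 15 * η t' := by
    intro t t' h0 h1 h2
    have := hlog t t' h0 h1 h2
    exact ht_adj hh (by omega) (by omega)
  have hHmono : ∀ t t' : ℕ, t' ≤ t → H t' ≤ H t := by
    intro t t' h1
    refine Finset.sum_le_sum_of_subset_of_nonneg (Finset.Ioc_subset_Ioc_right h1) ?_
    intro s _ _
    exact div_nonneg (hη0 s) (Nat.cast_nonneg s)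
  have hH0 : ∀ t, 0 ≤ H t := fun t => Finset.sum_nonneg fun s _ => div_nonneg (hη0 s) (Nat.cast_nonneg s)
  have hblock : ∀ t, y1 < t → H t ≤ ∑ i ∈ Finset.Icc (j0 - 1) (Nat.log 2 t), g i := by
    intro t ht
    refine (sum_block hg0 (y1 / 2) t).trans ?_
    refine Finset.sum_le_sum_of_subset_of_nonneg (Finset.Icc_subset_Icc_left ?_) (fun i _ _ => hg0 i)
    refine Nat.le_log_of_pow_le (by norm_num) ?_
    have h3 : 2 ^ j0 = 2 * 2 ^ (j0 - 1) := by
      rw [← pow_succ']
      congr 1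
      omega
    omega
  have hsmall : ∀ t, y1 < t → t ≤ y → 2 * 11000 * Q * H t ≤ t * η t := by
    intro t ht hty
    have hL : j0 ≤ Nat.log 2 t := Nat.log_mono_right ht.le
    obtain ⟨m, hm⟩ := Nat.exists_eq_add_of_le hL
    have h1 := hblock t ht
    have h2 : ∑ i ∈ Finset.Icc (j0 - 1) (Nat.log 2 t), g i ≤
        ∑ i ∈ Finset.Icc (j0 - 1) (j0 - 1 + (m + 1)), (16 / 15 : ℝ) ^ (j0 - 1 + (m + 1) - i) * η t := by
      have e1 : Nat.log 2 t = j0 - 1 + (m + 1) := by omega
      rw [e1]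
      refine Finset.sum_le_sum fun i hi => ?_
      rw [Finset.mem_Icc] at hi
      have h3 := ht_pow hh j0 J (max i j0) (Nat.log 2 t - max i j0)
      have h4 : max i j0 + (Nat.log 2 t - max i j0) = max (Nat.log 2 t) j0 := by omega
      rw [h4] at h3
      refine h3.trans (mul_le_mul_of_nonneg_right ?_ (hη0 t))
      exact pow_le_pow_right₀ (by norm_num) (by omega)
    rw [← Finset.sum_mul, geo2] at h2
    have h5 : (16 / 15 : ℝ) ^ m ≤ 2 ^ m := pow_le_pow_left₀ (by norm_num) (by norm_num) m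
    have h6 : H t ≤ 18 * 2 ^ m * η t := by
      refine (h1.trans h2).trans (mul_le_mul_of_nonneg_right ?_ (hη0 t))
      rw [pow_succ]
      have h5' : (0 : ℝ) ≤ 2 ^ m := by positivity
      linarith
    have h7 : 2 ^ m * (704000 * Q) ≤ t := by
      have h8 : 2 ^ (j0 + m) ≤ t := by
        rw [← hm]
        exact Nat.pow_log_le_self 2 (by omega)
      rw [pow_add] at h8
      have h9 : 704000 * Q ≤ 2 ^ j0 := by
        rw [pow_succ] at h2j1
        omega
      calc 2 ^ m * (704000 * Q) ≤ 2 ^ m * 2 ^ j0 := Nat.mul_le_mul_left _ h9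
        _ = 2 ^ j0 * 2 ^ m := by ring
        _ ≤ t := h8
    have h10 : (2 : ℝ) ^ m * (704000 * Q) ≤ t := by exact_mod_cast h7
    have h11 : (0 : ℝ) ≤ 2 ^ m * Q := by positivity
    calc 2 * 11000 * Q * H t ≤ 2 * 11000 * Q * (18 * 2 ^ m * η t) :=
          mul_le_mul_of_nonneg_left h6 (by positivity)
      _ = (396000 * (2 ^ m * Q)) * η t := by ring
      _ ≤ t * η t := mul_le_mul_of_nonneg_right (by linarith) (hη0 t)
  have hsp' : ∀ t, y1 < t → t ≤ y → sp t ≤ t * η t := by
    intro t ht hty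
    refine (hsp t ht).trans (mul_le_mul_of_nonneg_left ?_ (Nat.cast_nonneg t))
    have hL : j0 ≤ Nat.log 2 t := Nat.log_mono_right ht.le
    have hL' : Nat.log 2 t ≤ J := Nat.log_mono_right hty
    have h1 : η t = smo h j0 J (Nat.log 2 t) := by
      show smo h j0 J (max (Nat.log 2 t) j0) = _
      rw [max_eq_left hL]
    rw [h1]
    exact le_ht hh (Finset.mem_Icc.2 ⟨hL, hL'⟩)
  have claim : ∀ t, y1 / 2 < t → t ≤ y → ∀ u ≤ t, T t u ≤ 11000 * u * H t + 30 * t * η t := by
    intro t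
    induction t using Nat.strong_induction_on with
    | _ t ih =>
      intro ht hty u hut
      by_cases hbase : t ≤ y1
      · refine (base t u hbase hut).trans (hS0.trans ?_)
        have h1 : h j0 ≤ 16 / 15 * η t := by
          have hpow : 2 ^ (j0 - 1) ≤ t := by
            have h3 : 2 ^ j0 = 2 * 2 ^ (j0 - 1) := by
              rw [← pow_succ']
              congr 1
              omega
            omega
          have h2 : j0 - 1 ≤ Nat.log 2 t := Nat.le_log_of_pow_le (by norm_num) hpow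
          have h3 : Nat.log 2 t ≤ j0 := Nat.log_mono_right hbase
          have h4 : η t = smo h j0 J j0 := by
            show smo h j0 J (max (Nat.log 2 t) j0) = _
            rw [max_eq_right h3]
          rw [h4]
          have := le_ht hh (Finset.mem_Icc.2 ⟨le_refl j0, hj0J⟩)
          have h5 := ht_nonneg hh j0 J j0
          linarith
        have h2 : (y1 : ℝ) / 4 ≤ t := by
          have : y1 ≤ 4 * t := by omega
          have h3 : (y1 : ℝ) ≤ 4 * t := by exact_mod_cast this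
          linarith
        have h3 : (y1 : ℝ) / 4 * h j0 ≤ t * (16 / 15 * η t) :=
          mul_le_mul h2 h1 (hh j0) (Nat.cast_nonneg t)
        have h4 : 0 ≤ 11000 * (u : ℝ) * H t := mul_nonneg (by positivity) (hH0 t)
        have h5 : 0 ≤ (t : ℝ) * η t := mul_nonneg (Nat.cast_nonneg t) (hη0 t)
        linarith
      · have hty1 : y1 < t := by omega
        have hX : 0 ≤ (t : ℝ) * η t := mul_nonneg (Nat.cast_nonneg t) (hη0 t)
        -- the second rule
        have hR2 : ∀ u, 6 * u ≤ t → T t u ≤ 11000 * u * H t + 30 * t * η t := by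
          intro u hu
          obtain ⟨t', s, h1, h2, h3, h4⟩ := r2 t u hty1 hu
          have h5 := ih t' (by omega) (by omega) (by omega) s (by omega)
          have h6 : H t' ≤ H t := hHmono t t' (by omega)
          have h7 := hsmall t hty1 hty
          have h8 := hsp' t hty1 hty
          have h9 : η t' ≤ 16 / 15 * η t := hηle t t' (by omega) (by omega) (by omega)
          have h10 : (t' : ℝ) ≤ 7 / 8 * t := by
            have : (8 * t' : ℝ) ≤ 7 * t := by exact_mod_cast h2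
            linarith
          have h11 : (t' : ℝ) * η t' ≤ 7 / 8 * t * (16 / 15 * η t) :=
            mul_le_mul h10 h9 (hη0 t') (by positivity)
          have h12 : (s : ℝ) ≤ u + 2 * Q := by exact_mod_cast h3
          have h13 : 11000 * (s : ℝ) * H t' ≤ 11000 * (u + 2 * Q) * H t :=
            mul_le_mul (by linarith) h6 (hH0 t') (by positivity)
          nlinarith [h4, h5, h7, h8, h11, h13]
        by_cases hu : 6 * u ≤ t
        · exact hR2 u hu
        · obtain ⟨w, h1, h2, h3⟩ := r1 t u hty1 hut (by omega)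
          have h4 := ih (t - w) (by omega) (by omega) (by omega) (u - w) (by omega)
          have h5 := hR2 w (by omega)
          have h6 : H (t - w) + w * (15 / 16 * η t / t) ≤ H t := by
            have e1 : Finset.Ioc (y1 / 2) t = Finset.Ioc (y1 / 2) (t - w) ∪ Finset.Ioc (t - w) t := by
              rw [Finset.Ioc_union_Ioc_eq_Ioc (by omega) (by omega)]
            have e2 : Disjoint (Finset.Ioc (y1 / 2) (t - w)) (Finset.Ioc (t - w) t) := by
              rw [Finset.disjoint_left]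
              intro x hx hx'
              rw [Finset.mem_Ioc] at hx hx'
              omega
            have e3 : H t = H (t - w) + ∑ s ∈ Finset.Ioc (t - w) t, η s / s := by
              show ∑ s ∈ Finset.Ioc (y1 / 2) t, η s / s = _
              rw [e1, Finset.sum_union e2]
            have e4 : ∑ s ∈ Finset.Ioc (t - w) t, 15 / 16 * η t / (t : ℝ) ≤ ∑ s ∈ Finset.Ioc (t - w) t, η s / s := by
              refine Finset.sum_le_sum fun s hs => ?_
              rw [Finset.mem_Ioc] at hs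
              have e5 : η t ≤ 16 / 15 * η s := hηge t s (by omega) hs.2 (by omega)
              have e6 : (s : ℝ) ≤ t := by exact_mod_cast hs.2
              have e7 : (0 : ℝ) < s := by
                have : 0 < s := by omega
                exact_mod_cast this
              calc 15 / 16 * η t / (t : ℝ) ≤ η s / t :=
                    div_le_div_of_nonneg_right (by linarith) (Nat.cast_nonneg t)
                _ ≤ η s / s := div_le_div_of_nonneg_left (hη0 s) e7 e6
            rw [Finset.sum_const, Nat.card_Ioc, nsmul_eq_mul] at e4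
            have e8 : t - (t - w) = w := by omega
            rw [e8] at e4
            linarith
          have h7 := hsp' t hty1 hty
          have h8 : η (t - w) ≤ 16 / 15 * η t := hηle t (t - w) (by omega) (by omega) (by omega)
          have hwt : w ≤ t := by omega
          have hwu : w ≤ u := by omega
          have h9 : ((t - w : ℕ) : ℝ) * η (t - w) ≤ t * (16 / 15 * η t) :=
            mul_le_mul (by exact_mod_cast Nat.sub_le t w) h8 (hη0 _) (Nat.cast_nonneg t)
          have ht0 : (0 : ℝ) < t := by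
            have : 0 < t := by omega
            exact_mod_cast this
          have hc1 : ((u - w : ℕ) : ℝ) = (u : ℝ) - w := Nat.cast_sub hwu
          have h10 : (t : ℝ) / 12 ≤ (u : ℝ) - w := by
            have : t ≤ 12 * (u - w) := by omega
            have h11 : (t : ℝ) ≤ 12 * ((u - w : ℕ) : ℝ) := by exact_mod_cast this
            rw [hc1] at h11
            linarith
          have h12 : (t : ℝ) / 24 ≤ w := by
            have : (t : ℝ) ≤ 24 * w := by exact_mod_cast h1
            linarith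
          have h13 : (t : ℝ) / 24 * (15 / 16 * η t / t) = 15 / 384 * η t := by
            field_simp
            ring
          have h14 : 15 / 384 * η t ≤ H t - H (t - w) := by
            have h15 : (t : ℝ) / 24 * (15 / 16 * η t / t) ≤ w * (15 / 16 * η t / t) :=
              mul_le_mul_of_nonneg_right h12 (div_nonneg (by linarith [hη0 t]) ht0.le)
            linarith
          have h16 : (t : ℝ) / 12 * (15 / 384 * η t) ≤ ((u : ℝ) - w) * (H t - H (t - w)) :=
            mul_le_mul h10 h14 (by linarith [hη0 t]) (by linarith)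
          rw [hc1] at h4
          nlinarith [h3, h4, h5, h7, h9, h16, hX]
  have hfin := claim y (by omega) (le_refl y) y (le_refl y)
  have hS := sum_ht_le hh j0 J j0 J
  have hgJ : ∀ i ∈ Finset.Icc j0 J, g i = smo h j0 J i := by
    intro i hi
    rw [Finset.mem_Icc] at hi
    show smo h j0 J (max i j0) = _
    rw [max_eq_left hi.1]
  have hSg : ∑ i ∈ Finset.Icc j0 J, g i ≤ 32 * ∑ j ∈ Finset.Icc j0 J, h j := by
    rw [Finset.sum_congr rfl hgJ]
    exact hS
  have hη1 : η y ≤ ∑ i ∈ Finset.Icc j0 J, g i :=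
    Finset.single_le_sum (fun i _ => hg0 i) (Finset.mem_Icc.2 ⟨hj0J, le_refl J⟩)
  have hH1 : H y ≤ 2 * ∑ i ∈ Finset.Icc j0 J, g i := by
    refine (hblock y hy).trans ?_
    have e1 : Finset.Icc (j0 - 1) J = insert (j0 - 1) (Finset.Icc j0 J) := by
      ext i
      simp only [Finset.mem_Icc, Finset.mem_insert]
      omega
    have e2 : j0 - 1 ∉ Finset.Icc j0 J := by
      simp only [Finset.mem_Icc]
      omega
    rw [← hJ, e1, Finset.sum_insert e2]
    have e3 : g (j0 - 1) = g j0 := by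
      show smo h j0 J (max (j0 - 1) j0) = smo h j0 J (max j0 j0)
      congr 1
      omega
    have e4 : g j0 ≤ ∑ i ∈ Finset.Icc j0 J, g i :=
      Finset.single_le_sum (fun i _ => hg0 i) (Finset.mem_Icc.2 ⟨le_refl j0, hj0J⟩)
    rw [e3]
    linarith
  have hS0' : 0 ≤ ∑ j ∈ Finset.Icc j0 J, h j := Finset.sum_nonneg fun j _ => hh j
  have hy0 : (0 : ℝ) ≤ y := Nat.cast_nonneg y
  have k1 : 11000 * (y : ℝ) * H y ≤ 11000 * y * (64 * ∑ j ∈ Finset.Icc j0 J, h j) :=
    mul_le_mul_of_nonneg_left (by linarith) (by positivity)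
  have k2 : 30 * (y : ℝ) * η y ≤ 30 * y * (32 * ∑ j ∈ Finset.Icc j0 J, h j) :=
    mul_le_mul_of_nonneg_left (by linarith) (by positivity)
  have k3 : 0 ≤ (y : ℝ) * ∑ j ∈ Finset.Icc j0 J, h j := mul_nonneg hy0 hS0'
  nlinarith [hfin, k1, k2, k3]

end Pool.Agent.H22.HC
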