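import Mathlib
import Pool.Agent.H31.HS.BitF1
import Pool.Agent.H31.HS.Srt

/-!
# Rule R1: sorting the aligned blocks of length `2^(y-w)` first

`low_cls`, `low_pos`, `occ_low`: the numbering `B.bits 0 l`.  `occ_sorted`: sorting the aligned blocks of length `2^l` does not change the number of occupied places of
larger aligned intervals.  `r1_rule`.
-/

set_option autoImplicit false

namespace Pool.Agent.H22.HC

open Pool.Agent.H31.HS

variable {V Ω R X : Type} {y : ℕ}

theorem low_cls (B : Blk V y) {l : ℕ} (h : 0 + l ≤ y) (v u : V) :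
    (B.bits 0 l h).cls v u ↔ B.cls v u ∧ B.pos v / 2 ^ l = B.pos u / 2 ^ l := by
  rw [bits_cls, zero_add, pow_zero, Nat.mod_one, Nat.mod_one]
  tauto

theorem low_pos (B : Blk V y) {l : ℕ} (h : 0 + l ≤ y) (v : V) : (B.bits 0 l h).pos v = B.pos v % 2 ^ l := by
  show B.pos v / 2 ^ 0 % 2 ^ l = _
  rw [pow_zero, Nat.div_one]

theorem div_mod_pow (x : ℕ) {j l : ℕ} (h : j ≤ l) : x / 2 ^ j = 2 ^ (l - j) * (x / 2 ^ l) + x % 2 ^ l / 2 ^ j := by
  have h1 := Nat.div_add_mod x (2 ^ l)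
  have h2 : (2 : ℕ) ^ l = 2 ^ j * 2 ^ (l - j) := by
    rw [← pow_add]
    congr 1
    omega
  conv_lhs => rw [← h1]
  rw [show 2 ^ l * (x / 2 ^ l) = 2 ^ j * (2 ^ (l - j) * (x / 2 ^ l)) by rw [← mul_assoc, ← h2]]
  rw [Nat.mul_add_div (by positivity)]

theorem div_eq_of_low {x z j l : ℕ} (h : j ≤ l) (h1 : x / 2 ^ l = z / 2 ^ l) (h2 : x % 2 ^ l / 2 ^ j = z % 2 ^ l / 2 ^ j) :
    x / 2 ^ j = z / 2 ^ j := by
  rw [div_mod_pow x h, div_mod_pow z h, h1, h2]

theorem low_nd (B : Blk V y) {l : ℕ} (h : 0 + l ≤ y) (v : V) {t : ℕ} (ht : t < 2 ^ l) :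
    (B.bits 0 l h).nd v t = B.nd v (B.pos v / 2 ^ l * 2 ^ l + t) := by
  show B.nd v (Blk.rep 0 l (B.pos v) (t % 2 ^ l)) = _
  unfold Blk.rep
  rw [Nat.mod_eq_of_lt ht, zero_add, pow_zero, mul_one, Nat.mod_one, add_zero]

theorem occ_low (B : Blk V y) {l : ℕ} (h : 0 + l ≤ y) (o : V → Bool) (v : V) {i : ℕ} (hi : i ≤ l) :
    occ (B.bits 0 l h) o v i = occ B o v i := by
  unfold occ
  congr 1
  refine Finset.filter_congr fun t ht => ?_
  rw [Finset.mem_range] at ht
  have h1 : B.pos v % 2 ^ l / 2 ^ i * 2 ^ i + t < 2 ^ l := by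
    have h2 : (2 : ℕ) ^ l = 2 ^ (l - i) * 2 ^ i := by
      rw [← pow_add]
      congr 1
      omega
    have h3 : B.pos v % 2 ^ l / 2 ^ i < 2 ^ (l - i) := by
      rw [Nat.div_lt_iff_lt_mul (by positivity), ← h2]
      exact Nat.mod_lt _ (by positivity)
    have h4 : (B.pos v % 2 ^ l / 2 ^ i + 1) * 2 ^ i ≤ 2 ^ (l - i) * 2 ^ i := Nat.mul_le_mul_right _ h3
    rw [h2]
    rw [← h2] at h4 ⊢
    linarith
  rw [low_pos, low_nd B h v h1]
  have h5 : B.pos v / 2 ^ l * 2 ^ l + (B.pos v % 2 ^ l / 2 ^ i * 2 ^ i + t) = B.pos v / 2 ^ i * 2 ^ i + t := by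
    have h2 : (2 : ℕ) ^ l = 2 ^ (l - i) * 2 ^ i := by
      rw [← pow_add]
      congr 1
      omega
    rw [div_mod_pow (B.pos v) hi]
    generalize B.pos v / 2 ^ l = q
    generalize B.pos v % 2 ^ l / 2 ^ i = p
    rw [h2]
    ring
  rw [h5]

theorem occ_le {B : Blk V y} {l : ℕ} (h : 0 + l ≤ y) {o1 o2 : V → Bool} (f : V → V)
    (hf : ∀ v, o1 v = true → (B.bits 0 l h).cls v (f v) ∧ o2 (f v) = true)
    (hinj : ∀ v v', o1 v = true → o1 v' = true → f v = f v' → v = v') (v : V) {i : ℕ} (hl : l ≤ i) (hi : i ≤ y) :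
    occ B o1 v i ≤ occ B o2 v i := by
  have hb : ∀ t, t < 2 ^ i → B.pos v / 2 ^ i * 2 ^ i + t < 2 ^ y := by
    intro t ht
    have h2 : (2 : ℕ) ^ y = 2 ^ (y - i) * 2 ^ i := by
      rw [← pow_add]
      congr 1
      omega
    have h3 : B.pos v / 2 ^ i < 2 ^ (y - i) := by
      rw [Nat.div_lt_iff_lt_mul (by positivity), ← h2]
      exact B.pos_lt v
    have h4 : (B.pos v / 2 ^ i + 1) * 2 ^ i ≤ 2 ^ (y - i) * 2 ^ i := Nat.mul_le_mul_right _ h3
    rw [← h2] at h4
    linarith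
  obtain ⟨nn, hnn⟩ : ∃ nn : ℕ → V, ∀ t, nn t = B.nd v (B.pos v / 2 ^ i * 2 ^ i + t) := ⟨_, fun _ => rfl⟩
  have hpos : ∀ t, t < 2 ^ i → B.pos (nn t) = B.pos v / 2 ^ i * 2 ^ i + t := by
    intro t ht
    rw [hnn, B.pos_nd _ _ (hb t ht)]
  have hcls : ∀ t, t < 2 ^ i → B.cls v (nn t) := by
    intro t ht
    rw [hnn]
    exact B.cls_nd v (hb t ht)
  -- the image lies in the same interval
  have him : ∀ t, t < 2 ^ i → o1 (nn t) = true → B.cls v (f (nn t)) ∧ B.pos (f (nn t)) / 2 ^ i = B.pos v / 2 ^ i := by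
    intro t ht ho
    obtain ⟨h1, _⟩ := hf _ ho
    rw [low_cls] at h1
    refine ⟨B.cls_trans (hcls t ht) h1.1, ?_⟩
    have h2 : ∀ x : ℕ, x / 2 ^ i = x / 2 ^ l / 2 ^ (i - l) := by
      intro x
      rw [Nat.div_div_eq_div_mul, ← pow_add]
      congr 2
      omega
    rw [h2, ← h1.2, ← h2, hpos t ht, mul_comm, Nat.mul_add_div (by positivity), Nat.div_eq_of_lt ht, add_zero]
  unfold occ
  refine Finset.card_le_card_of_injOn (fun t => B.pos (f (nn t)) - B.pos v / 2 ^ i * 2 ^ i) ?_ ?_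
  · intro t ht
    rw [Finset.mem_coe, Finset.mem_filter, Finset.mem_range] at ht
    have ho : o1 (nn t) = true := by rw [hnn]; exact ht.2
    obtain ⟨h1, h2⟩ := him t ht.1 ho
    have h3 := Nat.div_add_mod (B.pos (f (nn t))) (2 ^ i)
    have h4 : B.pos (f (nn t)) % 2 ^ i < 2 ^ i := Nat.mod_lt _ (by positivity)
    rw [h2, mul_comm] at h3
    rw [Finset.mem_coe, Finset.mem_filter, Finset.mem_range]
    simp only
    refine ⟨by omega, ?_⟩
    have h5 : B.pos v / 2 ^ i * 2 ^ i + (B.pos (f (nn t)) - B.pos v / 2 ^ i * 2 ^ i) = B.pos (f (nn t)) := by omega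
    rw [h5]
    have h6 : B.nd v (B.pos (f (nn t))) = f (nn t) := h1
    rw [h6]
    exact (hf _ ho).2
  · intro t ht t' ht' he
    rw [Finset.mem_coe, Finset.mem_filter, Finset.mem_range] at ht ht'
    have ho : o1 (nn t) = true := by rw [hnn]; exact ht.2
    have ho' : o1 (nn t') = true := by rw [hnn]; exact ht'.2
    obtain ⟨h1, h2⟩ := him t ht.1 ho
    obtain ⟨h1', h2'⟩ := him t' ht'.1 ho'
    have h3 := Nat.div_add_mod (B.pos (f (nn t))) (2 ^ i)
    have h3' := Nat.div_add_mod (B.pos (f (nn t'))) (2 ^ i)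
    rw [h2, mul_comm] at h3
    rw [h2', mul_comm] at h3'
    simp only at he
    have h4 : B.pos (f (nn t)) = B.pos (f (nn t')) := by omega
    have h5 : f (nn t) = f (nn t') := B.eq_of_cls (B.cls_trans (B.cls_symm h1) h1') h4
    have h6 := hinj _ _ ho ho' h5
    have h7 := hpos t ht.1
    have h8 := hpos t' ht'.1
    rw [h6] at h7
    omega

theorem kv_eq_ne {key : X × Option R → ℕ} {B : Blk V y} {b : V → Option X × Option R} (h : RunSorted B key y b) {v u : V} (hc : B.cls v u)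
    (hv : (b v).1.isSome) (hu : (b u).1.isSome) (he : kv key (b v) = kv key (b u)) : v = u := by
  have h0 : ∀ z, B.pos z / 2 ^ y = 0 := fun z => Nat.div_eq_of_lt (B.pos_lt z)
  rcases lt_trichotomy (B.pos v) (B.pos u) with h1 | h1 | h1
  · have := h v u hc (by rw [h0, h0]) h1 hu
    rw [he] at this
    exact absurd this (lt_irrefl _)
  · exact B.eq_of_cls hc h1
  · have := h u v (B.cls_symm hc) (by rw [h0, h0]) h1 hv
    rw [he] at this
    exact absurd this (lt_irrefl _)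

theorem occ_sorted {B : Blk V y} {l : ℕ} (h : 0 + l ≤ y) {key : X × Option R → ℕ} {a b : V → Option X × Option R}
    (hD : Dist (B.bits 0 l h) key a) (hS : SortSpec (B.bits 0 l h) key a b) (v : V) {i : ℕ} (hl : l ≤ i) (hi : i ≤ y) :
    occ B (fun v => (b v).1.isSome) v i = occ B (fun v => (a v).1.isSome) v i := by
  have : Nonempty V := ⟨v⟩
  obtain ⟨h1, h2, h3, h4⟩ := hS
  choose! f hf1 hf2 using h1
  choose! g hg1 hg2 using h2
  refine le_antisymm ?_ ?_
  · refine occ_le h f (fun v hv => ⟨hf1 v hv, ?_⟩) ?_ v hl hi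
    · show (a (f v)).1.isSome = true
      rw [← hf2 v hv]
      exact hv
    · intro v v' hv hv' he
      have h5 := hf1 v hv
      have h6 := hf1 v' hv'
      rw [he] at h5
      refine kv_eq_ne h4 (Blk.cls_trans _ h5 (Blk.cls_symm _ h6)) hv hv' ?_
      rw [hf2 v hv, hf2 v' hv', he]
  · refine occ_le h g (fun v hv => ⟨hg1 v hv, ?_⟩) ?_ v hl hi
    · show (b (g v)).1.isSome = true
      rw [hg2 v hv]
      exact hv
    · intro v v' hv hv' he
      have h5 := hg1 v hv
      have h6 := hg1 v' hv'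
      rw [he] at h5
      refine hD v v' (Blk.cls_trans _ h5 (Blk.cls_symm _ h6)) hv hv' ?_
      rw [← hg2 v hv, ← hg2 v' hv', he]

theorem CanM.e_mono {M : Mach V Ω R} {m S u Q e e' c : ℕ} {B : Blk V m} (h : CanM M S B u Q e' c) (he : e ≤ e') : CanM M S B u Q e c := by
  intro X key P a hkey hSm ha hdist hrun hpat
  exact h X key P a hkey hSm ha hdist hrun (fun w v i hi hi' => (hpat w v i hi hi').trans (Nat.mul_le_mul_right _ he))

theorem sm_of_sortSpec {m S : ℕ} {B : Blk V m} {key : Ω → X × Option R → ℕ} {a b : V → Ω → Option X × Option R} (hSm : Sm S a)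
    (hb : ∀ w, SortSpec B (key w) (fun v => a v w) (fun v => b v w)) : Sm S b := by
  refine hSm.of_range (fun v w => ?_)
  rcases h3 : (b v w).1 with _ | x
  · exact Or.inl rfl
  · obtain ⟨u, _, hu⟩ := (hb w).1 v (by show (b v w).1.isSome = true; rw [h3]; rfl)
    exact Or.inr ⟨_, w, hu⟩

/-- rule R1 -/
theorem r1_rule {M : Mach V Ω R} {S Q e w u c1 c2 : ℕ} {B : Blk V y} (hwu : w + Q ≤ u) (hu : u ≤ y) (h : 0 + (y - w) ≤ y)
    (h1 : CanM M S (B.bits 0 (y - w) h) (u - w) Q e c1) (h2 : CanM M S B w Q e c2) : CanM M S B u Q e (c1 + c2) := by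
  intro X key P a hkey hSm ha hdist hrun hpat
  have hyw : y - w - (u - w) = y - u := by omega
  refine (h1 X key P a hkey hSm ha ?_ ?_ ?_).bind ?_
  · intro w' v z hvz hv hz he
    rw [low_cls] at hvz
    exact hdist w' v z hvz.1 hv hz he
  · intro w' v z hvz hd hp hz
    rw [hyw, low_pos, low_pos] at hd
    rw [low_pos, low_pos] at hp
    rw [low_cls] at hvz
    refine hrun w' v z hvz.1 (div_eq_of_low (by omega) hvz.2 hd) ?_ hz
    have h5 := Nat.div_add_mod (B.pos v) (2 ^ (y - w))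
    have h6 := Nat.div_add_mod (B.pos z) (2 ^ (y - w))
    rw [hvz.2] at h5
    omega
  · intro w' v i hi hi'
    rw [occ_low B h _ v hi]
    exact hpat w' v i (by omega) (Or.inr (by omega))
  · rintro P1 _ ⟨b, hb, hb'⟩
    have hdist' : ∀ w', Dist B (key w') (fun v => b v w') := by
      intro w' v z hvz hv hz he
      obtain ⟨v', hv1, hv2⟩ := (hb' w').1 v hv
      obtain ⟨z', hz1, hz2⟩ := (hb' w').1 z hz
      have hv1' := (low_cls B h v v').1 hv1
      have hz1' := (low_cls B h z z').1 hz1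
      have hv3 : b v w' = a v' w' := hv2
      have hz3 : b z w' = a z' w' := hz2
      have e1 : v' = z' := by
        refine hdist w' v' z' (B.cls_trans (B.cls_symm hv1'.1) (B.cls_trans hvz hz1'.1)) ?_ ?_ ?_
        · show (a v' w').1.isSome = true
          rw [← hv3]
          exact hv
        · show (a z' w').1.isSome = true
          rw [← hz3]
          exact hz
        · show kv (key w') (a v' w') = kv (key w') (a z' w')
          rw [← hv3, ← hz3]
          exact he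
      rw [← e1] at hz1
      exact kv_eq_ne (hb' w').2.2.2 (Blk.cls_trans _ hv1 (Blk.cls_symm _ hz1)) hv hz he
    refine (h2 X key P1 b hkey (sm_of_sortSpec hSm hb') hb hdist' ?_ ?_).mono (le_refl _) ?_
    · intro w' v z hvz hd hp hz
      refine (hb' w').2.2.2 v z ((low_cls B h v z).2 ⟨hvz, hd⟩) ?_ ?_ hz
      · rw [Nat.div_eq_of_lt (Blk.pos_lt _ v), Nat.div_eq_of_lt (Blk.pos_lt _ z)]
      · rw [low_pos, low_pos]
        have h5 := Nat.div_add_mod (B.pos v) (2 ^ (y - w))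
        have h6 := Nat.div_add_mod (B.pos z) (2 ^ (y - w))
        rw [hd] at h5
        omega
    · intro w' v i hi hi'
      rw [occ_sorted h ?_ (hb' w') v (by omega) hi]
      · exact hpat w' v i hi (by omega)
      · intro v z hvz hv hz he
        rw [low_cls] at hvz
        exact hdist w' v z hvz.1 hv hz he
    · rintro P2 _ ⟨b2, hb2, hb2'⟩
      refine ⟨b2, hb2, fun w' => ⟨?_, ?_, (hb2' w').2.2.1, (hb2' w').2.2.2⟩⟩
      · intro v hv
        obtain ⟨z, hz1, hz2⟩ := (hb2' w').1 v hv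
        have hz3 : (b z w').1.isSome = true := by
          have hz6 : b2 v w' = b z w' := hz2
          rw [← hz6]
          exact hv
        obtain ⟨z', hz4, hz5⟩ := (hb' w').1 z hz3
        exact ⟨z', B.cls_trans hz1 ((low_cls B h z z').1 hz4).1, hz2.trans hz5⟩
      · intro v hv
        obtain ⟨z, hz1, hz2⟩ := (hb' w').2.1 v hv
        have hz3 : (b z w').1.isSome = true := by
          have hz6 : b z w' = a v w' := hz2
          rw [hz6]
          exact hv
        obtain ⟨z', hz4, hz5⟩ := (hb2' w').2.1 z hz3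
        exact ⟨z', B.cls_trans ((low_cls B h v z).1 hz1).1 hz4, hz5.trans hz2⟩

end Pool.Agent.H22.HC
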