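import Mathlib
import Pool.Agent.H22.HC.Num
import Pool.Agent.H22.HC.R1

/-!
# The recursion R1, R2 for a family of views

`F y B`: `B` is a view of `y` bits.  `Good ... y u c`: every view of `y` bits can be sorted from runs of length `2^(y-u)` in `c` steps.
`rec_main`: the cost for `(y, y)` by the NUM lemma.
-/

set_option autoImplicit false

namespace Pool.Agent.H22.HC

open Pool.Agent.H31.HS

variable {V Ω R : Type}

/-- all views of `y` bits can be sorted from runs in `c` steps -/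
def Good (M : Mach V Ω R) (S Q : ℕ) (e : ℕ → ℕ) (F : (y : ℕ) → Blk V y → Prop) (y u c : ℕ) : Prop :=
  ∀ B, F y B → CanM M S B u Q (e y) c

theorem rec_main {M : Mach V Ω R} {S Q Y0 : ℕ} (hQ : 1 ≤ Q) (hY : 1408000 ≤ Y0) {e : ℕ → ℕ} {F : (y : ℕ) → Blk V y → Prop}
    {sp : ℕ → ℕ} {S0 : ℕ} {h : ℕ → ℝ} (hh : ∀ i, 0 ≤ h i) (he : ∀ y y', y' ≤ y → e y ≤ e y')
    (hsp : ∀ y, Y0 * Q < y → (sp y : ℝ) ≤ y * h (Nat.log 2 y))
    (hS0 : (S0 : ℝ) ≤ (Y0 * Q : ℕ) / 4 * h (Nat.log 2 (Y0 * Q)))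
    (base : ∀ y u, y ≤ Y0 * Q → Q ≤ u → u ≤ y → Good M S Q e F y u S0)
    (r1 : ∀ y, Y0 * Q < y → (∃ B, F y B) → ∃ w, y ≤ 24 * w ∧ 12 * w ≤ y ∧ ∀ B, F y B → ∀ h' : 0 + (y - w) ≤ y, ∀ u c,
      Good M S Q e F (y - w) u c → CanM M S (B.bits 0 (y - w) h') u Q (e (y - w)) (c + sp y))
    (r2 : ∀ y u, Y0 * Q < y → (∃ B, F y B) → Q ≤ u → 6 * u ≤ y → ∃ y' s, 2 * y ≤ 3 * y' ∧ 8 * y' ≤ 7 * y ∧ s ≤ u + 2 * Q ∧ Q ≤ s ∧
      s ≤ y' ∧ ∀ c, Good M S Q e F y' s c → Good M S Q e F y u (c + sp y))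
    (y : ℕ) (hy : Y0 * Q < y) : ∃ c, Good M S Q e F y y c ∧
      (c : ℝ) ≤ 2000000 * y * ∑ j ∈ Finset.Icc (Nat.log 2 (Y0 * Q)) (Nat.log 2 y), h j := by
  classical
  have hYQ : 1408000 * Q ≤ Y0 * Q := Nat.mul_le_mul_right Q hY
  -- R1 at the level of `Good`
  have step1 : ∀ y w u c1 c2, Y0 * Q < y → y < 6 * u → u ≤ y → y ≤ 24 * w → 12 * w ≤ y →
      (∀ B, F y B → ∀ h' : 0 + (y - w) ≤ y, ∀ u c, Good M S Q e F (y - w) u c → CanM M S (B.bits 0 (y - w) h') u Q (e (y - w)) (c + sp y)) →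
      Good M S Q e F (y - w) (u - w) c1 → Good M S Q e F y w c2 → Good M S Q e F y u (sp y + c1 + c2) := by
    intro y w u c1 c2 hy hu1 hu2 hw1 hw2 hr h1 h2 B hB
    have h0 : 0 + (y - w) ≤ y := by omega
    have h3 := CanM.e_mono (hr B hB h0 (u - w) c1 h1) (he y (y - w) (by omega))
    have h4 := r1_rule (by omega) hu2 h0 h3 (h2 B hB)
    have h5 : c1 + sp y + c2 = sp y + c1 + c2 := by omega
    rwa [h5] at h4
  have triv0 : ∀ y u c, (¬ ∃ B, F y B) → Good M S Q e F y u c := fun y u c h B hB => absurd ⟨B, hB⟩ h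
  -- existence
  have ex : ∀ y u, Q ≤ u → u ≤ y → ∃ c, Good M S Q e F y u c := by
    intro y
    induction y using Nat.strong_induction_on with
    | _ y ih =>
      intro u hQu huy
      by_cases hF : ∃ B, F y B
      · by_cases hy1 : y ≤ Y0 * Q
        · exact ⟨S0, base y u hy1 hQu huy⟩
        · have hy1' : Y0 * Q < y := by omega
          have low : ∀ u, Q ≤ u → 6 * u ≤ y → ∃ c, Good M S Q e F y u c := by
            intro u hQu hu6
            obtain ⟨y', s, h1, h2, h3, h4, h5, h6⟩ := r2 y u hy1' hF hQu hu6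
            obtain ⟨c, hc⟩ := ih y' (by omega) s h4 h5
            exact ⟨_, h6 c hc⟩
          by_cases hu6 : 6 * u ≤ y
          · exact low u hQu hu6
          · obtain ⟨w, h1, h2, h3⟩ := r1 y hy1' hF
            obtain ⟨c1, hc1⟩ := ih (y - w) (by omega) (u - w) (by omega) (by omega)
            obtain ⟨c2, hc2⟩ := low w (by omega) (by omega)
            exact ⟨_, step1 y w u c1 c2 hy1' (by omega) huy h1 h2 h3 hc1 hc2⟩
      · exact ⟨0, triv0 y u 0 hF⟩
  obtain ⟨T, hT⟩ : ∃ T : ℕ → ℕ → ℕ, ∀ y u, T y u = if Q ≤ u ∧ ∃ B, F y B then sInf {c | Good M S Q e F y u c} else 0 :=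
    ⟨fun y u => if Q ≤ u ∧ ∃ B, F y B then sInf {c | Good M S Q e F y u c} else 0, fun _ _ => rfl⟩
  have Tgood : ∀ y u, Q ≤ u → u ≤ y → Good M S Q e F y u (T y u) := by
    intro y u hQu huy
    by_cases hF : ∃ B, F y B
    · rw [hT, if_pos ⟨hQu, hF⟩]
      exact Nat.sInf_mem (ex y u hQu huy)
    · exact triv0 y u _ hF
  have Tle : ∀ y u c, Good M S Q e F y u c → T y u ≤ c := by
    intro y u c hc
    rw [hT]
    split_ifs
    · exact Nat.sInf_le hc
    · exact Nat.zero_le _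
  have hnum := num_lemma (Q := Q) (Y0 := Y0) hQ hY (h := h) (sp := fun y => (sp y : ℝ)) hh hsp (S0 := (S0 : ℝ)) hS0
    (T := fun y u => (T y u : ℝ)) ?_ ?_ ?_ y hy
  · exact ⟨T y y, Tgood y y (by omega) (le_refl y), hnum⟩
  · intro y u hy hu
    by_cases hQu : Q ≤ u
    · exact_mod_cast Tle y u S0 (base y u hy hQu hu)
    · rw [hT, if_neg (fun h => hQu h.1)]
      simp
  · intro y u hy hu hu6
    by_cases hF : ∃ B, F y B
    · obtain ⟨w, h1, h2, h3⟩ := r1 y hy hF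
      refine ⟨w, h1, h2, ?_⟩
      have h4 := Tle y u _ (step1 y w u (T (y - w) (u - w)) (T y w) hy hu6 hu h1 h2 h3 (Tgood _ _ (by omega) (by omega))
        (Tgood _ _ (by omega) (by omega)))
      exact_mod_cast h4
    · refine ⟨y / 12, by omega, by omega, ?_⟩
      rw [hT y u, if_neg (fun h => hF h.2)]
      push_cast
      positivity
  · intro y u hy hu6
    by_cases hF : ∃ B, F y B
    · by_cases hQu : Q ≤ u
      · obtain ⟨y', s, h1, h2, h3, h4, h5, h6⟩ := r2 y u hy hF hQu hu6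
        refine ⟨y', s, h1, h2, h3, ?_⟩
        have h7 := Tle y u _ (h6 _ (Tgood y' s h4 h5))
        rw [add_comm (sp y : ℝ)]
        exact_mod_cast h7
      · refine ⟨3 * y / 4, 0, by omega, by omega, by omega, ?_⟩
        rw [hT y u, if_neg (fun h => hQu h.1)]
        push_cast
        positivity
    · refine ⟨3 * y / 4, 0, by omega, by omega, by omega, ?_⟩
      rw [hT y u, if_neg (fun h => hF h.2)]
      push_cast
      positivity

end Pool.Agent.H22.HC
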