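import Mathlib

/-!
# Regimes

`regL a b L`: size of the star digits for a region of `y` bits with `log D - log y = L`; `0`: coordinate numbering.  `Q = 2^a`, sizes `2^b, ..., 2^(a-3)`.
`hT K a b L`: bound for the cost of SPLIT per bit.  `sum_hT`: the sum over all scales.
-/

set_option autoImplicit false

namespace Pool.Agent.H22.HC

/-- size of the star digits -/
def regL (a b L : ℕ) : ℕ := if L ≤ 2 ^ b then 0 else 2 ^ min (Nat.log 2 (L - 1)) (a - 3)

theorem regL_pos {a b L : ℕ} (hb : b ≤ a - 3) (h : regL a b L ≠ 0) :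
    ∃ j, b ≤ j ∧ j ≤ a - 3 ∧ regL a b L = 2 ^ j ∧ 2 ^ j + 1 ≤ L := by
  unfold regL at h ⊢
  split_ifs at h ⊢ with h1
  · exact absurd rfl h
  · refine ⟨_, ?_, min_le_right _ _, rfl, ?_⟩
    · refine le_min ?_ hb
      exact Nat.le_log_of_pow_le (by norm_num) (by omega)
    · have h2 : 2 ^ min (Nat.log 2 (L - 1)) (a - 3) ≤ 2 ^ Nat.log 2 (L - 1) := Nat.pow_le_pow_right (by norm_num) (min_le_left _ _)
      have h3 : 2 ^ Nat.log 2 (L - 1) ≤ L - 1 := Nat.pow_log_le_self 2 (by
        have : 0 < 2 ^ b := by positivity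
        omega)
      omega

/-- cost per bit -/
noncomputable def hT (K : ℝ) (a b L : ℕ) : ℝ :=
  (if regL a b L = 0 then K else K / regL a b L) + if regL a b (L + 1) ≠ regL a b L then K else 0

theorem hT_nonneg {K : ℝ} (hK : 0 ≤ K) (a b L : ℕ) : 0 ≤ hT K a b L := by
  unfold hT
  positivity

theorem sum_log (r : ℕ) : ∑ n ∈ Finset.Ico 1 (2 ^ r), (1 / 2 : ℝ) ^ Nat.log 2 n = r := by
  induction r with
  | zero => simp
  | succ r ih =>
    have h1 : (1 : ℕ) ≤ 2 ^ r := Nat.one_le_two_pow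
    have h2 : (2 : ℕ) ^ r ≤ 2 ^ (r + 1) := Nat.pow_le_pow_right (by norm_num) (by omega)
    rw [← Finset.sum_Ico_consecutive _ h1 h2, ih]
    have h3 : ∑ n ∈ Finset.Ico (2 ^ r) (2 ^ (r + 1)), (1 / 2 : ℝ) ^ Nat.log 2 n = ∑ n ∈ Finset.Ico (2 ^ r) (2 ^ (r + 1)), (1 / 2 : ℝ) ^ r := by
      refine Finset.sum_congr rfl fun n hn => ?_
      rw [Finset.mem_Ico] at hn
      rw [Nat.log_eq_of_pow_le_of_lt_pow hn.1 hn.2]
    rw [h3, Finset.sum_const, Nat.card_Ico]
    have h4 : (2 : ℕ) ^ (r + 1) - 2 ^ r = 2 ^ r := by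
      rw [pow_succ]
      omega
    rw [h4, nsmul_eq_mul]
    push_cast
    rw [← mul_pow]
    norm_num

theorem regL_change {a b L : ℕ} (hb : b ≤ a - 3) (h : regL a b (L + 1) ≠ regL a b L) : ∃ j, j ≤ a - 3 ∧ L = 2 ^ j := by
  unfold regL at h
  by_cases h1 : L + 1 ≤ 2 ^ b
  · rw [if_pos h1, if_pos (by omega)] at h
    exact absurd rfl h
  · by_cases h2 : L ≤ 2 ^ b
    · exact ⟨b, hb, by omega⟩
    · rw [if_neg h1, if_neg h2] at h
      have h3 : L + 1 - 1 = L := by omega
      rw [h3] at h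
      have h0 : 0 < 2 ^ b := by positivity
      have hL1 : L - 1 ≠ 0 := by omega
      have h4 : Nat.log 2 L ≠ Nat.log 2 (L - 1) := fun h' => h (by rw [h'])
      have h5 : Nat.log 2 (L - 1) ≤ Nat.log 2 L := Nat.log_mono_right (by omega)
      have h6 : 2 ^ Nat.log 2 L ≤ L := Nat.pow_log_le_self 2 (by omega)
      have h7 : L - 1 < 2 ^ (Nat.log 2 (L - 1) + 1) := Nat.lt_pow_succ_log_self (by norm_num) _
      have h8 : 2 ^ (Nat.log 2 (L - 1) + 1) ≤ 2 ^ Nat.log 2 L := Nat.pow_le_pow_right (by norm_num) (by omega)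
      refine ⟨Nat.log 2 L, ?_, by omega⟩
      by_contra h9
      apply h
      rw [min_eq_right (by omega), min_eq_right]
      have h10 : 2 ^ (a - 3 + 1) ≤ 2 ^ Nat.log 2 L := Nat.pow_le_pow_right (by norm_num) (by omega)
      have h11 : (2 : ℕ) ^ (a - 3 + 1) = 2 * 2 ^ (a - 3) := by ring
      have h12 : 0 < 2 ^ (a - 3) := by positivity
      exact Nat.le_log_of_pow_le (by norm_num) (by omega)

theorem sum_hT {K : ℝ} (hK : 0 ≤ K) {a b N : ℕ} (hb : b ≤ a - 3) :
    ∑ L ∈ Finset.range (N + 1), hT K a b L ≤ K * ((2 ^ b + 1) + (a - 3 : ℕ) + (N + 1) / 2 ^ (a - 3) + ((a - 3 : ℕ) + 1)) := by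
  classical
  -- the three parts
  have hp : ∀ L, hT K a b L ≤ K * ((if L ≤ 2 ^ b then (1 : ℝ) else 0) + (if L - 1 ∈ Finset.Ico 1 (2 ^ (a - 3)) then (1 / 2 : ℝ) ^ Nat.log 2 (L - 1) else 0) +
      1 / 2 ^ (a - 3) + (if ∃ j, j ≤ a - 3 ∧ L = 2 ^ j then (1 : ℝ) else 0)) := by
    intro L
    have h1 : (if regL a b L = 0 then K else K / regL a b L) ≤ K * ((if L ≤ 2 ^ b then (1 : ℝ) else 0) +
        (if L - 1 ∈ Finset.Ico 1 (2 ^ (a - 3)) then (1 / 2 : ℝ) ^ Nat.log 2 (L - 1) else 0) + 1 / 2 ^ (a - 3)) := by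
      by_cases hL : L ≤ 2 ^ b
      · have : regL a b L = 0 := if_pos hL
        rw [if_pos this, if_pos hL]
        have h2 : (0 : ℝ) ≤ (if L - 1 ∈ Finset.Ico 1 (2 ^ (a - 3)) then (1 / 2 : ℝ) ^ Nat.log 2 (L - 1) else 0) := by positivity
        have h3 : (0 : ℝ) ≤ 1 / 2 ^ (a - 3) := by positivity
        nlinarith
      · have h0 : 0 < 2 ^ b := by positivity
        have h4 : regL a b L = 2 ^ min (Nat.log 2 (L - 1)) (a - 3) := if_neg hL
        rw [h4, if_neg (by positivity), if_neg hL, zero_add, div_eq_mul_inv]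
        refine mul_le_mul_of_nonneg_left ?_ hK
        push_cast
        by_cases h5 : Nat.log 2 (L - 1) < a - 3
        · have h6 : L - 1 ∈ Finset.Ico 1 (2 ^ (a - 3)) := by
            rw [Finset.mem_Ico]
            refine ⟨by omega, ?_⟩
            exact (Nat.lt_pow_succ_log_self (by norm_num) _).trans_le (Nat.pow_le_pow_right (by norm_num) (by omega))
          rw [if_pos h6, min_eq_left h5.le, one_div, inv_pow]
          have : (0 : ℝ) ≤ 1 / 2 ^ (a - 3) := by positivity
          linarith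
        · rw [min_eq_right (by omega)]
          have : (0 : ℝ) ≤ (if L - 1 ∈ Finset.Ico 1 (2 ^ (a - 3)) then (1 / 2 : ℝ) ^ Nat.log 2 (L - 1) else 0) := by positivity
          have h7 : ((2 : ℝ) ^ (a - 3))⁻¹ = 1 / 2 ^ (a - 3) := (one_div _).symm
          rw [h7]
          linarith
    have h2 : (if regL a b (L + 1) ≠ regL a b L then K else 0) ≤ K * (if ∃ j, j ≤ a - 3 ∧ L = 2 ^ j then (1 : ℝ) else 0) := by
      by_cases h : regL a b (L + 1) ≠ regL a b L
      · rw [if_pos h, if_pos (regL_change hb h), mul_one]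
      · rw [if_neg h]
        positivity
    unfold hT
    linarith
  refine (Finset.sum_le_sum fun L _ => hp L).trans ?_
  rw [← Finset.mul_sum]
  refine mul_le_mul_of_nonneg_left ?_ hK
  rw [Finset.sum_add_distrib, Finset.sum_add_distrib, Finset.sum_add_distrib]
  refine add_le_add (add_le_add (add_le_add ?_ ?_) ?_) ?_
  · rw [← Finset.sum_filter, Finset.sum_const, nsmul_eq_mul, mul_one]
    have h1 : (Finset.range (N + 1)).filter (fun L => L ≤ 2 ^ b) ⊆ Finset.range (2 ^ b + 1) := by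
      intro L hL
      rw [Finset.mem_filter] at hL
      rw [Finset.mem_range]
      omega
    have h2 := Finset.card_le_card h1
    rw [Finset.card_range] at h2
    exact_mod_cast h2
  · rw [← Finset.sum_filter]
    calc ∑ L ∈ (Finset.range (N + 1)).filter (fun L => L - 1 ∈ Finset.Ico 1 (2 ^ (a - 3))), (1 / 2 : ℝ) ^ Nat.log 2 (L - 1)
        = ∑ n ∈ ((Finset.range (N + 1)).filter (fun L => L - 1 ∈ Finset.Ico 1 (2 ^ (a - 3)))).image (fun L => L - 1), (1 / 2 : ℝ) ^ Nat.log 2 n := by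
          rw [Finset.sum_image]
          intro L hL L' hL' he
          rw [Finset.mem_coe, Finset.mem_filter, Finset.mem_Ico] at hL hL'
          simp only at he
          omega
      _ ≤ ∑ n ∈ Finset.Ico 1 (2 ^ (a - 3)), (1 / 2 : ℝ) ^ Nat.log 2 n := by
          refine Finset.sum_le_sum_of_subset_of_nonneg ?_ (fun _ _ _ => by positivity)
          intro n hn
          rw [Finset.mem_image] at hn
          obtain ⟨L, hL, rfl⟩ := hn
          rw [Finset.mem_filter] at hL
          exact hL.2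
      _ = (a - 3 : ℕ) := sum_log _
  · rw [Finset.sum_const, Finset.card_range, nsmul_eq_mul]
    push_cast
    rw [mul_one_div]
  · rw [← Finset.sum_filter, Finset.sum_const, nsmul_eq_mul, mul_one]
    have h1 : (Finset.range (N + 1)).filter (fun L => ∃ j, j ≤ a - 3 ∧ L = 2 ^ j) ⊆ (Finset.range (a - 3 + 1)).image (fun j => 2 ^ j) := by
      intro L hL
      rw [Finset.mem_filter] at hL
      obtain ⟨_, j, hj, rfl⟩ := hL
      rw [Finset.mem_image]
      exact ⟨j, Finset.mem_range.2 (by omega), rfl⟩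
    have h2 := (Finset.card_le_card h1).trans Finset.card_image_le
    rw [Finset.card_range] at h2
    exact_mod_cast h2

end Pool.Agent.H22.HC
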