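import Mathlib
import Pool.Agent.H31.HS.WDef

/-!
# The statements of SPLIT (rule R2)

`zS`: the number `z` of unit bits; `yS`: the number `y'` of bits of the regions; `sS`: the new `u`.
`SplitKR`: SPLIT in numberings with digits of `k` bits, `4 ∣ k`, `7 Q + 2 ≤ 2^k`; `SplitOR`: SPLIT with given sorting procedures for planes of `2 Q` bits.
-/

set_option autoImplicit false

namespace Pool.Agent.H22.HC

open Pool.Agent.H31.HS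

/-- number of unit bits -/
def zS (m Q : ℕ) : ℕ := Q * ((m - 6 * Q) / (3 * Q))

/-- number of bits of the regions -/
def yS (m u Q : ℕ) : ℕ := Q * ((m - zS m Q + u + 2 * Q - 1) / Q)

/-- the runs of the regions have length `2 ^ (yS - sS)` -/
def sS (m u Q : ℕ) : ℕ := yS m u Q + zS m Q - m

/-- SPLIT in numberings with digits of `k` bits (statement) -/
def SplitKR (c0 : ℕ) : Prop := ∀ (V Ω R : Type) (m : ℕ) (M : Mach V Ω R) (S W Lam k n r0 Q e u cc : ℕ) (B : Blk V m),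
  Lines M Lam B k n r0 → 4 ∣ k → k ∣ Q → 7 * Q + 2 ≤ 2 ^ k → 2 ^ m < W → 1 ≤ S → S * W ^ 20 ≤ Lam → Q ≤ u → 6 * u ≤ m → 120 * Q ≤ m →
  2 ^ 4 * (m + 2) ≤ 2 ^ Q → 2 ^ 8 * (e + 4) ≤ 2 ^ Q →
  ∀ h : 0 + yS m u Q ≤ m, CanM M S (B.bits 0 (yS m u Q) h) (sS m u Q) Q (e + 4) cc → CanM M S B u Q e (cc + c0 * n * r0)

/-- SPLIT with given procedures for the planes (statement) -/
def SplitOR (c0 : ℕ) : Prop := ∀ (V Ω R : Type) (m : ℕ) (M : Mach V Ω R) (S W Lam k n r0 Q e u S2 cc : ℕ) (B : Blk V m),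
  Lines M Lam B k n r0 → k ∣ Q → 1 ≤ Q → 2 ^ m < W → 1 ≤ S → S * W ^ 20 ≤ Lam → Q ≤ u → 6 * u ≤ m → 120 * Q ≤ m →
  2 ^ 4 * (m + 2) ≤ 2 ^ Q → 2 ^ 8 * (e + 4) ≤ 2 ^ Q →
  (∀ i j (hi : i + Q ≤ m) (hj : j + Q ≤ m) (hij : i + Q ≤ j),
    CanS M (S * W ^ 12) (Blk.prod (B.bits j Q hj) (B.bits i Q hi) (comm_bits_bits B hi hj hij)) (fun _ => True) S2) →
  ∀ h : 0 + yS m u Q ≤ m, CanM M S (B.bits 0 (yS m u Q) h) (sS m u Q) Q (e + 4) cc →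
    CanM M S B u Q e (cc + c0 * n * r0 + zS m Q / Q * S2)

theorem zS_spec {m Q : ℕ} (hQ : 1 ≤ Q) (hm : 6 * Q ≤ m) : 3 * zS m Q + 6 * Q ≤ m ∧ m < 3 * zS m Q + 9 * Q ∧ Q ∣ zS m Q := by
  obtain ⟨t, ht⟩ : ∃ t, t = (m - 6 * Q) / (3 * Q) := ⟨_, rfl⟩
  have h1 : 3 * Q * t ≤ m - 6 * Q := by
    rw [ht]
    exact Nat.mul_div_le _ _
  have h2 : m - 6 * Q < 3 * Q * (t + 1) := by
    rw [ht]
    exact Nat.lt_mul_div_succ _ (by omega)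
  have h3 : zS m Q = Q * t := by
    unfold zS
    rw [ht]
  have h4 : 3 * Q * t = 3 * (Q * t) := by ring
  have h5 : 3 * Q * (t + 1) = 3 * (Q * t) + 3 * Q := by ring
  refine ⟨?_, ?_, ⟨t, h3⟩⟩ <;> rw [h3] <;> omega

theorem yS_spec {m u Q : ℕ} (hQ : 1 ≤ Q) (hum : 6 * u ≤ m) (hm : 120 * Q ≤ m) :
    Q ∣ yS m u Q ∧ m - zS m Q + u + Q ≤ yS m u Q ∧ yS m u Q < m - zS m Q + u + 2 * Q ∧ 8 * yS m u Q ≤ 7 * m ∧ 2 * m ≤ 3 * yS m u Q := by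
  obtain ⟨hz1, hz2, _⟩ := zS_spec hQ (by omega : 6 * Q ≤ m)
  obtain ⟨x, hx⟩ : ∃ x, x = m - zS m Q + u + 2 * Q - 1 := ⟨_, rfl⟩
  have h1 : Q * (x / Q) ≤ x := Nat.mul_div_le _ _
  have h2 : x < Q * (x / Q + 1) := Nat.lt_mul_div_succ _ (by omega)
  have h3 : Q * (x / Q + 1) = Q * (x / Q) + Q := by ring
  have h4 : yS m u Q = Q * (x / Q) := by
    unfold yS
    rw [hx]
  refine ⟨⟨_, h4⟩, ?_, ?_, ?_, ?_⟩ <;> rw [h4] <;> omega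

theorem sS_spec {m u Q : ℕ} (hQ : 1 ≤ Q) (hum : 6 * u ≤ m) (hm : 120 * Q ≤ m) :
    u + Q ≤ sS m u Q ∧ sS m u Q < u + 2 * Q ∧ m + sS m u Q = yS m u Q + zS m Q ∧ sS m u Q ≤ yS m u Q := by
  obtain ⟨hz1, hz2, _⟩ := zS_spec hQ (by omega : 6 * Q ≤ m)
  obtain ⟨h1, h2, h3, h4, h5⟩ := yS_spec hQ hum hm
  unfold sS
  refine ⟨by omega, by omega, by omega, by omega⟩

end Pool.Agent.H22.HC
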