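import Mathlib
import Pool.Agent.H22.HC.Rec
import Pool.Agent.H22.HC.Reg
import Pool.Agent.H22.HC.Conv
import Pool.Agent.H22.HC.Planes
import Pool.Agent.H22.HC.SpSt
import Pool.Agent.H31.HS.LinF

/-!
# The views of the outer recursion

`lv D y = log D - log y`, `rg D a b y` the size of the star digits for `y` bits.  `Vw D a b y B`: `B` is a view of `y` bits.
`low_good`: low bits of a view, cost of the change of the regime.  `vw_base`: small regions by columnsort.  `vw_split`: rule R2.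
-/

set_option autoImplicit false

namespace Pool.Agent.H22.HC

open Pool.Agent.H31.HS

/-- number of scales below the top -/
def lv (D y : ℕ) : ℕ := Nat.log 2 D - Nat.log 2 y

/-- size of the star digits -/
def rg (D a b y : ℕ) : ℕ := regL a b (lv D y)

/-- views of `y` bits -/
def Vw (D a b y : ℕ) (B : Blk (Node D) y) : Prop :=
  y ≤ D ∧ (y = D ∨ 2 ^ a ∣ y) ∧ ((rg D a b y = 0 ∧ ∃ (c : Fin y → Fin D) (hc : Function.Injective c), B = ordBlk c hc) ∨
    ∃ k, rg D a b y = k ∧ 1 ≤ k ∧ ∃ (c : Fin y → Fin D) (hc : Function.Injective c) (β : ℕ → Node k → Fin D) (hβ : StarC c β (y / k)),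
      B = starBlk c hc β (y / k) hβ.bi)

/-- density parameter -/
def eD (a y : ℕ) : ℕ := 2 ^ (2 ^ a - 8) - 4 * y

theorem rg_spec {D a b y : ℕ} (hb : b ≤ a - 3) (hy : 0 < y) (hD : 0 < D) (h : rg D a b y ≠ 0) :
    ∃ j, b ≤ j ∧ j ≤ a - 3 ∧ rg D a b y = 2 ^ j ∧ y * 2 ^ (2 ^ j) ≤ D := by
  obtain ⟨j, h1, h2, h3, h4⟩ := regL_pos hb h
  refine ⟨j, h1, h2, h3, ?_⟩
  have h5 : y < 2 ^ (Nat.log 2 y + 1) := Nat.lt_pow_succ_log_self (by norm_num) y
  have h6 : 2 ^ Nat.log 2 D ≤ D := Nat.pow_log_le_self 2 (by omega)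
  have h7 : Nat.log 2 y + 1 + 2 ^ j ≤ Nat.log 2 D := by
    unfold lv at h4
    have : 0 < 2 ^ j := by positivity
    omega
  calc y * 2 ^ (2 ^ j) ≤ 2 ^ (Nat.log 2 y + 1) * 2 ^ (2 ^ j) := Nat.mul_le_mul_right _ h5.le
    _ = 2 ^ (Nat.log 2 y + 1 + 2 ^ j) := by rw [← pow_add]
    _ ≤ 2 ^ Nat.log 2 D := Nat.pow_le_pow_right (by norm_num) h7
    _ ≤ D := h6

theorem lv_near {D y y' : ℕ} (h1 : y' ≤ y) (h2 : y ≤ D) (h3 : y ≤ 2 * y') (h0 : 0 < y') : lv D y' = lv D y ∨ lv D y' = lv D y + 1 := by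
  have h4 : Nat.log 2 y' ≤ Nat.log 2 y := Nat.log_mono_right h1
  have h5 : Nat.log 2 y ≤ Nat.log 2 D := Nat.log_mono_right h2
  have h6 : Nat.log 2 y ≤ Nat.log 2 (2 * y') := Nat.log_mono_right h3
  have h7 : Nat.log 2 (2 * y') = Nat.log 2 y' + 1 := by
    rw [mul_comm, Nat.log_mul_base (by norm_num) (by omega)]
  unfold lv
  omega

theorem rg_change {D a b y y' : ℕ} (h1 : y' ≤ y) (h2 : y ≤ D) (h3 : y ≤ 2 * y') (h0 : 0 < y') (h : rg D a b y' ≠ rg D a b y) :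
    regL a b (lv D y + 1) ≠ regL a b (lv D y) := by
  unfold rg at h
  rcases lv_near h1 h2 h3 h0 with h4 | h4
  · rw [h4] at h
    exact absurd rfl h
  · rw [h4] at h
    exact h

variable {D : ℕ} {Ω R : Type}

theorem pow_dvd_div {j a y : ℕ} (hj : j ≤ a) (hy : 2 ^ a ∣ y) : y = y / 2 ^ j * 2 ^ j :=
  (Nat.div_mul_cancel ((pow_dvd_pow 2 hj).trans hy)).symm

theorem blocks_ok {j y : ℕ} (h : y * 2 ^ (2 ^ j) ≤ D) : y / 2 ^ j * 2 ^ (2 ^ j) ≤ D :=
  (Nat.mul_le_mul_right _ (Nat.div_le_self _ _)).trans h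

/-- every coordinate numbering of `y'` bits -/
theorem ord_good {M : Mach (Node D) Ω R} {Lam s0 S Q a b u c y' : ℕ} {e : ℕ → ℕ} (hM : LinkStep M Lam s0) (hS1 : S + 1 ≤ Lam) (hb : b ≤ a - 3)
    (hy0 : 0 < y') (hyD : y' ≤ D) (hyQ : 2 ^ a ∣ y') (h : Good M S Q e (Vw D a b) y' u c) (c' : Fin y' → Fin D) (hc' : Function.Injective c') :
    CanM M S (ordBlk c' hc') u Q (e y') (c + if rg D a b y' = 0 then 0 else 4 * y' * s0) := by
  by_cases hr : rg D a b y' = 0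
  · rw [if_pos hr, add_zero]
    exact h _ ⟨hyD, Or.inr hyQ, Or.inl ⟨hr, c', hc', rfl⟩⟩
  · rw [if_neg hr]
    obtain ⟨j, h1, h2, h3, h4⟩ := rg_spec hb hy0 (by omega) hr
    obtain ⟨β, hβ⟩ := exists_blocks (k := 2 ^ j) (m := y' / 2 ^ j) (by omega) c' hc' (pow_dvd_div (by omega) hyQ) (blocks_ok h4)
    refine canM_ord_of_star hM hS1 hc' hβ.bi Nat.one_le_two_pow hβ.ym ?_
    exact h _ ⟨hyD, Or.inr hyQ, Or.inr ⟨2 ^ j, h3, Nat.one_le_two_pow, c', hc', β, hβ, rfl⟩⟩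

/-- every star numbering of `y'` bits -/
theorem star_good {M : Mach (Node D) Ω R} {Lam s0 S Q a b u c y' k m' : ℕ} {e : ℕ → ℕ} (hM : LinkStep M Lam s0) (hS1 : S + 1 ≤ Lam) (hb : b ≤ a - 3)
    (hy0 : 0 < y') (hyD : y' ≤ D) (hyQ : 2 ^ a ∣ y') (h : Good M S Q e (Vw D a b) y' u c) (c' : Fin y' → Fin D) (hc' : Function.Injective c')
    (hk : 1 ≤ k) (β : ℕ → Node k → Fin D) (hβ : StarC c' β m') :
    CanM M S (starBlk c' hc' β m' hβ.bi) u Q (e y') (c + if rg D a b y' = k then 0 else 8 * y' * s0) := by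
  by_cases hr : rg D a b y' = k
  · rw [if_pos hr, add_zero]
    have hm : m' = y' / k := by
      have := hβ.ym
      exact (Nat.div_eq_of_eq_mul_left (by omega) this).symm
    subst hm
    exact h _ ⟨hyD, Or.inr hyQ, Or.inr ⟨k, hr, hk, c', hc', β, hβ, rfl⟩⟩
  · rw [if_neg hr]
    have h1 := ord_good hM hS1 hb hy0 hyD hyQ h c' hc'
    have h2 := canM_star_of_ord hM hS1 hc' hβ.bi hk hβ.ym h1
    refine CanM.cost_mono h2 ?_
    have h3 : (if rg D a b y' = 0 then 0 else 4 * y' * s0) ≤ 4 * y' * s0 := by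
      split_ifs
      · exact Nat.zero_le _
      · exact le_refl _
    have h4 : 8 * y' * s0 = 4 * y' * s0 + 4 * y' * s0 := by ring
    omega

/-- low bits of a view -/
theorem low_good {M : Mach (Node D) Ω R} {Lam s0 S Q a b u c y y' : ℕ} {e : ℕ → ℕ} (hM : LinkStep M Lam s0) (hS1 : S + 1 ≤ Lam) (hb : b ≤ a - 3)
    {B : Blk (Node D) y} (hB : Vw D a b y B) (hy0 : 0 < y') (hyQ : 2 ^ a ∣ y') (h' : 0 + y' ≤ y) (h : Good M S Q e (Vw D a b) y' u c) :
    CanM M S (B.bits 0 y' h') u Q (e y') (c + if rg D a b y' = rg D a b y then 0 else 8 * y * s0) := by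
  obtain ⟨hyD, hyy, hB'⟩ := hB
  have hy8 : 8 * y' * s0 ≤ 8 * y * s0 := Nat.mul_le_mul_right _ (by omega)
  rcases hB' with ⟨hr, c', hc', rfl⟩ | ⟨k, hr, hk, c', hc', β, hβ, rfl⟩
  · rw [ordBlk_bits, hr]
    refine CanM.cost_mono (ord_good hM hS1 hb hy0 (by omega) hyQ h _ _) ?_
    split_ifs
    · exact le_refl _
    · have : 4 * y' * s0 ≤ 8 * y' * s0 := Nat.mul_le_mul_right _ (by omega)
      omega
  · have hrk : rg D a b y ≠ 0 := by omega
    obtain ⟨j, h1, h2, h3, h4⟩ := rg_spec hb (by omega) (by omega) hrk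
    have hkj : k = 2 ^ j := by rw [← hr, h3]
    subst hkj
    have hm' : y' = y' / 2 ^ j * 2 ^ j := pow_dvd_div (by omega) hyQ
    have hle : y' / 2 ^ j ≤ y / 2 ^ j := Nat.div_le_div_right (by omega)
    have key : ∀ (l : ℕ) (hl : 0 + l ≤ y) (hl' : 0 + y' / 2 ^ j * 2 ^ j ≤ y), l = y' / 2 ^ j * 2 ^ j → ∀ cc,
        CanM M S ((starBlk c' hc' β (y / 2 ^ j) hβ.bi).bits 0 (y' / 2 ^ j * 2 ^ j) hl') u Q (e y') cc →
        CanM M S ((starBlk c' hc' β (y / 2 ^ j) hβ.bi).bits 0 l hl) u Q (e y') cc := by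
      intro l hl hl' he cc h
      subst he
      exact h
    have hl' : 0 + y' / 2 ^ j * 2 ^ j ≤ y := by omega
    refine key y' h' hl' hm' _ ?_
    rw [starBlk_low hc' hβ hle hl']
    have hlow := hβ.low hle hl'
    -- the same for the product form of the number of bits
    have key2 : ∀ (l : ℕ) (c'' : Fin l → Fin D) (hc'' : Function.Injective c'') (hs : StarC c'' β (y' / 2 ^ j)), l = y' →
        CanM M S (starBlk c'' hc'' β (y' / 2 ^ j) hs.bi) u Q (e y') (c + if rg D a b y' = 2 ^ j then 0 else 8 * y' * s0) := by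
      intro l c'' hc'' hs hl
      subst hl
      exact star_good hM hS1 hb hy0 (by omega) hyQ h c'' hc'' hk β hs
    refine CanM.cost_mono (key2 _ (subC c' 0 (y' / 2 ^ j * 2 ^ j) hl') (subC_inj hc' 0 _ hl') hlow hm'.symm) ?_
    rw [h3]
    split_ifs
    · exact le_refl _
    · omega

end Pool.Agent.H22.HC
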