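import Mathlib
import Pool.Agent.H22.HC.Vw

/-!
# The outer recursion

`vw_base`: regions of at most `Y0 Q` bits, by columnsort in the largest star numbering.  `vw_r2`: rule R2.  `outer`: sorting in the coordinate numbering of all `D`
coordinates, cost `O(D (2^b + a))`, where `Q = 2^a`.
-/

set_option autoImplicit false

namespace Pool.Agent.H22.HC

open Pool.Agent.H31.HS

variable {D : ℕ} {Ω R : Type}

/-- numerical hypotheses on `D`, `Q = 2^a` and the smallest size `2^b` of star digits -/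
structure Par (Y0 D a b : ℕ) : Prop where
  b2 : 2 ≤ b
  ba : b ≤ a - 3
  h1 : Y0 * 2 ^ a * 2 ^ (2 ^ (a - 3) + 1) ≤ D
  h2 : 7 * 2 ^ a + 2 ≤ 2 ^ 2 ^ b
  h3 : 2 ^ 12 * (D + 2) ≤ 2 ^ 2 ^ a

/-- increasing majorant -/
def csum (cs : ℕ → ℕ) (n : ℕ) : ℕ := ∑ i ∈ Finset.range (n + 1), cs i

theorem le_csum (cs : ℕ → ℕ) {i n : ℕ} (h : i ≤ n) : cs i ≤ csum cs n :=
  Finset.single_le_sum (f := cs) (fun _ _ => Nat.zero_le _) (Finset.mem_range.2 (by omega))

theorem canM_of_canS {V : Type} {M : Mach V Ω R} {m S u Q e c : ℕ} {B : Blk V m} (h : CanS M S B (fun _ => True) c) : CanM M S B u Q e c := by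
  intro X key P a hkey hSm ha hdist _ _
  exact h X key P a hkey hSm ha hdist (fun _ => trivial)

theorem rg_small {Y0 a b y : ℕ} (hp : Par Y0 D a b) (hy : y ≤ Y0 * 2 ^ a) (hy0 : 0 < y) : rg D a b y = 2 ^ (a - 3) := by
  have h1 : 2 ^ (Nat.log 2 y + (2 ^ (a - 3) + 1)) ≤ D := by
    rw [pow_add]
    exact (Nat.mul_le_mul_right _ ((Nat.pow_log_le_self 2 (by omega)).trans hy)).trans hp.h1
  have h2 : Nat.log 2 y + (2 ^ (a - 3) + 1) ≤ Nat.log 2 D := Nat.le_log_of_pow_le (by norm_num) h1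
  have h3 : 2 ^ (a - 3) + 1 ≤ lv D y := by
    unfold lv
    omega
  have h4 : 2 ^ b ≤ 2 ^ (a - 3) := Nat.pow_le_pow_right (by norm_num) hp.ba
  unfold rg regL
  rw [if_neg (by omega), min_eq_right]
  exact Nat.le_log_of_pow_le (by norm_num) (by omega)

theorem vw_base {cs : ℕ → ℕ} (hcs : ColS cs) {M : Mach (Node D) Ω R} {Lam s0 S W Y0 a b : ℕ} (hM : LinkStep M Lam s0) (hp : Par Y0 D a b)
    (hW : 2 ^ D < W) (hS : S * W ^ 3 ≤ Lam) (e : ℕ → ℕ) (y u : ℕ) (hy : y ≤ Y0 * 2 ^ a) (hu : 2 ^ a ≤ u) (huy : u ≤ y) :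
    Good M S (2 ^ a) e (Vw D a b) y u (csum cs (32 * Y0) * (2 * s0)) := by
  have hb2 := hp.b2
  have hba := hp.ba
  have h2a : 0 < 2 ^ a := by positivity
  have hr := rg_small hp hy (by omega)
  rintro B ⟨hyD, hyy, hB⟩
  rcases hB with ⟨h0, _⟩ | ⟨k, hk0, hk, c', hc', β, hβ, rfl⟩
  · rw [hr] at h0
    exact absurd h0 (by positivity)
  · have hkk : k = 2 ^ (a - 3) := by rw [← hk0, hr]
    subst hkk
    have h4 : 4 ∣ 2 ^ (a - 3) := by
      have : (2 : ℕ) ^ 2 ∣ 2 ^ (a - 3) := pow_dvd_pow 2 (by omega)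
      exact this
    have hL := lines_star hM hc' hβ hk
    have hy8 : (2 : ℕ) ^ a = 8 * 2 ^ (a - 3) := by
      have : a = a - 3 + 3 := by omega
      conv_lhs => rw [this, pow_add]
      ring
    have hm : y = y / 2 ^ (a - 3) * 2 ^ (a - 3) := hβ.ym
    have hN : 0 + 4 * (y / 2 ^ (a - 3)) * (2 ^ (a - 3) / 4) ≤ y := by
      obtain ⟨t, ht⟩ := h4
      have h5 : 2 ^ (a - 3) / 4 = t := by omega
      have h6 : 4 * (y / 2 ^ (a - 3)) * t = y / 2 ^ (a - 3) * (4 * t) := by ring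
      rw [h5, h6, ← ht]
      omega
    have hWy : 2 ^ y < W := (Nat.pow_le_pow_right (by norm_num) hyD).trans_lt hW
    have h5 := hcs (Node D) Ω R y M S W Lam (2 ^ (a - 3)) (y / 2 ^ (a - 3)) (2 * s0) (4 * (y / 2 ^ (a - 3))) _ h4 hL hWy hS hN
    have hNe : 4 * (y / 2 ^ (a - 3)) * (2 ^ (a - 3) / 4) = y := by
      obtain ⟨t, ht⟩ := h4
      have h5 : 2 ^ (a - 3) / 4 = t := by omega
      have h6 : 4 * (y / 2 ^ (a - 3)) * t = y / 2 ^ (a - 3) * (4 * t) := by ring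
      rw [h5, h6, ← ht]
      omega
    have key : ∀ (l : ℕ) (hl : 0 + l ≤ y), l = y → ∀ cc, CanS M S ((starBlk c' hc' β (y / 2 ^ (a - 3)) hβ.bi).bits 0 l hl) (fun _ => True) cc →
        CanS M S (starBlk c' hc' β (y / 2 ^ (a - 3)) hβ.bi) (fun _ => True) cc := by
      intro l hl he cc h
      subst he
      rwa [bits_all] at h
    have h6 := key _ hN hNe _ h5
    refine canM_of_canS (CanS.cost_mono h6 ?_)
    refine Nat.mul_le_mul_right _ (le_csum cs ?_)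
    have h7 : y / 2 ^ (a - 3) ≤ Y0 * 8 := by
      have h8 : y ≤ Y0 * 8 * 2 ^ (a - 3) := by
        rw [mul_assoc, ← hy8]
        exact hy
      exact Nat.div_le_of_le_mul (by rw [mul_comm]; exact h8)
    omega

theorem eD_step {Y0 a b y y' : ℕ} (hp : Par Y0 D a b) (hy : y ≤ D) (hyy : y' < y) : eD a y + 4 ≤ eD a y' := by
  have h3 := hp.h3
  have hb2 := hp.b2
  have hba := hp.ba
  have h4 : 32 ≤ 2 ^ a := by
    have : (2 : ℕ) ^ 5 ≤ 2 ^ a := Nat.pow_le_pow_right (by norm_num) (by omega)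
    exact this
  have h5 : (2 : ℕ) ^ 2 ^ a = 2 ^ 8 * 2 ^ (2 ^ a - 8) := by
    rw [← pow_add]
    congr 1
    omega
  unfold eD
  rw [h5] at h3
  generalize 2 ^ (2 ^ a - 8) = E at h3 ⊢
  omega

theorem eD_le {Y0 a b y : ℕ} (hp : Par Y0 D a b) (hy : 1 ≤ y) : 2 ^ 8 * (eD a y + 4) ≤ 2 ^ 2 ^ a ∨ D < y := by
  by_cases hyD : D < y
  · exact Or.inr hyD
  · left
    have h3 := hp.h3
    have hb2 := hp.b2
    have hba := hp.ba
    have h4 : 32 ≤ 2 ^ a := by
      have : (2 : ℕ) ^ 5 ≤ 2 ^ a := Nat.pow_le_pow_right (by norm_num) (by omega)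
      exact this
    have h5 : (2 : ℕ) ^ 2 ^ a = 2 ^ 8 * 2 ^ (2 ^ a - 8) := by
      rw [← pow_add]
      congr 1
      omega
    unfold eD
    rw [h5] at h3 ⊢
    generalize 2 ^ (2 ^ a - 8) = E at h3 ⊢
    omega

/-- cost of one split -/
def spD (K1 s0 D a b y : ℕ) : ℕ :=
  (if rg D a b y = 0 then K1 * y else K1 * (y / rg D a b y)) + if regL a b (lv D y + 1) ≠ regL a b (lv D y) then 8 * y * s0 else 0

theorem vw_r2 {cs : ℕ → ℕ} (hcs : ColS cs) {c0 c0' : ℕ} (hK : SplitKR c0) (hO : SplitOR c0') {M : Mach (Node D) Ω R} {Lam s0 S W Y0 a b : ℕ}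
    (hM : LinkStep M Lam s0) (hp : Par Y0 D a b) (hY : 120 ≤ Y0) (hW : 2 ^ D < W) (hS1 : 1 ≤ S) (hS : S * W ^ 20 ≤ Lam) {K1 : ℕ}
    (hK1 : 2 * c0 * s0 ≤ K1) (hK2 : (c0' + 36 + 2 * cs 64) * s0 ≤ K1) (y u : ℕ) (hy : Y0 * 2 ^ a < y) (hu : 2 ^ a ≤ u) (hu6 : 6 * u ≤ y) (c : ℕ)
    (h : Good M S (2 ^ a) (eD a) (Vw D a b) (yS y u (2 ^ a)) (sS y u (2 ^ a)) c) :
    Good M S (2 ^ a) (eD a) (Vw D a b) y u (c + spD K1 s0 D a b y) := by
  have hb2 := hp.b2
  have hba := hp.ba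
  have h2a : 32 ≤ 2 ^ a := by
    have : (2 : ℕ) ^ 5 ≤ 2 ^ a := Nat.pow_le_pow_right (by norm_num) (by omega)
    exact this
  have hYa : 120 * 2 ^ a ≤ Y0 * 2 ^ a := Nat.mul_le_mul_right _ hY
  have h120 : 120 * 2 ^ a ≤ y := by omega
  have hW1 : 1 ≤ W := by
    have : 0 < 2 ^ D := by positivity
    omega
  have hWp : ∀ i, i ≤ 20 → W ^ i ≤ W ^ 20 := fun i hi => Nat.pow_le_pow_right hW1 hi
  have hSl : S + 1 ≤ Lam := by
    have h2 : 2 ≤ W := by
      have : 0 < 2 ^ D := by positivity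
      omega
    have h3 : 2 ≤ W ^ 20 := h2.trans (Nat.le_self_pow (by norm_num) W)
    calc S + 1 ≤ S * 2 := by omega
      _ ≤ S * W ^ 20 := Nat.mul_le_mul_left _ h3
      _ ≤ Lam := hS
  intro B hB
  obtain ⟨hyD, hyy, hB'⟩ := id hB
  obtain ⟨z1, z2, z3⟩ := zS_spec (m := y) (Q := 2 ^ a) (by omega) (by omega)
  obtain ⟨y1, y2, y3, y4, y5⟩ := yS_spec (m := y) (u := u) (Q := 2 ^ a) (by omega) hu6 h120
  have hy' : 0 + yS y u (2 ^ a) ≤ y := by omega
  have hlow := low_good hM hSl hba hB (by omega) y1 hy' h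
  have he : eD a y + 4 ≤ eD a (yS y u (2 ^ a)) := eD_step hp hyD (by omega)
  have hlow' := CanM.e_mono hlow he
  have hWy : 2 ^ y < W := (Nat.pow_le_pow_right (by norm_num) hyD).trans_lt hW
  have h24 : 2 ^ 4 * (y + 2) ≤ 2 ^ 2 ^ a := by
    have := hp.h3
    omega
  have h28 : 2 ^ 8 * (eD a y + 4) ≤ 2 ^ 2 ^ a := by
    rcases eD_le hp (by omega : 1 ≤ y) with h | h
    · exact h
    · omega
  have hconv : (if rg D a b (yS y u (2 ^ a)) = rg D a b y then 0 else 8 * y * s0) ≤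
      if regL a b (lv D y + 1) ≠ regL a b (lv D y) then 8 * y * s0 else 0 := by
    by_cases hc : rg D a b (yS y u (2 ^ a)) = rg D a b y
    · rw [if_pos hc]
      exact Nat.zero_le _
    · rw [if_neg hc, if_pos (rg_change (by omega) hyD (by omega) (by omega) hc)]
  rcases hB' with ⟨hr, c', hc', rfl⟩ | ⟨k, hr, hk, c', hc', β, hβ, rfl⟩
  · -- coordinate numbering
    have hL := lines_ord hM c' hc'
    have hpl : ∀ i j (hi : i + 2 ^ a ≤ y) (hj : j + 2 ^ a ≤ y) (hij : i + 2 ^ a ≤ j),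
        CanS M (S * W ^ 12) (Blk.prod ((ordBlk c' hc').bits j (2 ^ a) hj) ((ordBlk c' hc').bits i (2 ^ a) hi)
          (comm_bits_bits (ordBlk c' hc') hi hj hij)) (fun _ => True) ((36 + 2 * cs 64) * 2 ^ a * s0) := by
      intro i j hi hj hij
      have hd : ∀ i' j', subC c' j (2 ^ a) hj i' ≠ subC c' i (2 ^ a) hi j' := by
        intro i' j' he
        have h1 := hc' he
        rw [Fin.mk.injEq] at h1
        have := i'.2
        have := j'.2
        omega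
      have key : ∀ (B1 B2 : Blk (Node D) (2 ^ a)) (hcm : Blk.Comm B1 B2),
          B1 = ordBlk (subC c' j (2 ^ a) hj) (subC_inj hc' j (2 ^ a) hj) → B2 = ordBlk (subC c' i (2 ^ a) hi) (subC_inj hc' i (2 ^ a) hi) →
          CanS M (S * W ^ 12) (Blk.prod B1 B2 hcm) (fun _ => True) ((36 + 2 * cs 64) * 2 ^ a * s0) := by
        intro B1 B2 hcm e1 e2
        subst e1 e2
        rw [ordBlk_prod _ _ _ _ hd]
        have key2 : ∀ (l : ℕ) (c'' : Fin l → Fin D) (hc'' : Function.Injective c''), l = 2 * 2 ^ a →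
            CanS M (S * W ^ 12) (ordBlk c'' hc'') (fun _ => True) ((36 + 2 * cs 64) * 2 ^ a * s0) := by
          intro l c'' hc'' hl
          subst hl
          refine planes_ord hcs (W := W) hM ?_ (by omega) ?_ ?_ ?_ ?_ c'' hc''
          · have : (2 : ℕ) ^ 5 ∣ 2 ^ a := pow_dvd_pow 2 (by omega)
            exact this
          · have h8 : 2 ^ a / 8 = 2 ^ (a - 3) := by
              have : a = a - 3 + 3 := by omega
              conv_lhs => rw [this, pow_add]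
              omega
            rw [h8]
            have h1 := hp.h1
            have h9 : 16 * 2 ^ 2 ^ (a - 3) ≤ Y0 * 2 ^ a * 2 ^ (2 ^ (a - 3) + 1) := by
              rw [pow_succ 2 (2 ^ (a - 3))]
              have h10 : 16 ≤ Y0 * 2 ^ a := by omega
              calc 16 * 2 ^ 2 ^ (a - 3) ≤ Y0 * 2 ^ a * 2 ^ 2 ^ (a - 3) := Nat.mul_le_mul_right _ h10
                _ ≤ Y0 * 2 ^ a * (2 ^ 2 ^ (a - 3) * 2) := Nat.mul_le_mul_left _ (by omega)
            omega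
          · exact (Nat.pow_le_pow_right (by norm_num) (by omega)).trans_lt hW
          · calc S * W ^ 12 * W ^ 3 = S * W ^ 15 := by ring
              _ ≤ S * W ^ 20 := Nat.mul_le_mul_left _ (hWp 15 (by norm_num))
              _ ≤ Lam := hS
          · have hW2 : 2 ≤ W := by
              have : 0 < 2 ^ D := by positivity
              omega
            have h11 : 1 ≤ S * W ^ 12 := Nat.mul_pos hS1 (by positivity)
            calc S * W ^ 12 + 1 ≤ S * W ^ 12 * 2 := by omega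
              _ ≤ S * W ^ 12 * W := Nat.mul_le_mul_left _ hW2
              _ = S * W ^ 13 := by ring
              _ ≤ S * W ^ 20 := Nat.mul_le_mul_left _ (hWp 13 (by norm_num))
              _ ≤ Lam := hS
        exact key2 _ _ _ (by ring)
      exact key _ _ _ (ordBlk_bits c' hc' j (2 ^ a) hj) (ordBlk_bits c' hc' i (2 ^ a) hi)
    have h5 := hO (Node D) Ω R y M S W Lam 1 y s0 (2 ^ a) (eD a y) u _ _ (ordBlk c' hc') hL (one_dvd _) (by omega) hWy hS1 hS hu hu6 h120 h24 h28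
      hpl hy' hlow'
    refine CanM.cost_mono h5 ?_
    unfold spD
    rw [if_pos hr]
    have h6 : zS y (2 ^ a) / 2 ^ a * ((36 + 2 * cs 64) * 2 ^ a * s0) ≤ (36 + 2 * cs 64) * s0 * y := by
      calc zS y (2 ^ a) / 2 ^ a * ((36 + 2 * cs 64) * 2 ^ a * s0) = (zS y (2 ^ a) / 2 ^ a * 2 ^ a) * ((36 + 2 * cs 64) * s0) := by ring
        _ = zS y (2 ^ a) * ((36 + 2 * cs 64) * s0) := by rw [Nat.div_mul_cancel z3]
        _ ≤ y * ((36 + 2 * cs 64) * s0) := Nat.mul_le_mul_right _ (by omega)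
        _ = (36 + 2 * cs 64) * s0 * y := by ring
    have h7 : c0' * y * s0 + (36 + 2 * cs 64) * s0 * y ≤ K1 * y := by
      calc c0' * y * s0 + (36 + 2 * cs 64) * s0 * y = (c0' + 36 + 2 * cs 64) * s0 * y := by ring
        _ ≤ K1 * y := Nat.mul_le_mul_right _ hK2
    omega
  · -- star numbering
    have hrk : rg D a b y ≠ 0 := by omega
    obtain ⟨j, j1, j2, j3, j4⟩ := rg_spec hba (by omega) (by omega) hrk
    have hkj : k = 2 ^ j := by rw [← hr, j3]
    subst hkj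
    have hL := lines_star hM hc' hβ hk
    have h4k : 4 ∣ 2 ^ j := by
      have : (2 : ℕ) ^ 2 ∣ 2 ^ j := pow_dvd_pow 2 (by omega)
      exact this
    have hkQ : 2 ^ j ∣ 2 ^ a := pow_dvd_pow 2 (by omega)
    have h7Q : 7 * 2 ^ a + 2 ≤ 2 ^ 2 ^ j := by
      refine hp.h2.trans (Nat.pow_le_pow_right (by norm_num) (Nat.pow_le_pow_right (by norm_num) j1))
    have h5 := hK (Node D) Ω R y M S W Lam (2 ^ j) (y / 2 ^ j) (2 * s0) (2 ^ a) (eD a y) u _ _ hL h4k hkQ h7Q hWy hS1 hS hu hu6 h120 h24 h28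
      hy' hlow'
    refine CanM.cost_mono h5 ?_
    unfold spD
    rw [if_neg hrk, hr]
    have h7 : c0 * (y / 2 ^ j) * (2 * s0) ≤ K1 * (y / 2 ^ j) := by
      calc c0 * (y / 2 ^ j) * (2 * s0) = 2 * c0 * s0 * (y / 2 ^ j) := by ring
        _ ≤ K1 * (y / 2 ^ j) := Nat.mul_le_mul_right _ hK1
    rw [hr] at hconv
    omega

end Pool.Agent.H22.HC
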