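import Mathlib
import Pool.Agent.H22.HC.Outer

/-!
# Choice of the parameters

For `D = d + 9` large there are `a`, `b` with the hypotheses `Par` and `2^b + a + 1 ≤ 25 (1 + log (1 + log d))`.
-/

set_option autoImplicit false

namespace Pool.Agent.H22.HC

theorem par_exists (d : ℕ) (hd : 2 ^ 116 ≤ d) :
    ∃ a b, Par 1408000 (d + 9) a b ∧ 2 ^ b + a + 1 ≤ 25 * (1 + Nat.log 2 (1 + Nat.log 2 d)) := by
  classical
  -- choice of `a`
  have exa : ∃ a, 2 ^ 12 * (d + 9 + 2) ≤ 2 ^ 2 ^ a := by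
    refine ⟨2 ^ 12 * (d + 9 + 2), ?_⟩
    have h1 : 2 ^ 12 * (d + 9 + 2) < 2 ^ (2 ^ 12 * (d + 9 + 2)) := Nat.lt_two_pow_self
    exact h1.le.trans (Nat.pow_le_pow_right (by norm_num) h1.le)
  obtain ⟨a, ha⟩ : ∃ a, a = Nat.find exa := ⟨_, rfl⟩
  have ha1 : 2 ^ 12 * (d + 9 + 2) ≤ 2 ^ 2 ^ a := by
    rw [ha]
    exact Nat.find_spec exa
  have ha2 : ∀ a', a' < a → 2 ^ 2 ^ a' < 2 ^ 12 * (d + 9 + 2) := by
    intro a' h'
    rw [ha] at h'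
    have := Nat.find_min exa h'
    omega
  have ha8 : 8 ≤ a := by
    by_contra h
    have h1 : 2 ^ 2 ^ a ≤ 2 ^ 2 ^ 7 := Nat.pow_le_pow_right (by norm_num) (Nat.pow_le_pow_right (by norm_num) (by omega))
    have h2 : (2 : ℕ) ^ 2 ^ 7 = 2 ^ 12 * 2 ^ 116 := by norm_num
    omega
  -- choice of `b`
  have exb : ∃ b, 7 * 2 ^ a + 2 ≤ 2 ^ 2 ^ b := by
    refine ⟨7 * 2 ^ a + 2, ?_⟩
    have h1 : 7 * 2 ^ a + 2 < 2 ^ (7 * 2 ^ a + 2) := Nat.lt_two_pow_self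
    exact h1.le.trans (Nat.pow_le_pow_right (by norm_num) h1.le)
  obtain ⟨b, hb⟩ : ∃ b, b = Nat.find exb := ⟨_, rfl⟩
  have hb1 : 7 * 2 ^ a + 2 ≤ 2 ^ 2 ^ b := by
    rw [hb]
    exact Nat.find_spec exb
  have hb2 : ∀ b', b' < b → 2 ^ 2 ^ b' < 7 * 2 ^ a + 2 := by
    intro b' h'
    rw [hb] at h'
    have := Nat.find_min exb h'
    omega
  have h256 : 2 ^ 8 ≤ 2 ^ a := Nat.pow_le_pow_right (by norm_num) ha8
  have hb3 : 2 ≤ b := by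
    by_contra h
    have h1 : 2 ^ 2 ^ b ≤ 2 ^ 2 ^ 1 := Nat.pow_le_pow_right (by norm_num) (Nat.pow_le_pow_right (by norm_num) (by omega))
    have h2 : (2 : ℕ) ^ 2 ^ 1 = 4 := by norm_num
    omega
  have hb4 : 2 ^ b ≤ 2 * (a + 3) := by
    have h1 := hb2 (b - 1) (by omega)
    have h2 : 7 * 2 ^ a + 2 ≤ 2 ^ (a + 3) := by
      rw [pow_add]
      omega
    have h3 : 2 ^ (b - 1) < a + 3 := (Nat.pow_lt_pow_iff_right (by norm_num : 1 < 2)).1 (h1.trans_le h2)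
    have h4 : 2 ^ b = 2 * 2 ^ (b - 1) := by
      rw [← pow_succ']
      congr 1
      omega
    omega
  have hab : 2 * (a + 3) ≤ 2 ^ (a - 3) := by
    obtain ⟨t, ht⟩ : ∃ t, a = 8 + t := ⟨a - 8, by omega⟩
    subst ht
    have h1 : ∀ t : ℕ, 2 * (8 + t + 3) ≤ 2 ^ (8 + t - 3) := by
      intro t
      induction t with
      | zero => norm_num
      | succ t ih =>
        have h2 : 8 + (t + 1) - 3 = (8 + t - 3) + 1 := by omega
        rw [h2, pow_succ]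
        omega
    exact h1 t
  have hba : b ≤ a - 3 := by
    by_contra h
    have h1 : 2 ^ (a - 3 + 1) ≤ 2 ^ b := Nat.pow_le_pow_right (by norm_num) (by omega)
    rw [pow_succ] at h1
    omega
  -- the bound for `a`
  have ha4 : 2 ^ (a - 1) < 17 + Nat.log 2 d := by
    have h1 := ha2 (a - 1) (by omega)
    have h2 : d < 2 ^ (Nat.log 2 d + 1) := Nat.lt_pow_succ_log_self (by norm_num) d
    have h3 : 2 ^ 12 * (d + 9 + 2) ≤ 2 ^ (Nat.log 2 d + 1) * 2 ^ 16 := by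
      have h4 : d + 11 ≤ 16 * d := by omega
      calc 2 ^ 12 * (d + 9 + 2) ≤ 2 ^ 12 * (16 * d) := Nat.mul_le_mul_left _ h4
        _ = d * 2 ^ 16 := by ring
        _ ≤ 2 ^ (Nat.log 2 d + 1) * 2 ^ 16 := Nat.mul_le_mul_right _ h2.le
    rw [← pow_add] at h3
    have h5 := (Nat.pow_lt_pow_iff_right (by norm_num : 1 < 2)).1 (h1.trans_le h3)
    omega
  have ha5 : a ≤ 6 + Nat.log 2 (1 + Nat.log 2 d) := by
    obtain ⟨l, hl⟩ : ∃ l, l = 1 + Nat.log 2 d := ⟨_, rfl⟩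
    rw [← hl]
    have h1 : 2 ^ (a - 1) < 2 ^ 5 * l := by omega
    have h2 : l < 2 ^ (Nat.log 2 l + 1) := Nat.lt_pow_succ_log_self (by norm_num) l
    have h3 : 2 ^ 5 * l ≤ 2 ^ 5 * 2 ^ (Nat.log 2 l + 1) := Nat.mul_le_mul_left _ h2.le
    rw [← pow_add] at h3
    have h5 := (Nat.pow_lt_pow_iff_right (by norm_num : 1 < 2)).1 (h1.trans_le h3)
    omega
  refine ⟨a, b, ⟨hb3, hba, ?_, hb1, ha1⟩, by omega⟩
  -- the first hypothesis
  obtain ⟨X, hX⟩ : ∃ X, X = 2 ^ 2 ^ (a - 3) := ⟨_, rfl⟩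
  have hX4 : X ^ 4 < 2 ^ 12 * (d + 9 + 2) := by
    have h1 := ha2 (a - 1) (by omega)
    have h2 : X ^ 4 = 2 ^ 2 ^ (a - 1) := by
      rw [hX, ← pow_mul]
      congr 1
      have : a - 1 = a - 3 + 2 := by omega
      rw [this, pow_add]
      norm_num
    rw [h2]
    exact h1
  have h2a : 2 ^ a ≤ 8 * X := by
    have h1 : 2 ^ (a - 3) < X := by
      rw [hX]
      exact Nat.lt_two_pow_self
    have h3 : 2 ^ a = 8 * 2 ^ (a - 3) := by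
      have : a = a - 3 + 3 := by omega
      conv_lhs => rw [this, pow_add]
      ring
    omega
  have h5 : 1408000 * 2 ^ a * 2 ^ (2 ^ (a - 3) + 1) ≤ 22528000 * X ^ 2 := by
    rw [pow_succ 2 (2 ^ (a - 3)), ← hX]
    nlinarith
  refine h5.trans ?_
  by_contra h6
  push Not at h6
  have h7 : d < 2 ^ 25 * X ^ 2 := by
    have : 22528000 * X ^ 2 ≤ 2 ^ 25 * X ^ 2 := Nat.mul_le_mul_right _ (by norm_num)
    omega
  have h8 : d * d < 2 ^ 25 * X ^ 2 * (2 ^ 25 * X ^ 2) := Nat.mul_lt_mul_of_lt_of_lt h7 h7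
  have h9 : 2 ^ 25 * X ^ 2 * (2 ^ 25 * X ^ 2) = 2 ^ 50 * X ^ 4 := by ring
  have h10 : 2 ^ 50 * X ^ 4 < 2 ^ 50 * (2 ^ 12 * (d + 9 + 2)) := Nat.mul_lt_mul_of_pos_left hX4 (by norm_num)
  have h11 : 2 ^ 50 * (2 ^ 12 * (d + 9 + 2)) ≤ 2 ^ 63 * d := by
    have : d + 9 + 2 ≤ 2 * d := by omega
    calc 2 ^ 50 * (2 ^ 12 * (d + 9 + 2)) ≤ 2 ^ 50 * (2 ^ 12 * (2 * d)) := Nat.mul_le_mul_left _ (Nat.mul_le_mul_left _ this)
      _ = 2 ^ 63 * d := by ring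
  have h13 : (2 : ℕ) ^ 63 ≤ d := le_trans (Nat.pow_le_pow_right (by norm_num) (by norm_num)) hd
  have h12 : 2 ^ 63 * d ≤ d * d := Nat.mul_le_mul_right d h13
  exact absurd (h8.trans_le (h9.le.trans (h10.le.trans (h11.trans h12)))) (lt_irrefl _)

end Pool.Agent.H22.HC
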