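import Mathlib
import Pool.Agent.H22.HC.Outer

/-!
# The outer recursion: the theorem

`outer`: `CanM` for the coordinate numbering of all `D` coordinates with `u = D`, density `2^(-9)`, cost `K D (2^b + a + 1)`.
-/

set_option autoImplicit false

namespace Pool.Agent.H22.HC

open Pool.Agent.H31.HS

theorem outer {cs : ℕ → ℕ} (hcs : ColS cs) {c0 c0' : ℕ} (hK : SplitKR c0) (hO : SplitOR c0') (s0 : ℕ) : ∃ K : ℕ,
    ∀ (D a b : ℕ) (Ω R : Type) (M : Mach (Node D) Ω R) (S W Lam : ℕ), LinkStep M Lam s0 → Par 1408000 D a b → 2 ^ D < W → 1 ≤ S →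
      S * W ^ 20 ≤ Lam → ∀ (c : Fin D → Fin D) (hc : Function.Injective c),
        CanM M S (ordBlk c hc) D (2 ^ a) (2 ^ (2 ^ a - 9)) (K * D * (2 ^ b + a + 1)) := by
  classical
  obtain ⟨K1, hK1⟩ : ∃ K1 : ℕ, K1 = 2 * c0 * s0 + (c0' + 36 + 2 * cs 64) * s0 := ⟨_, rfl⟩
  obtain ⟨S0, hS0⟩ : ∃ S0 : ℕ, S0 = csum cs (32 * 1408000) * (2 * s0) := ⟨_, rfl⟩
  obtain ⟨K2, hK2⟩ : ∃ K2 : ℕ, K2 = K1 + 8 * s0 + S0 := ⟨_, rfl⟩
  refine ⟨2000000 * K2 * 20, ?_⟩
  intro D a b Ω R M S W Lam hM hp hW hS1 hS c hc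
  have hb2 := hp.b2
  have hba := hp.ba
  have h2a : 32 ≤ 2 ^ a := by
    have : (2 : ℕ) ^ 5 ≤ 2 ^ a := Nat.pow_le_pow_right (by norm_num) (by omega)
    exact this
  have hp1 := hp.h1
  have hp3 := hp.h3
  have hYD : 1408000 * 2 ^ a < D := by
    have h1 : 2 ≤ 2 ^ (2 ^ (a - 3) + 1) := by
      have : (2 : ℕ) ^ 1 ≤ 2 ^ (2 ^ (a - 3) + 1) := Nat.pow_le_pow_right (by norm_num) (Nat.le_add_left 1 _)
      exact this
    have h2 : 1408000 * 2 ^ a * 2 ≤ 1408000 * 2 ^ a * 2 ^ (2 ^ (a - 3) + 1) := Nat.mul_le_mul_left _ h1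
    omega
  have hW1 : 2 ≤ W := by
    have : 0 < 2 ^ D := by positivity
    omega
  have hS3 : S * W ^ 3 ≤ Lam := (Nat.mul_le_mul_left _ (Nat.pow_le_pow_right (by omega) (by norm_num))).trans hS
  have hSl : S + 1 ≤ Lam := by
    have h3 : 2 ≤ W ^ 20 := hW1.trans (Nat.le_self_pow (by norm_num) W)
    calc S + 1 ≤ S * 2 := by omega
      _ ≤ S * W ^ 20 := Nat.mul_le_mul_left _ h3
      _ ≤ Lam := hS
  have hK2' : (0 : ℝ) ≤ (K2 : ℝ) := Nat.cast_nonneg _
  obtain ⟨h, hh⟩ : ∃ h : ℕ → ℝ, ∀ i, h i = hT K2 a b (Nat.log 2 D - i) := ⟨_, fun _ => rfl⟩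
  have hrec := rec_main (M := M) (S := S) (Q := 2 ^ a) (Y0 := 1408000) (by omega) (le_refl _) (e := eD a) (F := Vw D a b)
    (sp := spD K1 s0 D a b) (S0 := S0) (h := h) (fun i => by rw [hh]; exact hT_nonneg hK2' _ _ _) ?_ ?_ ?_ ?_ ?_ ?_ D hYD
  · obtain ⟨cc, hcc, hcb⟩ := hrec
    have hv : Vw D a b D (ordBlk c hc) := by
      refine ⟨le_refl _, Or.inl rfl, Or.inl ⟨?_, c, hc, rfl⟩⟩
      unfold rg lv regL
      rw [Nat.sub_self, if_pos (Nat.zero_le _)]
    have h1 := hcc _ hv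
    have he : 2 ^ (2 ^ a - 9) ≤ eD a D := by
      have h5 : (2 : ℕ) ^ 2 ^ a = 2 ^ 9 * 2 ^ (2 ^ a - 9) := by
        rw [← pow_add]
        congr 1
        omega
      have h6 : (2 : ℕ) ^ (2 ^ a - 8) = 2 * 2 ^ (2 ^ a - 9) := by
        rw [← pow_succ']
        congr 1
        omega
      unfold eD
      rw [h6]
      rw [h5] at hp3
      generalize 2 ^ (2 ^ a - 9) = E at hp3 ⊢
      omega
    refine CanM.cost_mono (CanM.e_mono h1 he) ?_
    -- the sum
    have hsum : ∑ j ∈ Finset.Icc (Nat.log 2 (1408000 * 2 ^ a)) (Nat.log 2 D), h j ≤ ∑ L ∈ Finset.range (Nat.log 2 D + 1), hT K2 a b L := by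
      have h2 : ∑ j ∈ Finset.Icc (Nat.log 2 (1408000 * 2 ^ a)) (Nat.log 2 D), h j =
          ∑ L ∈ (Finset.Icc (Nat.log 2 (1408000 * 2 ^ a)) (Nat.log 2 D)).image (fun j => Nat.log 2 D - j), hT K2 a b L := by
        rw [Finset.sum_image]
        · exact Finset.sum_congr rfl fun j _ => hh j
        · intro i hi j hj hij
          rw [Finset.mem_coe, Finset.mem_Icc] at hi hj
          simp only at hij
          omega
      rw [h2]
      refine Finset.sum_le_sum_of_subset_of_nonneg ?_ (fun _ _ _ => hT_nonneg hK2' _ _ _)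
      intro L hL
      rw [Finset.mem_image] at hL
      obtain ⟨j, _, rfl⟩ := hL
      rw [Finset.mem_range]
      omega
    have hsum2 := hsum.trans (sum_hT hK2' (N := Nat.log 2 D) hba)
    have hlogD : Nat.log 2 D + 1 ≤ 2 ^ a := by
      have h3 : D < 2 ^ 2 ^ a := by
        have : 0 < 2 ^ 12 := by positivity
        omega
      have := Nat.log_lt_of_lt_pow (by omega) h3
      omega
    have h8 : (2 : ℝ) ^ a = 8 * 2 ^ (a - 3) := by
      have : a = a - 3 + 3 := by omega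
      conv_lhs => rw [this, pow_add]
      ring
    have h9 : ((Nat.log 2 D : ℝ) + 1) / 2 ^ (a - 3) ≤ 8 := by
      rw [div_le_iff₀ (by positivity), ← h8]
      exact_mod_cast hlogD
    have h10 : ((a - 3 : ℕ) : ℝ) ≤ a := by
      exact_mod_cast Nat.sub_le a 3
    have h11 : (cc : ℝ) ≤ 2000000 * D * (K2 * ((2 ^ b + 1) + a + 8 + (a + 1))) := by
      refine hcb.trans (mul_le_mul_of_nonneg_left (hsum2.trans ?_) (by positivity))
      refine mul_le_mul_of_nonneg_left ?_ hK2'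
      linarith
    have h12 : (2000000 * D * (K2 * ((2 ^ b + 1) + a + 8 + (a + 1))) : ℝ) ≤ ((2000000 * K2 * 20 * D * (2 ^ b + a + 1) : ℕ) : ℝ) := by
      push_cast
      have h13 : ((2 : ℝ) ^ b + 1) + a + 8 + (a + 1) ≤ 20 * (2 ^ b + a + 1) := by
        have h14 : (0 : ℝ) ≤ 2 ^ b := by positivity
        have h15 : (0 : ℝ) ≤ (a : ℝ) := Nat.cast_nonneg a
        linarith
      calc (2000000 * D * (K2 * ((2 ^ b + 1) + a + 8 + (a + 1))) : ℝ) = 2000000 * D * K2 * ((2 ^ b + 1) + a + 8 + (a + 1)) := by ring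
        _ ≤ 2000000 * D * K2 * (20 * (2 ^ b + a + 1)) := mul_le_mul_of_nonneg_left h13 (by positivity)
        _ = 2000000 * K2 * 20 * D * (2 ^ b + a + 1) := by ring
    exact_mod_cast h11.trans h12
  · intro y y' hyy
    unfold eD
    omega
  · intro y hy
    rw [hh]
    show ((spD K1 s0 D a b y : ℕ) : ℝ) ≤ y * hT K2 a b (lv D y)
    unfold spD hT rg
    push_cast
    rw [mul_add]
    have hK12 : (K1 : ℝ) ≤ K2 := by
      rw [hK2]
      push_cast
      have h1 : (0 : ℝ) ≤ (s0 : ℝ) := Nat.cast_nonneg _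
      have h2 : (0 : ℝ) ≤ (S0 : ℝ) := Nat.cast_nonneg _
      linarith
    have hs2 : (8 * s0 : ℝ) ≤ K2 := by
      rw [hK2]
      push_cast
      have h1 : (0 : ℝ) ≤ (K1 : ℝ) := Nat.cast_nonneg _
      have h2 : (0 : ℝ) ≤ (S0 : ℝ) := Nat.cast_nonneg _
      linarith
    have hyn : (0 : ℝ) ≤ (y : ℝ) := Nat.cast_nonneg _
    refine add_le_add ?_ ?_
    · by_cases hr : regL a b (lv D y) = 0
      · rw [if_pos hr, if_pos hr, mul_comm]
        exact mul_le_mul_of_nonneg_left hK12 hyn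
      · rw [if_neg hr, if_neg hr]
        have h1 : ((y / regL a b (lv D y) : ℕ) : ℝ) ≤ (y : ℝ) / (regL a b (lv D y) : ℕ) := Nat.cast_div_le
        calc (K1 : ℝ) * ((y / regL a b (lv D y) : ℕ) : ℝ) ≤ K2 * ((y : ℝ) / (regL a b (lv D y) : ℕ)) :=
              mul_le_mul hK12 h1 (Nat.cast_nonneg _) hK2'
          _ = y * (K2 / (regL a b (lv D y) : ℕ)) := by ring
    · by_cases hr : regL a b (lv D y + 1) ≠ regL a b (lv D y)
      · rw [if_pos hr, if_pos hr]
        calc (8 * y * s0 : ℝ) = y * (8 * s0) := by ring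
          _ ≤ y * K2 := mul_le_mul_of_nonneg_left hs2 hyn
      · rw [if_neg hr, if_neg hr, mul_zero]
  · rw [hh]
    show (S0 : ℝ) ≤ ((1408000 * 2 ^ a : ℕ) : ℝ) / 4 * hT K2 a b (lv D (1408000 * 2 ^ a))
    have hr : rg D a b (1408000 * 2 ^ a) = 2 ^ (a - 3) := rg_small hp (le_refl _) (by omega)
    unfold rg at hr
    unfold hT
    rw [hr, if_neg (by positivity)]
    have hS02 : (S0 : ℝ) ≤ K2 := by
      rw [hK2]
      push_cast
      have h1 : (0 : ℝ) ≤ (K1 : ℝ) := Nat.cast_nonneg _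
      have h2 : (0 : ℝ) ≤ (s0 : ℝ) := Nat.cast_nonneg _
      linarith
    have h8 : (2 : ℝ) ^ a = 8 * 2 ^ (a - 3) := by
      have : a = a - 3 + 3 := by omega
      conv_lhs => rw [this, pow_add]
      ring
    have h9 : (0 : ℝ) ≤ (if regL a b (lv D (1408000 * 2 ^ a) + 1) ≠ 2 ^ (a - 3) then (K2 : ℝ) else 0) := by positivity
    push_cast
    rw [h8]
    have h10 : (0 : ℝ) < 2 ^ (a - 3) := by positivity
    have h11 : (1408000 * (8 * 2 ^ (a - 3)) : ℝ) / 4 * (K2 / 2 ^ (a - 3)) = 2816000 * K2 := by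
      field_simp
      ring
    have h12 : (0 : ℝ) ≤ (1408000 * (8 * 2 ^ (a - 3)) : ℝ) / 4 := by positivity
    calc (S0 : ℝ) ≤ K2 := hS02
      _ ≤ 2816000 * K2 := by linarith
      _ = (1408000 * (8 * 2 ^ (a - 3)) : ℝ) / 4 * (K2 / 2 ^ (a - 3)) := h11.symm
      _ ≤ _ := mul_le_mul_of_nonneg_left (by linarith) h12
  · intro y u hy hu huy
    rw [hS0]
    exact vw_base hcs hM hp hW hS3 (eD a) y u hy hu huy
  · intro y hy hex
    obtain ⟨B0, hyD, hyy, _⟩ := hex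
    obtain ⟨t, ht⟩ : ∃ t, t = (y - y / 12 + 2 ^ a - 1) / 2 ^ a := ⟨_, rfl⟩
    have h1 : 2 ^ a * t ≤ y - y / 12 + 2 ^ a - 1 := by
      rw [ht]
      exact Nat.mul_div_le _ _
    have h2 : y - y / 12 + 2 ^ a - 1 < 2 ^ a * (t + 1) := by
      rw [ht]
      exact Nat.lt_mul_div_succ _ (by omega)
    rw [mul_add, mul_one] at h2
    refine ⟨y - 2 ^ a * t, by omega, by omega, ?_⟩
    intro B hB h' u cc hg
    have h3 : y - (y - 2 ^ a * t) = 2 ^ a * t := by omega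
    have key : ∀ (l : ℕ) (hl : 0 + l ≤ y), l = 2 ^ a * t → Good M S (2 ^ a) (eD a) (Vw D a b) l u cc →
        CanM M S (B.bits 0 l hl) u (2 ^ a) (eD a l) (cc + spD K1 s0 D a b y) := by
      intro l hl hle hg
      subst hle
      refine CanM.cost_mono (low_good hM hSl hba hB (by omega) (Dvd.intro _ rfl) hl hg) ?_
      have hconv : (if rg D a b (2 ^ a * t) = rg D a b y then 0 else 8 * y * s0) ≤ spD K1 s0 D a b y := by
        unfold spD
        by_cases hc : rg D a b (2 ^ a * t) = rg D a b y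
        · rw [if_pos hc]
          exact Nat.zero_le _
        · rw [if_neg hc, if_pos (rg_change (by omega) hyD (by omega) (by omega) hc)]
          exact Nat.le_add_left _ _
      omega
    exact key _ h' h3 hg
  · intro y u hy hex hu hu6
    have h120 : 120 * 2 ^ a ≤ y := by omega
    obtain ⟨y1, y2, y3, y4, y5⟩ := yS_spec (m := y) (u := u) (Q := 2 ^ a) (by omega) hu6 h120
    obtain ⟨s1, s2, s3, s4⟩ := sS_spec (m := y) (u := u) (Q := 2 ^ a) (by omega) hu6 h120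
    refine ⟨yS y u (2 ^ a), sS y u (2 ^ a), y5, y4, by omega, by omega, s4, ?_⟩
    intro cc hg
    exact vw_r2 hcs hK hO hM hp (by norm_num) hW hS1 hS (by omega) (by omega) y u hy hu hu6 cc hg

end Pool.Agent.H22.HC
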