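import Mathlib
import Pool.Agent.H31.HS.RBas
import Pool.Agent.H22.HC.Ord

/-!
# Sorting plans exist for every `d`

Every record is sent to all processors (`d` steps for each record).
-/

set_option autoImplicit false

namespace Pool.Agent.H22.HC

open Pool.Agent.H31.HS

variable {d : ℕ}

/-- a bijection onto `Fin N` is determined by the order -/
theorem inp_unique (ρ ρ' : Inp d) (h : ∀ a b, ρ a < ρ b ↔ ρ' a < ρ' b) (q : Fin (2 ^ d)) : ρ.symm q = ρ'.symm q := by
  have h1 : StrictMono (fun q : Fin (2 ^ d) => ρ' (ρ.symm q)) := by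
    intro q q' hq
    show ρ' (ρ.symm q) < ρ' (ρ.symm q')
    rw [← h, Equiv.apply_symm_apply, Equiv.apply_symm_apply]
    exact hq
  have h2 : (fun q : Fin (2 ^ d) => ρ' (ρ.symm q)) = id := by
    refine (h1.range_inj strictMono_id).1 ?_
    have h3 : Function.Surjective (fun q : Fin (2 ^ d) => ρ' (ρ.symm q)) := by
      intro q
      exact ⟨ρ (ρ'.symm q), by simp⟩
    rw [h3.range_eq]
    exact Set.range_id.symm
  have h3 : ρ' (ρ.symm q) = q := congrFun h2 q
  rw [Equiv.eq_symm_apply]
  exact h3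

open Classical in
/-- all processors which hold `r` send it -/
noncomputable def fstep (r : Node d) (P : Plan d Unit) : Step d Unit := fun v _ ρ => if r ∈ held P v ρ then some (r, ()) else none

theorem fstep_valid (r : Node d) {P : Plan d Unit} (hP : Valid P) : Valid (fstep r P :: P) := by
  refine ⟨hP, ?_, ?_⟩
  · intro v i ρ r' l h
    unfold fstep at h
    split_ifs at h with h1
    · rw [Option.some.injEq, Prod.mk.injEq] at h
      rw [← h.1]
      exact h1
  · intro v i ρ ρ' h
    unfold fstep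
    rw [held_sim P v ρ ρ' h]

theorem fstep_held (r : Node d) (P : Plan d Unit) (v : Node d) (ρ : Inp d) (h : r ∈ held P v ρ ∨ ∃ i, r ∈ held P (flp i v) ρ) :
    r ∈ held (fstep r P :: P) v ρ := by
  rcases h with h | ⟨i, hi⟩
  · exact Or.inl h
  · refine Or.inr ⟨i, (), ?_⟩
    unfold fstep
    rw [if_pos hi]

/-- number of different coordinates -/
def hd (v r : Node d) : ℕ := (Finset.univ.filter (fun i => v i ≠ r i)).card

theorem hd_step {v r : Node d} (h : v ≠ r) : ∃ i, hd (flp i v) r < hd v r := by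
  have h1 : ∃ i, v i ≠ r i := by
    by_contra h2
    push Not at h2
    exact h (funext h2)
  obtain ⟨i, hi⟩ := h1
  refine ⟨i, Finset.card_lt_card ?_⟩
  rw [Finset.ssubset_iff_of_subset]
  · refine ⟨i, by simpa using hi, ?_⟩
    rw [Finset.mem_filter]
    push Not
    intro _
    unfold flp
    rw [Function.update_self]
    rcases h3 : v i with _ | _ <;> rcases h4 : r i with _ | _ <;> rw [h3, h4] at hi <;> simp at hi ⊢
  · intro j hj
    rw [Finset.mem_filter] at hj ⊢
    refine ⟨Finset.mem_univ _, ?_⟩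
    by_cases hij : j = i
    · rw [hij]
      exact hi
    · have : flp i v j = v j := by
        unfold flp
        rw [Function.update_of_ne hij]
      rw [← this]
      exact hj.2

theorem flood_one (r : Node d) (P : Plan d Unit) (hP : Valid P) :
    ∃ Q : Plan d Unit, Valid Q ∧ (∃ P', Q = P' ++ P) ∧ ∀ v ρ, r ∈ held Q v ρ := by
  have key : ∀ n : ℕ, ∃ Q : Plan d Unit, Valid Q ∧ (∃ P', Q = P' ++ P) ∧ ∀ v ρ, hd v r ≤ n → r ∈ held Q v ρ := by
    intro n
    induction n with
    | zero =>
      refine ⟨P, hP, ⟨[], rfl⟩, ?_⟩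
      intro v ρ hv
      have : v = r := by
        by_contra h
        obtain ⟨i, hi⟩ := hd_step h
        omega
      rw [this]
      exact own_held P r ρ
    | succ n ih =>
      obtain ⟨Q, hQ, ⟨P', hP'⟩, h⟩ := ih
      refine ⟨fstep r Q :: Q, fstep_valid r hQ, ⟨fstep r Q :: P', by rw [hP']; rfl⟩, ?_⟩
      intro v ρ hv
      refine fstep_held r Q v ρ ?_
      by_cases hvr : v = r
      · left
        rw [hvr]
        exact own_held Q r ρ
      · right
        obtain ⟨i, hi⟩ := hd_step hvr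
        exact ⟨i, h _ ρ (by omega)⟩
  obtain ⟨Q, h1, h2, h3⟩ := key d
  refine ⟨Q, h1, h2, fun v ρ => h3 v ρ ?_⟩
  unfold hd
  exact (Finset.card_filter_le _ _).trans (by simp)

theorem small_plan (d : ℕ) : ∃ P : Plan d Unit, Valid P ∧ Sorts P := by
  have key : ∀ l : List (Node d), ∃ P : Plan d Unit, Valid P ∧ ∀ r ∈ l, ∀ v ρ, r ∈ held P v ρ := by
    intro l
    induction l with
    | nil => exact ⟨[], trivial, fun r hr => absurd hr (by simp)⟩
    | cons r l ih =>
      obtain ⟨P, hP, h⟩ := ih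
      obtain ⟨Q, hQ, ⟨P', rfl⟩, h'⟩ := flood_one r P hP
      refine ⟨P' ++ P, hQ, ?_⟩
      intro r' hr' v ρ
      rcases List.mem_cons.1 hr' with rfl | hr''
      · exact h' v ρ
      · exact held_append P' P v ρ (h r' hr'' v ρ)
  obtain ⟨P, hP, h⟩ := key Finset.univ.toList
  have hall : ∀ r v ρ, r ∈ held P v ρ := fun r v ρ => h r (by simp) v ρ
  refine ⟨P, hP, fun v ρ => ρ.symm ⟨nodeNum v, nodeNum_lt v⟩, fun v => ⟨fun ρ => hall _ _ _, ?_, ?_⟩⟩
  · intro ρ ρ' hs
    exact inp_unique ρ ρ' (fun a b => sim_cmp P v ρ ρ' a b hs (hall _ _ _) (hall _ _ _)) _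
  · intro ρ
    rw [Equiv.apply_symm_apply]

end Pool.Agent.H22.HC
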