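import Mathlib
import Pool.Agent.H22.HC.Ord
import Pool.Agent.H22.HC.R1
import Pool.Agent.H69.HS.ColRank

/-!
# The initial array, ranks

`cV d`: the coordinates, the nine virtual ones are the low bits; `bV d` the numbering of all nodes.  `ini`: the records are at the virtual nodes with virtual part `0`.
`keyR`: the rank.  `ini_*`: hypotheses of `CanM`.  `rank_spec`: after sorting, the place number `q < 2^d` holds the record of rank `q`.
-/

set_option autoImplicit false

namespace Pool.Agent.H22.HC

open Pool.Agent.H31.HS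

variable {d : ℕ}

/-- the nine virtual coordinates are the low bits -/
def cV (d : ℕ) : Fin (d + 9) → Fin (d + 9) := joinC (Fin.castAdd 9) (Fin.natAdd d)

theorem cV_dis (i : Fin d) (j : Fin 9) : Fin.castAdd 9 i ≠ Fin.natAdd d j := by
  intro h
  have := congrArg Fin.val h
  simp at this
  omega

theorem cast_inj (d : ℕ) : Function.Injective (Fin.castAdd 9 : Fin d → Fin (d + 9)) := Fin.castAdd_injective d 9

theorem natA_inj (d : ℕ) : Function.Injective (Fin.natAdd d : Fin 9 → Fin (d + 9)) := Fin.natAdd_injective 9 d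

theorem cV_inj (d : ℕ) : Function.Injective (cV d) := joinC_inj (cast_inj d) (natA_inj d) cV_dis

/-- the virtual part -/
def exN (v : Node (d + 9)) : Node 9 := fun j => v (Fin.natAdd d j)

/-- the numbering of all nodes -/
noncomputable def bV (d : ℕ) : Blk (Node (d + 9)) (d + 9) := ordBlk (cV d) (cV_inj d)

theorem bV_pos (v : Node (d + 9)) : (bV d).pos v = nodeNum (lowN v) * 2 ^ 9 + nodeNum (exN v) := by
  have h1 := ordBlk_prod (Fin.castAdd 9) (cast_inj d) (Fin.natAdd d) (natA_inj d) cV_dis
    (ordBlk_comm (Fin.castAdd 9) (cast_inj d) (Fin.natAdd d) (natA_inj d) cV_dis)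
  have h2 : (bV d).pos v = (Blk.prod (ordBlk (Fin.castAdd 9) (cast_inj d)) (ordBlk (Fin.natAdd d) (natA_inj d))
    (ordBlk_comm (Fin.castAdd 9) (cast_inj d) (Fin.natAdd d) (natA_inj d) cV_dis)).pos v := by
    rw [h1]
    rfl
  rw [h2]
  rfl

theorem bV_cls (v u : Node (d + 9)) : (bV d).cls v u := by
  unfold bV
  rw [ordBlk_cls]
  intro x hx
  exact absurd ((Finite.injective_iff_surjective.1 (cV_inj d)) x) hx

theorem node_ext {v u : Node (d + 9)} (h1 : lowN v = lowN u) (h2 : exN v = exN u) : v = u := by
  refine (bV d).eq_of_cls (bV_cls v u) ?_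
  rw [bV_pos, bV_pos, h1, h2]

/-- the virtual node `(r, 0)` -/
def up (r : Node d) : Node (d + 9) := Fin.append r (fun _ => false)

theorem low_up (r : Node d) : lowN (up r) = r := by
  funext i
  show Fin.append r (fun _ => false) (Fin.castAdd 9 i) = r i
  exact Fin.append_left _ _ _

theorem ex_up (r : Node d) : exN (up r) = fun _ => false := by
  funext i
  show Fin.append r (fun _ : Fin 9 => false) (Fin.natAdd d i) = false
  exact Fin.append_right _ _ _

/-- the initial array -/
def ini (v : Node (d + 9)) : Option Unit × Option (Node d) := if exN v = fun _ => false then (some (), some (lowN v)) else emp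

theorem ini_up (r : Node d) : ini (up r) = (some (), some r) := by
  unfold ini
  rw [if_pos (ex_up r), low_up]

theorem ini_some {v : Node (d + 9)} (h : (ini v).1.isSome) : v = up (lowN v) := by
  unfold ini at h
  split_ifs at h with h1
  · refine node_ext (low_up _).symm ?_
    rw [h1, ex_up]
  · exact absurd h (by simp [emp])

/-- the rank -/
def keyR (w : Inp d) (x : Unit × Option (Node d)) : ℕ := x.2.elim 0 (fun r => (w r : ℕ) + 1)

theorem keyR_loc (t : ℕ) (L : Type) : KeyLoc (cubeMach d t L) (X := Unit) keyR := by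
  rintro w w' ⟨_, x⟩ ⟨_, y⟩ h
  rcases x with _ | r <;> rcases y with _ | s
  · exact Iff.rfl
  · simp [keyR]
  · simp [keyR]
  · have h1 := (h r s rfl rfl).1
    have h2 : (w r < w s ↔ w' r < w' s) := h1
    show ((w r : ℕ) + 1 < (w s : ℕ) + 1 ↔ (w' r : ℕ) + 1 < (w' s : ℕ) + 1)
    rw [Nat.add_lt_add_iff_right, Nat.add_lt_add_iff_right]
    exact h2

theorem kv_rec (w : Inp d) (r : Node d) : kv (keyR w) (some (), some r) = (((w r : ℕ) + 1 : ℕ) : WithTop ℕ) := rfl

theorem ini_dist (w : Inp d) : Dist (bV d) (keyR w) ini := by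
  intro v u _ hv hu h
  have h1 := ini_some hv
  have h2 := ini_some hu
  rw [h1, h2, ini_up, ini_up, kv_rec, kv_rec] at h
  have h4 : ((w (lowN v) : ℕ) + 1) = (w (lowN u) : ℕ) + 1 := by exact_mod_cast h
  have h3 : w (lowN v) = w (lowN u) := Fin.ext (by omega)
  rw [h1, h2, w.injective h3]

theorem ini_run (w : Inp d) : RunSorted (bV d) (keyR w) (d + 9 - (d + 9)) ini := by
  intro v u _ h1 h2 _
  rw [Nat.sub_self, pow_zero, Nat.div_one, Nat.div_one] at h1
  omega

end Pool.Agent.H22.HC
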