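import Mathlib
import Pool.Agent.H22.HC.Start

/-!
# The initial array: density; ranks after sorting
-/

set_option autoImplicit false

namespace Pool.Agent.H22.HC

open Pool.Agent.H31.HS

variable {d : ℕ}

theorem ini_active {v : Node (d + 9)} (h : (ini v).1.isSome) : (bV d).pos v % 2 ^ 9 = 0 := by
  have h1 := ini_some h
  have h2 : nodeNum (fun _ : Fin 9 => false) = 0 := by simp [nodeNum]
  rw [bV_pos, h1, ex_up, h2, add_zero]
  exact Nat.mul_mod_left _ _

theorem ini_dens {Q : ℕ} (hQ : 9 ≤ Q) : Dens (bV d) (d + 9) Q (2 ^ (Q - 9)) (fun v => (ini v).1.isSome) := by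
  intro v i hi hi'
  have h9 : 9 ≤ i := by omega
  have h1 : occ (bV d) (fun v => (ini v).1.isSome) v i ≤ 2 ^ (i - 9) := by
    unfold occ
    have h2 : (2 : ℕ) ^ (i - 9) = (Finset.range (2 ^ (i - 9))).card := (Finset.card_range _).symm
    rw [h2]
    refine Finset.card_le_card_of_injOn (fun t => t / 2 ^ 9) ?_ ?_
    · intro t ht
      rw [Finset.mem_coe, Finset.mem_filter, Finset.mem_range] at ht
      rw [Finset.mem_coe, Finset.mem_range, Nat.div_lt_iff_lt_mul (by positivity), ← pow_add, Nat.sub_add_cancel h9]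
      exact ht.1
    · have key : ∀ t, t ∈ ((Finset.range (2 ^ i)).filter (fun t => (ini ((bV d).nd v ((bV d).pos v / 2 ^ i * 2 ^ i + t))).1.isSome = true)) →
          t % 2 ^ 9 = 0 := by
        intro t ht
        rw [Finset.mem_filter, Finset.mem_range] at ht
        have h3 := ini_active ht.2
        have h4 : (bV d).pos v / 2 ^ i * 2 ^ i + t < 2 ^ (d + 9) := by
          have h2 : (2 : ℕ) ^ (d + 9) = 2 ^ (d + 9 - i) * 2 ^ i := by
            rw [← pow_add]
            congr 1
            omega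
          have h3 : (bV d).pos v / 2 ^ i < 2 ^ (d + 9 - i) := by
            rw [Nat.div_lt_iff_lt_mul (by positivity), ← h2]
            exact (bV d).pos_lt v
          have h4 : ((bV d).pos v / 2 ^ i + 1) * 2 ^ i ≤ 2 ^ (d + 9 - i) * 2 ^ i := Nat.mul_le_mul_right _ h3
          rw [← h2] at h4
          linarith [ht.1]
        rw [(bV d).pos_nd v _ h4] at h3
        have h5 : (bV d).pos v / 2 ^ i * 2 ^ i % 2 ^ 9 = 0 := by
          refine Nat.mod_eq_zero_of_dvd (Dvd.dvd.mul_left (pow_dvd_pow 2 h9) _)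
        rw [Nat.add_mod, h5, zero_add, Nat.mod_mod] at h3
        exact h3
      intro t ht t' ht' he
      have h3 := key t (Finset.mem_coe.1 ht)
      have h4 := key t' (Finset.mem_coe.1 ht')
      simp only at he
      omega
  calc 2 ^ Q * occ (bV d) (fun v => (ini v).1.isSome) v i ≤ 2 ^ Q * 2 ^ (i - 9) := Nat.mul_le_mul_left _ h1
    _ = 2 ^ (Q - 9) * 2 ^ i := by
      rw [← pow_add, ← pow_add]
      congr 1
      omega

theorem ini_sm {Ω : Type} : Sm 1 (fun (v : Node (d + 9)) (_ : Ω) => ini v) := by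
  refine ⟨{()}, by simp, fun i w x _ => ?_⟩
  rw [Finset.mem_singleton]

theorem ini_has (L : Type) (P : (cubeMach d 9 L).Pl) (v : Node (d + 9)) : (cubeMach d 9 L).Has P v (fun _ => ini v) := by
  refine ⟨fun _ _ _ => rfl, ?_⟩
  intro w r hr
  have h1 : (ini v).2 = some r := hr
  unfold ini at h1
  split_ifs at h1 with h2
  · have h3 : lowN v = r := Option.some.inj h1
    rw [← h3]
    exact own_held _ _ _
  · exact absurd h1 (by simp [emp])

theorem rank_spec (w : Inp d) {b : Node (d + 9) → Option Unit × Option (Node d)} (h : SortSpec (bV d) (keyR w) ini b) (v : Node (d + 9))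
    (hv : (bV d).pos v < 2 ^ d) : ∃ r, (w r).val = (bV d).pos v ∧ b v = (some (), some r) := by
  classical
  obtain ⟨s1, s2, s3, s4⟩ := h
  have hex : ∀ q : Fin (2 ^ d), ∃ z, b z = (some (), some (w.symm q)) := by
    intro q
    obtain ⟨z, _, hz⟩ := s2 (up (w.symm q)) (by rw [ini_up]; rfl)
    exact ⟨z, by rw [hz, ini_up]⟩
  choose g hg using hex
  have hkv : ∀ q : Fin (2 ^ d), kv (keyR w) (b (g q)) = (((q : ℕ) + 1 : ℕ) : WithTop ℕ) := by
    intro q
    rw [hg, kv_rec, Equiv.apply_symm_apply]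
  have hact : ∀ q, (b (g q)).1.isSome = true := by
    intro q
    rw [hg]
    rfl
  have h0 : ∀ z, (bV d).pos z / 2 ^ (d + 9) = 0 := fun z => Nat.div_eq_of_lt ((bV d).pos_lt z)
  have hmono : StrictMono (fun q => (bV d).pos (g q)) := by
    intro q q' hq
    show (bV d).pos (g q) < (bV d).pos (g q')
    have hq' : (q : ℕ) < q' := hq
    rcases lt_trichotomy ((bV d).pos (g q)) ((bV d).pos (g q')) with h1 | h1 | h1
    · exact h1
    · exfalso
      have h2 := (bV d).eq_of_cls (bV_cls _ _) h1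
      have h3 := hkv q
      rw [h2, hkv q'] at h3
      have h4 : ((q' : ℕ) + 1) = (q : ℕ) + 1 := by exact_mod_cast h3
      omega
    · exfalso
      have h2 := s4 (g q') (g q) (bV_cls _ _) (by rw [h0, h0]) h1 (hact q)
      rw [hkv, hkv] at h2
      have h4 : ((q' : ℕ) + 1) < (q : ℕ) + 1 := by exact_mod_cast h2
      omega
  obtain ⟨I, hI⟩ : ∃ I : Finset ℕ, I = Finset.univ.image (fun q : Fin (2 ^ d) => (bV d).pos (g q)) := ⟨_, rfl⟩
  have hIc : I.card = 2 ^ d := by
    rw [hI, Finset.card_image_of_injective _ hmono.injective, Finset.card_univ, Fintype.card_fin]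
  have hdown : ∀ i ∈ I, ∀ j, j ≤ i → j ∈ I := by
    intro i hi j hj
    rw [hI, Finset.mem_image] at hi ⊢
    obtain ⟨q, _, hq⟩ := hi
    rcases Nat.eq_or_lt_of_le hj with e | e
    · exact ⟨q, Finset.mem_univ _, by rw [hq, e]⟩
    · have hj2 : j < 2 ^ (d + 9) := by
        have := (bV d).pos_lt (g q)
        omega
      obtain ⟨z, hz⟩ : ∃ z, z = (bV d).nd (g q) j := ⟨_, rfl⟩
      have hzp : (bV d).pos z = j := by rw [hz, (bV d).pos_nd _ _ hj2]
      have h1 := s4 z (g q) (bV_cls _ _) (by rw [h0, h0]) (by rw [hzp, hq]; exact e) (hact q)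
      have h2 : (b z).1.isSome = true := H69.HS.kv_ne_top.1 (ne_top_of_lt h1)
      obtain ⟨u, _, hu⟩ := s1 z h2
      have h3 : (ini u).1.isSome = true := by
        rw [← hu]
        exact h2
      have h4 := ini_some h3
      rw [h4, ini_up] at hu
      refine ⟨w (lowN u), Finset.mem_univ _, ?_⟩
      have h5 : g (w (lowN u)) = z := by
        refine kv_eq_ne s4 (bV_cls _ _) (hact _) h2 ?_
        rw [hg, hu, Equiv.symm_apply_apply]
      show (bV d).pos (g (w (lowN u))) = j
      rw [h5, hzp]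
  have hmem : ∀ i, i ∈ I ↔ i < 2 ^ d := by
    intro i
    rw [← hIc]
    exact H69.HS.mem_iff_lt_card hdown i
  have hfun : (fun q : Fin (2 ^ d) => (bV d).pos (g q)) = Fin.val := by
    refine (hmono.range_inj Fin.val_strictMono).1 ?_
    ext i
    have h1 := hmem i
    rw [hI, Finset.mem_image] at h1
    constructor
    · rintro ⟨q, hq⟩
      have h2 := h1.1 ⟨q, Finset.mem_univ _, hq⟩
      exact ⟨⟨i, h2⟩, rfl⟩
    · rintro ⟨q, hq⟩
      have h2 : i < 2 ^ d := by
        rw [← hq]
        exact q.2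
      obtain ⟨q', _, hq'⟩ := h1.2 h2
      exact ⟨q', hq'⟩
  have h5 := congrFun hfun ⟨(bV d).pos v, hv⟩
  simp only at h5
  have h6 : g ⟨(bV d).pos v, hv⟩ = v := (bV d).eq_of_cls (bV_cls _ _) h5
  refine ⟨w.symm ⟨(bV d).pos v, hv⟩, by rw [Equiv.apply_symm_apply], ?_⟩
  have h7 := hg ⟨(bV d).pos v, hv⟩
  rw [h6] at h7
  exact h7

end Pool.Agent.H22.HC
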