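import Mathlib
import Pool.Agent.H22.HC.Outer2
import Pool.Agent.H22.HC.NumP
import Pool.Agent.H22.HC.Start2
import Pool.Agent.H22.HC.Small
import Pool.Agent.H31.HS.Link
import Pool.Agent.H31.HS.Shift

/-!
# The theorem, from columnsort and SPLIT

`large`: large `d`.  `final`: all `d`.
-/

set_option autoImplicit false

namespace Pool.Agent.H22.HC

open Pool.Agent.H31.HS

/-- rotation of the numbers below `2^(d+9)` -/
theorem rot_props (d : ℕ) : (∀ t, t < 2 ^ (d + 9) → t % 2 ^ d * 2 ^ 9 + t / 2 ^ d < 2 ^ (d + 9)) ∧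
    (∀ t, t < 2 ^ (d + 9) → t / 2 ^ 9 + t % 2 ^ 9 * 2 ^ d < 2 ^ (d + 9)) ∧
    (∀ t, t < 2 ^ (d + 9) → (t / 2 ^ 9 + t % 2 ^ 9 * 2 ^ d) % 2 ^ d * 2 ^ 9 + (t / 2 ^ 9 + t % 2 ^ 9 * 2 ^ d) / 2 ^ d = t) ∧
    (∀ t, t < 2 ^ (d + 9) → (t % 2 ^ d * 2 ^ 9 + t / 2 ^ d) / 2 ^ 9 + (t % 2 ^ d * 2 ^ 9 + t / 2 ^ d) % 2 ^ 9 * 2 ^ d = t) := by
  have hp : (2 : ℕ) ^ (d + 9) = 2 ^ d * 2 ^ 9 := pow_add _ _ _
  have hd : 0 < 2 ^ d := by positivity
  have h1 : ∀ t, t < 2 ^ (d + 9) → t / 2 ^ d < 2 ^ 9 := by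
    intro t ht
    rw [Nat.div_lt_iff_lt_mul hd, mul_comm, ← hp]
    exact ht
  have h2 : ∀ t, t < 2 ^ (d + 9) → t / 2 ^ 9 < 2 ^ d := by
    intro t ht
    rw [Nat.div_lt_iff_lt_mul (by positivity), ← hp]
    exact ht
  refine ⟨?_, ?_, ?_, ?_⟩
  · intro t ht
    have h3 := h1 t ht
    have h4 : t % 2 ^ d < 2 ^ d := Nat.mod_lt _ hd
    rw [hp]
    calc t % 2 ^ d * 2 ^ 9 + t / 2 ^ d < t % 2 ^ d * 2 ^ 9 + 2 ^ 9 := by omega
      _ = (t % 2 ^ d + 1) * 2 ^ 9 := by ring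
      _ ≤ 2 ^ d * 2 ^ 9 := Nat.mul_le_mul_right _ h4
  · intro t ht
    have h3 := h2 t ht
    have h4 : t % 2 ^ 9 < 2 ^ 9 := Nat.mod_lt _ (by positivity)
    rw [hp]
    calc t / 2 ^ 9 + t % 2 ^ 9 * 2 ^ d < 2 ^ d + t % 2 ^ 9 * 2 ^ d := by omega
      _ = (t % 2 ^ 9 + 1) * 2 ^ d := by ring
      _ ≤ 2 ^ 9 * 2 ^ d := Nat.mul_le_mul_right _ h4
      _ = 2 ^ d * 2 ^ 9 := mul_comm _ _
  · intro t ht
    have h3 := h2 t ht
    have h4 : (t / 2 ^ 9 + t % 2 ^ 9 * 2 ^ d) % 2 ^ d = t / 2 ^ 9 := by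
      rw [Nat.add_mul_mod_self_right, Nat.mod_eq_of_lt h3]
    have h5 : (t / 2 ^ 9 + t % 2 ^ 9 * 2 ^ d) / 2 ^ d = t % 2 ^ 9 := by
      rw [Nat.add_mul_div_right _ _ hd, Nat.div_eq_of_lt h3, zero_add]
    rw [h4, h5]
    exact Nat.div_add_mod' t (2 ^ 9)
  · intro t ht
    have h3 := h1 t ht
    have h4 : (t % 2 ^ d * 2 ^ 9 + t / 2 ^ d) / 2 ^ 9 = t % 2 ^ d := by
      generalize t % 2 ^ d = r
      generalize t / 2 ^ d = q at h3
      omega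
    have h5 : (t % 2 ^ d * 2 ^ 9 + t / 2 ^ d) % 2 ^ 9 = t / 2 ^ d := by
      generalize t % 2 ^ d = r
      generalize t / 2 ^ d = q at h3
      omega
    rw [h4, h5, add_comm]
    exact Nat.div_add_mod' t (2 ^ d)

theorem large {cs : ℕ → ℕ} (hcs : ColS cs) {c0 c0' : ℕ} (hK : SplitKR c0) (hO : SplitOR c0') : ∃ C : ℕ, ∀ d, 2 ^ 116 ≤ d →
    ∃ (L : Type) (_ : Fintype L) (P : Plan d L), Valid P ∧ Sorts P ∧ Fintype.card L ≤ 2 ^ (C * d) ∧
      P.length ≤ C * d * (1 + Nat.log 2 (1 + Nat.log 2 d)) := by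
  obtain ⟨K, hKK⟩ := outer hcs hK hO (2 ^ 9)
  refine ⟨250 * K + 10240 + 221, ?_⟩
  intro d hd
  obtain ⟨a, b, hp, hab⟩ := par_exists d hd
  have hd1 : 1 ≤ d := le_trans Nat.one_le_two_pow hd
  obtain ⟨W, hW⟩ : ∃ W, W = 2 ^ (d + 9 + 1) := ⟨_, rfl⟩
  obtain ⟨Lam, hLam⟩ : ∃ Lam, Lam = W ^ 20 := ⟨_, rfl⟩
  have hWlt : 2 ^ (d + 9) < W := by
    rw [hW]
    exact Nat.pow_lt_pow_right (by norm_num) (by omega)
  have hLam2 : 2 ≤ Lam := by
    have h1 : 2 ≤ W := by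
      have : 0 < 2 ^ (d + 9) := by positivity
      omega
    rw [hLam]
    exact h1.trans (Nat.le_self_pow (by norm_num) W)
  refine ⟨Fin (2 * Lam), inferInstance, ?_⟩
  have hlink : LinkStep (cubeMach d 9 (Fin (2 * Lam))) Lam (2 ^ 9) := link_step d 9 (Fin (2 * Lam)) Lam (by rw [Fintype.card_fin])
  have h1 := hKK (d + 9) a b (Inp d) (Node d) (cubeMach d 9 (Fin (2 * Lam))) 1 W Lam hlink hp hWlt (le_refl 1) (by rw [hLam, one_mul])
    (cV d) (cV_inj d)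
  have hQ9 : 9 ≤ 2 ^ a := by
    have hb2 := hp.b2
    have hba := hp.ba
    have : (2 : ℕ) ^ 5 ≤ 2 ^ a := Nat.pow_le_pow_right (by norm_num) (by omega)
    omega
  have h2 := h1 Unit (fun w => keyR w) (⟨[], trivial⟩ : {P : Plan d (Fin (2 * Lam)) // Valid P}) (fun v _ => ini v)
    (keyR_loc 9 (Fin (2 * Lam))) ini_sm (fun v => ini_has _ _ v) (fun w => ini_dist w) (fun w => ini_run w) (fun w => ini_dens hQ9)
  have hL := lines_ord hlink (cV d) (cV_inj d)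
  obtain ⟨r1, r2, r3, r4⟩ := rot_props d
  have h3 : (cubeMach d 9 (Fin (2 * Lam))).Do (K * (d + 9) * (2 ^ b + a + 1) + 2 * (d + 9) * 2 ^ 9)
      (⟨[], trivial⟩ : {P : Plan d (Fin (2 * Lam)) // Valid P}) (fun P' => ∃ b : Node (d + 9) → Inp d → Option Unit × Option (Node d),
        (∀ v, (cubeMach d 9 (Fin (2 * Lam))).Has P' v (b ((bV d).nd v ((bV d).pos v / 2 ^ 9 + (bV d).pos v % 2 ^ 9 * 2 ^ d)))) ∧
        ∀ w, SortSpec (bV d) (keyR w) ini (fun v => b v w)) := by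
    refine h2.bind ?_
    rintro P1 _ ⟨b1, hb1, hb2⟩
    have hsm : Sm 1 b1 := ⟨{()}, by simp, fun i w x _ => by rw [Finset.mem_singleton]⟩
    refine (statN hL (fun t => t % 2 ^ d * 2 ^ 9 + t / 2 ^ d) (fun t => t / 2 ^ 9 + t % 2 ^ 9 * 2 ^ d) r1 r2 r3 r4 P1 b1
      (hsm.sz.mono hLam2) hb1).mono (le_refl _) ?_
    intro P2 _ h4
    exact ⟨b1, h4, hb2⟩
  obtain ⟨P', _, hlen, bb, hbb, hspec⟩ := h3
  refine ⟨P'.1, P'.2, ?_, ?_, ?_⟩
  · -- the output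
    have hpos : ∀ v : Node d, (bV d).pos (up v) = nodeNum v * 2 ^ 9 := by
      intro v
      have h2 : nodeNum (fun _ : Fin 9 => false) = 0 := by simp [nodeNum]
      rw [bV_pos, low_up, ex_up, h2, add_zero]
    have hrot : ∀ v : Node d, (bV d).pos (up v) / 2 ^ 9 + (bV d).pos (up v) % 2 ^ 9 * 2 ^ d = nodeNum v := by
      intro v
      rw [hpos, Nat.mul_mod_left, zero_mul, add_zero, Nat.mul_div_cancel _ (by positivity)]
    obtain ⟨z, hz⟩ : ∃ z : Node d → Node (d + 9), ∀ v, z v = (bV d).nd (up v) (nodeNum v) := ⟨_, fun _ => rfl⟩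
    have hzp : ∀ v, (bV d).pos (z v) = nodeNum v := by
      intro v
      rw [hz, (bV d).pos_nd]
      exact (nodeNum_lt v).trans_le (Nat.pow_le_pow_right (by norm_num) (by omega))
    have hhas : ∀ v, (cubeMach d 9 (Fin (2 * Lam))).Has P' (up v) (bb (z v)) := by
      intro v
      have h5 := hbb (up v)
      rw [hrot, ← hz] at h5
      exact h5
    have hrk : ∀ v w, ∃ r, (w r).val = nodeNum v ∧ bb (z v) w = (some (), some r) := by
      intro v w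
      have h6 := rank_spec w (hspec w) (z v) (by rw [hzp]; exact nodeNum_lt v)
      rw [hzp] at h6
      exact h6
    refine ⟨fun v ρ => (bb (z v) ρ).2.getD v, fun v => ⟨?_, ?_, ?_⟩⟩
    · intro ρ
      obtain ⟨r, _, hr⟩ := hrk v ρ
      have h7 : (bb (z v) ρ).2.getD v = r := by rw [hr]; rfl
      have h8 := (hhas v).2 ρ r (by rw [hr])
      have h9 : r ∈ held P'.1 (lowN (up v)) ρ := h8
      rw [low_up] at h9
      show (bb (z v) ρ).2.getD v ∈ held P'.1 v ρ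
      rw [h7]
      exact h9
    · intro ρ ρ' hs
      have h8 : bb (z v) ρ = bb (z v) ρ' := by
        refine (hhas v).1 ρ ρ' ?_
        show Sim P'.1 (lowN (up v)) ρ ρ'
        rw [low_up]
        exact hs
      show (bb (z v) ρ).2.getD v = (bb (z v) ρ').2.getD v
      rw [h8]
    · intro ρ
      obtain ⟨r, hr1, hr⟩ := hrk v ρ
      have h7 : (bb (z v) ρ).2.getD v = r := by rw [hr]; rfl
      show (ρ ((bb (z v) ρ).2.getD v)).val = nodeNum v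
      rw [h7, hr1]
  · rw [Fintype.card_fin, hLam, hW, ← pow_mul, ← pow_succ']
    refine Nat.pow_le_pow_right (by norm_num) ?_
    nlinarith
  · have h4 : P'.1.length ≤ K * (d + 9) * (2 ^ b + a + 1) + 2 * (d + 9) * 2 ^ 9 := by
      have h5 : P'.1.length ≤ 0 + (K * (d + 9) * (2 ^ b + a + 1) + 2 * (d + 9) * 2 ^ 9) := hlen
      omega
    refine h4.trans ?_
    obtain ⟨l, hl⟩ : ∃ l, l = 1 + Nat.log 2 (1 + Nat.log 2 d) := ⟨_, rfl⟩
    rw [← hl] at hab ⊢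
    have hl1 : 1 ≤ l := by omega
    have h10 : d + 9 ≤ 10 * d := by omega
    have h5 : K * (d + 9) * (2 ^ b + a + 1) ≤ K * (10 * d) * (25 * l) :=
      Nat.mul_le_mul (Nat.mul_le_mul_left _ h10) hab
    have h6 : 2 * (d + 9) * 2 ^ 9 ≤ 10240 * d * l := by
      calc 2 * (d + 9) * 2 ^ 9 ≤ 10240 * d := by omega
        _ ≤ 10240 * d * l := Nat.le_mul_of_pos_right _ hl1
    calc K * (d + 9) * (2 ^ b + a + 1) + 2 * (d + 9) * 2 ^ 9 ≤ K * (10 * d) * (25 * l) + 10240 * d * l := Nat.add_le_add h5 h6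
      _ = (250 * K + 10240) * d * l := by ring
      _ ≤ (250 * K + 10240 + 221) * d * l := Nat.mul_le_mul_right _ (Nat.mul_le_mul_right _ (by omega))

theorem final {cs : ℕ → ℕ} (hcs : ColS cs) {c0 c0' : ℕ} (hK : SplitKR c0) (hO : SplitOR c0') : ∃ C : ℕ, ∀ d, 1 ≤ d →
    ∃ (L : Type) (_ : Fintype L) (P : Plan d L), Valid P ∧ Sorts P ∧ Fintype.card L ≤ 2 ^ (C * d) ∧
      P.length ≤ C * d * (1 + Nat.log 2 (1 + Nat.log 2 d)) := by
  obtain ⟨C, hC⟩ := large hcs hK hO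
  choose P hP1 hP2 using small_plan
  obtain ⟨C', hC'⟩ : ∃ C', ∀ d, d < 2 ^ 116 → (P d).length ≤ C' := by
    refine ⟨(Finset.range (2 ^ 116)).sup (fun d => (P d).length), ?_⟩
    intro d hd
    exact Finset.le_sup (f := fun d => (P d).length) (Finset.mem_range.2 hd)
  refine ⟨C + C', ?_⟩
  intro d hd
  by_cases hd2 : 2 ^ 116 ≤ d
  · obtain ⟨L, hL, P, h1, h2, h3, h4⟩ := hC d hd2
    refine ⟨L, hL, P, h1, h2, h3.trans (Nat.pow_le_pow_right (by norm_num) (Nat.mul_le_mul_right _ (by omega))), ?_⟩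
    exact h4.trans (Nat.mul_le_mul_right _ (Nat.mul_le_mul_right _ (by omega)))
  · refine ⟨Unit, inferInstance, P d, hP1 d, hP2 d, ?_, ?_⟩
    · rw [Fintype.card_unit]
      exact Nat.one_le_two_pow
    · have h1 := hC' d (by omega)
      calc (P d).length ≤ C' := h1
        _ ≤ (C + C') * 1 * 1 := by omega
        _ ≤ (C + C') * d * (1 + Nat.log 2 (1 + Nat.log 2 d)) :=
          Nat.mul_le_mul (Nat.mul_le_mul_left _ hd) (by omega)

end Pool.Agent.H22.HC
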